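import Pool.Agent.Y128.GT.Frame

/-!
# Products with Tate forms of degree two
-/

set_option linter.unusedSectionVars false

namespace Pool.Agent.Y128.GT

open Module Pool.Agent.H204R3.SP Pool.Agent.H204R3.GP Pool.Agent.W529.Ta
  Pool.Agent.TH131.GHC

noncomputable section

variable {K : Type} [Field K] {X : Type} [AddCommGroup X] [Module K X]
  {κ : Type} [Fintype κ] [DecidableEq κ]

/-- The restriction of a tuple. -/
def res (a b : κ) (v : κ → X) : {l : κ // l ≠ a ∧ l ≠ b} → X := fun l => v l.1

theorem res_update_a (a b : κ) (v : κ → X) (x : X) :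
    res a b (Function.update v a x) = res a b v := by
  funext l
  exact Function.update_of_ne l.2.1 _ _

theorem res_update_b (a b : κ) (v : κ → X) (x : X) :
    res a b (Function.update v b x) = res a b v := by
  funext l
  exact Function.update_of_ne l.2.2 _ _

theorem res_update (a b : κ) (v : κ → X) (i : {l : κ // l ≠ a ∧ l ≠ b}) (x : X) :
    res a b (Function.update v i.1 x) = Function.update (res a b v) i x := by
  funext l
  by_cases h : l = i
  · subst h
    rw [Function.update_self]
    exact Function.update_self _ _ _
  · rw [Function.update_of_ne h]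
    exact Function.update_of_ne (fun h' => h (Subtype.ext h')) _ _

/-- The product of a bilinear form in two variables and of a form in the other variables. -/
def mulB {a b : κ} (hab : a ≠ b) (B : X →ₗ[K] X →ₗ[K] K) :
    MultilinearMap K (fun _ : {l : κ // l ≠ a ∧ l ≠ b} => X) K →ₗ[K]
      MultilinearMap K (fun _ : κ => X) K where
  toFun c := MultilinearMap.mk' (fun v => B (v a) (v b) * c (res a b v))
    (by
      intro v i x y
      by_cases hia : i = a
      · subst hia
        simp only [Function.update_self, Function.update_of_ne hab.symm, res_update_a, map_add,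
          LinearMap.add_apply, add_mul]
      · by_cases hib : i = b
        · subst hib
          simp only [Function.update_self, Function.update_of_ne hab, res_update_b, map_add,
            add_mul]
        · simp only [Function.update_of_ne (Ne.symm hia), Function.update_of_ne (Ne.symm hib)]
          have h := fun x => res_update a b v ⟨i, hia, hib⟩ x
          simp only at h
          rw [h, h, h, MultilinearMap.map_update_add, mul_add])
    (by
      intro v i c' x
      by_cases hia : i = a
      · subst hia
        simp only [Function.update_self, Function.update_of_ne hab.symm, res_update_a, map_smul,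
          LinearMap.smul_apply, smul_eq_mul, mul_assoc]
      · by_cases hib : i = b
        · subst hib
          simp only [Function.update_self, Function.update_of_ne hab, res_update_b, map_smul,
            smul_eq_mul, mul_assoc]
        · simp only [Function.update_of_ne (Ne.symm hia), Function.update_of_ne (Ne.symm hib)]
          have h := fun x => res_update a b v ⟨i, hia, hib⟩ x
          simp only at h
          rw [h, h, MultilinearMap.map_update_smul, smul_eq_mul, smul_eq_mul]
          ring)
  map_add' c d := by
    ext v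
    exact mul_add _ _ _
  map_smul' r c := by
    ext v
    change B (v a) (v b) * (r * c (res a b v)) = r * (B (v a) (v b) * c (res a b v))
    ring

theorem mulB_apply {a b : κ} (hab : a ≠ b) (B : X →ₗ[K] X →ₗ[K] K)
    (c : MultilinearMap K (fun _ : {l : κ // l ≠ a ∧ l ≠ b} => X) K) (v : κ → X) :
    mulB hab B c v = B (v a) (v b) * c (res a b v) := rfl

variable {Γ : Type} [Group Γ] (R : Representation K Γ X) (χ : Γ →* K)

/-- The span of the products of `j` bilinear Tate forms and of forms in the other variables. -/
def IJ : ℕ → (κ : Type) → [Fintype κ] → [DecidableEq κ] →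
    Submodule K (MultilinearMap K (fun _ : κ => X) K)
  | 0, _, _, _ => ⊤
  | j + 1, κ, _, _ => Submodule.span K {F | ∃ (a b : κ) (hab : a ≠ b) (B : X →ₗ[K] X →ₗ[K] K)
      (c : MultilinearMap K (fun _ : {l : κ // l ≠ a ∧ l ≠ b} => X) K), IsTate2 R χ B ∧
        c ∈ IJ j {l : κ // l ≠ a ∧ l ≠ b} ∧ F = mulB hab B c}

theorem mulB_mem {j : ℕ} {a b : κ} (hab : a ≠ b) {B : X →ₗ[K] X →ₗ[K] K} (hB : IsTate2 R χ B)
    {c : MultilinearMap K (fun _ : {l : κ // l ≠ a ∧ l ≠ b} => X) K}
    (hc : c ∈ IJ R χ j {l : κ // l ≠ a ∧ l ≠ b}) : mulB hab B c ∈ IJ R χ (j + 1) κ :=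
  Submodule.subset_span ⟨a, b, hab, B, c, hB, hc, rfl⟩

/-- A criterion for forms to be products. -/
theorem mem_one {a b : κ} (hab : a ≠ b) {B : X →ₗ[K] X →ₗ[K] K} (hB : IsTate2 R χ B)
    (φ : MultilinearMap K (fun _ : κ => X) K) (G : (κ → X) → K)
    (hG : ∀ y u w, G (Function.update (Function.update y a u) b w) = G y)
    (h : ∀ y, φ y = B (y a) (y b) * G y) : φ ∈ IJ R χ 1 κ := by
  classical
  by_cases h0 : ∀ u w, B u w = 0
  · have h1 : φ = 0 := by
      ext y
      rw [h, h0, zero_mul, zero_apply]
    rw [h1]
    exact Submodule.zero_mem _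
  push Not at h0
  obtain ⟨u, w, huw⟩ := h0
  let z : {l : κ // ¬(l ≠ a ∧ l ≠ b)} → X := fun l => if l.1 = a then u else w
  let c : MultilinearMap K (fun _ : {l : κ // l ≠ a ∧ l ≠ b} => X) K :=
    (B u w)⁻¹ • φ.domDomRestrict (fun l => l ≠ a ∧ l ≠ b) z
  have h1 : φ = mulB hab B c := by
    ext y
    rw [mulB_apply, h]
    congr 1
    change G y = (B u w)⁻¹ * (φ.domDomRestrict (fun l => l ≠ a ∧ l ≠ b) z) (res a b y)
    rw [MultilinearMap.domDomRestrict_apply]
    have h2 : (fun j => if h : j ≠ a ∧ j ≠ b then res a b y ⟨j, h⟩ else z ⟨j, h⟩) =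
        Function.update (Function.update y a u) b w := by
      funext j
      by_cases hjb : j = b
      · subst hjb
        rw [Function.update_self, dif_neg (fun h => h.2 rfl)]
        exact if_neg hab.symm
      · rw [Function.update_of_ne hjb]
        by_cases hja : j = a
        · subst hja
          rw [Function.update_self, dif_neg (fun h => h.1 rfl)]
          exact if_pos rfl
        · rw [Function.update_of_ne hja, dif_pos ⟨hja, hjb⟩]
          rfl
    have h3 : φ (fun j => if h : j ≠ a ∧ j ≠ b then res a b y ⟨j, h⟩ else z ⟨j, h⟩) =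
        B u w * G y := by
      rw [h2, h, hG, Function.update_self, Function.update_of_ne hab, Function.update_self]
    rw [h3, inv_mul_cancel_left₀ huw]
  rw [h1]
  exact mulB_mem R χ hab hB Submodule.mem_top

/-- Transport of products along a bijection of the variables. -/
theorem reindex_one {κ' : Type} [Fintype κ'] [DecidableEq κ'] (f : κ ≃ κ')
    {φ : MultilinearMap K (fun _ : κ => X) K}
    (h : φ.domDomCongr f ∈ IJ R χ 1 κ') : φ ∈ IJ R χ 1 κ := by
  have h1 : φ = (φ.domDomCongr f).domDomCongr f.symm := by
    ext v
    change φ v = φ (fun i => v (f.symm (f i)))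
    congr 1
    funext i
    rw [Equiv.symm_apply_apply]
  rw [h1]
  generalize φ.domDomCongr f = ψ at h
  change ψ ∈ Submodule.span K _ at h
  induction h using Submodule.span_induction with
  | mem F hF =>
    obtain ⟨a, b, hab, B, c, hB, -, rfl⟩ := hF
    have hab' : f.symm a ≠ f.symm b := fun h => hab (f.symm.injective h)
    refine mem_one R χ hab' hB _ (fun y => c (fun l => y (f.symm l.1))) ?_ fun y => rfl
    intro y u w
    congr 1
    funext l
    rw [Function.update_of_ne (fun h => l.2.2 (f.symm.injective h)),
      Function.update_of_ne (fun h => l.2.1 (f.symm.injective h))]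
  | zero =>
    have h2 : (0 : MultilinearMap K (fun _ : κ' => X) K).domDomCongr f.symm = 0 := rfl
    rw [h2]
    exact Submodule.zero_mem _
  | add a b _ _ ha hb =>
    have h2 : (a + b).domDomCongr f.symm = a.domDomCongr f.symm + b.domDomCongr f.symm := rfl
    rw [h2]
    exact Submodule.add_mem _ ha hb
  | smul c a _ ha =>
    have h2 : (c • a).domDomCongr f.symm = c • a.domDomCongr f.symm := rfl
    rw [h2]
    exact Submodule.smul_mem _ _ ha

/-- Substitution in a product. -/
theorem TT_mulB {a b : κ} (hab : a ≠ b) {B : X →ₗ[K] X →ₗ[K] K} {g : Module.End K X} {r : K}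
    (hg : ∀ u v, B (g u) (g v) = r * B u v)
    (c : MultilinearMap K (fun _ : {l : κ // l ≠ a ∧ l ≠ b} => X) K) :
    TT g (mulB hab B c) = r • mulB hab B (TT g c) := by
  ext v
  rw [TT_apply, mulB_apply, hg, smul_apply, mulB_apply, smul_eq_mul, mul_assoc]
  rfl

end

end Pool.Agent.Y128.GT
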