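import Pool.Agent.Y128.GT.Defs
import Pool.Agent.Y128.GT.Ideal
import Pool.Agent.H204R3.CM.Alt
import Pool.Agent.TH131.GHC.Conv2
import Pool.Agent.W522.U.B2

/-!
# Alternating forms in the powers of the ideal
-/

set_option linter.unusedSectionVars false

namespace Pool.Agent.Y128.GT

open Module Equiv Pool.Agent.H204R3.CM Pool.Agent.H204R3.SP Pool.Agent.H204R3.GP
  Pool.Agent.W529.Ta Pool.Agent.W522.U

noncomputable section

section gen

variable {k : Type} [Field k] {W : Type} [AddCommGroup W] [Module k W]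

/-- The product form. -/
def pForm {ν m : ℕ} {κ : Type*} (e : (Fin ν × Fin 2) ⊕ Fin m ≃ κ)
    (B : Fin ν → MultilinearMap k (fun _ : Fin 2 => W) k)
    (h : MultilinearMap k (fun _ : Fin m => W) k) : MultilinearMap k (fun _ : κ => W) k :=
  MultilinearMap.domDomCongr e ((LinearMap.mul' k k).compMultilinearMap
    (MultilinearMap.domCoprod (prodMap B) h))

theorem pForm_apply {ν m : ℕ} {κ : Type*} (e : (Fin ν × Fin 2) ⊕ Fin m ≃ κ)
    (B : Fin ν → MultilinearMap k (fun _ : Fin 2 => W) k)
    (h : MultilinearMap k (fun _ : Fin m => W) k) (v : κ → W) :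
    pForm e B h v =
      (∏ s, B s (fun ε => v (e (Sum.inl (s, ε))))) * h (fun k => v (e (Sum.inr k))) := by
  unfold pForm
  rw [MultilinearMap.domDomCongr_apply, LinearMap.compMultilinearMap_apply,
    MultilinearMap.domCoprod_apply, LinearMap.mul'_apply]
  rfl

/-- The alternation of a product. -/
theorem alt_gen {ν m : ℕ} {κ : Type*} [Fintype κ] [DecidableEq κ]
    (e : (Fin ν × Fin 2) ⊕ Fin m ≃ κ)
    (B : Fin ν → MultilinearMap k (fun _ : Fin 2 => W) k)
    (h : MultilinearMap k (fun _ : Fin m => W) k) (v : κ → W) :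
    ∑ σ : Perm κ, ((Perm.sign σ : ℤ) : k) *
      ((∏ s, (MultilinearMap.alternatization (B s)) (fun ε => v (σ (e (Sum.inl (s, ε)))))) *
        (MultilinearMap.alternatization h) (fun k => v (σ (e (Sum.inr k))))) =
    ((2 : k) ^ ν * (m.factorial : k)) * ∑ σ : Perm κ, ((Perm.sign σ : ℤ) : k) *
      ((∏ s, B s (fun ε => v (σ (e (Sum.inl (s, ε)))))) * h (fun k => v (σ (e (Sum.inr k))))) := by
  classical
  let P : (Fin ν → Perm (Fin 2)) → Perm (Fin m) → Perm κ := fun τ ρ =>
    e.permCongr (Perm.sumCongr (prodCongrRight τ) ρ)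
  have hP1 : ∀ τ ρ s ε, P τ ρ (e (Sum.inl (s, ε))) = e (Sum.inl (s, τ s ε)) := by
    intro τ ρ s ε
    simp only [P, Equiv.permCongr_apply, Equiv.symm_apply_apply]
    rfl
  have hP2 : ∀ τ ρ k, P τ ρ (e (Sum.inr k)) = e (Sum.inr (ρ k)) := by
    intro τ ρ k
    simp only [P, Equiv.permCongr_apply, Equiv.symm_apply_apply]
    rfl
  have hP3 : ∀ τ ρ, Perm.sign (P τ ρ) = Perm.sign (prodCongrRight τ) * Perm.sign ρ := by
    intro τ ρ
    simp only [P, Perm.sign_permCongr, Perm.sign_sumCongr]
  have h1 : ∀ σ : Perm κ,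
      (∏ s, (MultilinearMap.alternatization (B s)) (fun ε => v (σ (e (Sum.inl (s, ε)))))) *
        (MultilinearMap.alternatization h) (fun k => v (σ (e (Sum.inr k)))) =
      ∑ x : (Fin ν → Perm (Fin 2)) × Perm (Fin m), ((Perm.sign (P x.1 x.2) : ℤ) : k) *
        ((∏ s, B s (fun ε => v ((σ * P x.1 x.2) (e (Sum.inl (s, ε)))))) *
          h (fun k => v ((σ * P x.1 x.2) (e (Sum.inr k))))) := by
    intro σ
    have h2 : ∀ s, (MultilinearMap.alternatization (B s)) (fun ε => v (σ (e (Sum.inl (s, ε))))) =
        ∑ τ : Perm (Fin 2), ((Perm.sign τ : ℤ) : k) *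
          B s (fun ε => v (σ (e (Sum.inl (s, τ ε))))) := by
      intro s
      rw [MultilinearMap.alternatization_apply]
      refine Finset.sum_congr rfl fun τ _ => ?_
      rw [Units.smul_def, zsmul_eq_mul]
      rfl
    have h3 : (MultilinearMap.alternatization h) (fun k => v (σ (e (Sum.inr k)))) =
        ∑ ρ : Perm (Fin m), ((Perm.sign ρ : ℤ) : k) * h (fun k => v (σ (e (Sum.inr (ρ k))))) := by
      rw [MultilinearMap.alternatization_apply]
      refine Finset.sum_congr rfl fun τ _ => ?_
      rw [Units.smul_def, zsmul_eq_mul]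
      rfl
    rw [Finset.prod_congr rfl (fun s _ => h2 s), Finset.prod_univ_sum, Fintype.piFinset_univ, h3,
      Finset.sum_mul_sum, Fintype.sum_prod_type]
    refine Finset.sum_congr rfl fun τ _ => Finset.sum_congr rfl fun ρ _ => ?_
    rw [Finset.prod_mul_distrib, hP3, Perm.sign_prodCongrRight]
    simp only [Perm.coe_mul, Function.comp_apply, hP1, hP2]
    push_cast
    ring
  rw [Finset.sum_congr rfl (fun σ _ => by rw [h1 σ, Finset.mul_sum]), Finset.sum_comm]
  have h3 : ∀ x : (Fin ν → Perm (Fin 2)) × Perm (Fin m),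
      ∑ σ : Perm κ, ((Perm.sign σ : ℤ) : k) * (((Perm.sign (P x.1 x.2) : ℤ) : k) *
        ((∏ s, B s (fun ε => v ((σ * P x.1 x.2) (e (Sum.inl (s, ε)))))) *
          h (fun k => v ((σ * P x.1 x.2) (e (Sum.inr k)))))) =
      ∑ σ : Perm κ, ((Perm.sign σ : ℤ) : k) *
        ((∏ s, B s (fun ε => v (σ (e (Sum.inl (s, ε)))))) *
          h (fun k => v (σ (e (Sum.inr k))))) := by
    intro x
    refine Fintype.sum_equiv (Equiv.mulRight (P x.1 x.2)) _ _ ?_
    intro σ
    rw [Equiv.coe_mulRight, map_mul]
    push_cast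
    rw [mul_assoc]
  rw [Finset.sum_congr rfl (fun τ _ => h3 τ), Finset.sum_const, Finset.card_univ,
    Fintype.card_prod, Fintype.card_fun, Fintype.card_perm, Fintype.card_perm, Fintype.card_fin,
    Fintype.card_fin, Fintype.card_fin, nsmul_eq_mul]
  push_cast
  norm_num [Nat.factorial]

end gen

variable {k : Type} [Field k] [CharZero k] {X : Type} [AddCommGroup X] [Module k X]
  {Γ : Type} [Group Γ] (R : Representation k Γ X) (χ : Γ →* k)

/-- The products of `j` bilinear Tate forms with a multilinear form. -/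
def SJ (j : ℕ) (κ : Type) : Set ((κ → X) → k) :=
  {F | ∃ (m : ℕ) (e : (Fin j × Fin 2) ⊕ Fin m ≃ κ)
    (b : Fin j → (X →ₗ[k] X →ₗ[k] k))
    (η : MultilinearMap k (fun _ : Fin m => X) k), (∀ s, IsTate2 R χ (b s)) ∧
    F = fun v => (∏ s, b s (v (e (Sum.inl (s, 0)))) (v (e (Sum.inl (s, 1))))) *
      η (fun r => v (e (Sum.inr r)))}

/-- The forms in the powers of the ideal are combinations of products. -/
theorem IJ_SJ (j : ℕ) : ∀ (κ : Type) [Fintype κ] [DecidableEq κ]
    (φ : MultilinearMap k (fun _ : κ => X) k), φ ∈ IJ R χ j κ →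
      (fun v => φ v) ∈ Submodule.span k (SJ R χ j κ) := by
  induction j with
  | zero =>
    intro κ _ _ φ _
    obtain ⟨e0⟩ : Nonempty (Fin (Fintype.card κ) ≃ κ) := ⟨(Fintype.equivFin κ).symm⟩
    let e : (Fin 0 × Fin 2) ⊕ Fin (Fintype.card κ) ≃ κ := (Equiv.emptySum _ _).trans e0
    refine Submodule.subset_span ⟨Fintype.card κ, e, fun s => s.elim0,
      φ.domDomCongr e0.symm, fun s => s.elim0, ?_⟩
    funext v
    rw [Finset.univ_eq_empty, Finset.prod_empty, one_mul, MultilinearMap.domDomCongr_apply]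
    congr 1
    funext k
    have h1 : e (Sum.inr (e0.symm k)) = k := by
      change e0 (e0.symm k) = k
      exact e0.apply_symm_apply k
    rw [h1]
  | succ j ih =>
    intro κ _ _ φ hφ
    let ev : MultilinearMap k (fun _ : κ => X) k →ₗ[k] ((κ → X) → k) :=
      { toFun := fun φ v => φ v
        map_add' := fun _ _ => rfl
        map_smul' := fun _ _ => rfl }
    change ev φ ∈ _
    change φ ∈ Submodule.span k _ at hφ
    induction hφ using Submodule.span_induction with
    | zero =>
      rw [map_zero]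
      exact Submodule.zero_mem _
    | add x y _ _ hx hy =>
      rw [map_add]
      exact Submodule.add_mem _ hx hy
    | smul r x _ hx =>
      rw [map_smul]
      exact Submodule.smul_mem _ _ hx
    | mem F hF =>
      obtain ⟨a, b, hab, B, c, hB, hc, rfl⟩ := hF
      have h1 := ih {l // l ≠ a ∧ l ≠ b} c hc
      let Lm : (({l // l ≠ a ∧ l ≠ b} → X) → k) →ₗ[k] ((κ → X) → k) :=
        { toFun := fun F v => B (v a) (v b) * F (fun l => v l.1)
          map_add' := fun F G => by
            funext v
            simp only [Pi.add_apply, mul_add]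
          map_smul' := fun r F => by
            funext v
            simp only [Pi.smul_apply, smul_eq_mul, RingHom.id_apply]
            ring }
      have h2 : ev (mulB hab B c) = Lm (fun v => c v) := rfl
      rw [h2]
      have h3 := Submodule.mem_map_of_mem (f := Lm) h1
      rw [Submodule.map_span] at h3
      refine Submodule.span_mono ?_ h3
      rintro _ ⟨_, ⟨m, e, b', η, hb', rfl⟩, rfl⟩
      obtain ⟨e', he0, he1, he2, he3⟩ := Pool.Agent.TH131.GHC.exists_extend_sum hab e
      refine ⟨m, e', Fin.cons B b', η, ?_, ?_⟩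
      · intro s
        refine Fin.cases ?_ (fun s => ?_) s
        · exact hB
        · exact hb' s
      · funext v
        rw [Fin.prod_univ_succ]
        change B (v a) (v b) * _ = _
        simp only [Fin.cons_zero, Fin.cons_succ, he2, he3]
        rw [he0, he1, mul_assoc]

variable {V : Type} [AddCommGroup V] [Module k V] (ρ : Representation k Γ V)

/-- An alternating form on a power which is in the `j`-th power of the ideal is a combination of
wedge products with `j` Tate classes of degree two. -/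
theorem alt_IJ {n i j : ℕ} (f : (Fin n → V) [⋀^Fin i]→ₗ[k] k)
    (hf : f.toMultilinearMap ∈ IJ (piRep (fun _ : Fin n => ρ)) χ j (Fin i)) :
    f ∈ Submodule.span k (divisorProducts ρ χ n i j) := by
  classical
  have hf' := IJ_SJ _ _ j (Fin i) _ hf
  have hA : altFun (R := k) (fun v => f v) ∈
      Submodule.map (altFun (R := k)) (Submodule.span k
        (SJ (piRep (fun _ : Fin n => ρ)) χ j (Fin i))) :=
    Submodule.mem_map_of_mem hf'
  rw [Submodule.map_span, altFun_alt] at hA
  let K : ((Fin n → V) [⋀^Fin i]→ₗ[k] k) →ₗ[k] ((Fin i → Fin n → V) → k) :=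
    { toFun := fun g v => g v
      map_add' := fun _ _ => rfl
      map_smul' := fun _ _ => rfl }
  have hKinj : Function.Injective K := fun g g' h => AlternatingMap.ext fun v => congrFun h v
  have hsub : altFun (R := k) '' (SJ (piRep (fun _ : Fin n => ρ)) χ j (Fin i)) ⊆
      (Submodule.span k (divisorProducts ρ χ n i j)).map K := by
    rintro _ ⟨_, ⟨m, e, b, η, hb, rfl⟩, rfl⟩
    let A : Fin j → (Fin n → V) [⋀^Fin 2]→ₗ[k] k := fun s =>
      MultilinearMap.alternatization (bil2 (b s))
    let H : (Fin n → V) [⋀^Fin m]→ₗ[k] k := MultilinearMap.alternatization η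
    have hAT : ∀ s, IsTateClass ρ χ 1 (A s) := by
      intro s
      obtain ⟨Δ, hΔ, h⟩ := hb s
      refine ⟨Δ, hΔ, fun g hg v => ?_⟩
      rw [pow_one]
      change MultilinearMap.alternatization _ _ = _ * MultilinearMap.alternatization _ _
      rw [MultilinearMap.alternatization_apply, MultilinearMap.alternatization_apply,
        Finset.mul_sum]
      refine Finset.sum_congr rfl fun σ _ => ?_
      rw [Units.smul_def, zsmul_eq_mul, Units.smul_def, zsmul_eq_mul,
        MultilinearMap.domDomCongr_apply, MultilinearMap.domDomCongr_apply, bil2_apply, bil2_apply]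
      have h1 := h g hg (v (σ 0)) (v (σ 1))
      have h2 : b s (fun i => ρ g (v (σ 0) i)) (fun i => ρ g (v (σ 1) i)) =
          χ g * b s (v (σ 0)) (v (σ 1)) := h1
      rw [h2]
      ring
    let g : (Fin n → V) [⋀^Fin i]→ₗ[k] k := MultilinearMap.alternatization
      (pForm e (fun s => (A s).toMultilinearMap) H.toMultilinearMap)
    have hg : ∀ v, g v = ∑ σ : Perm (Fin i), ((Perm.sign σ : ℤ) : k) *
        ((∏ s, A s (fun ε => v (σ (e (Sum.inl (s, ε)))))) *
          H (fun r => v (σ (e (Sum.inr r))))) := by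
      intro v
      change MultilinearMap.alternatization _ v = _
      rw [MultilinearMap.alternatization_apply]
      refine Finset.sum_congr rfl fun σ _ => ?_
      rw [Units.smul_def, zsmul_eq_mul, MultilinearMap.domDomCongr_apply, pForm_apply]
      rfl
    have hgT : g ∈ divisorProducts ρ χ n i j := by
      refine ⟨m, e, A, H, hAT, fun v => ?_⟩
      rw [hg v]
      refine Finset.sum_congr rfl fun σ _ => ?_
      have h1 : ∀ s, A s (fun ε => v (σ (e (Sum.inl (s, ε))))) =
          A s ![v (σ (e (Sum.inl (s, 0)))), v (σ (e (Sum.inl (s, 1))))] := by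
        intro s
        refine congrArg (A s) ?_
        funext ε
        fin_cases ε <;> rfl
      rw [Finset.prod_congr rfl fun s _ => h1 s]
    refine ⟨(((2 : k) ^ j * (m.factorial : k))⁻¹) • g,
      Submodule.smul_mem _ _ (Submodule.subset_span hgT), ?_⟩
    rw [map_smul]
    funext v
    have h2 : (K g) v = ((2 : k) ^ j * (m.factorial : k)) *
        ∑ σ : Perm (Fin i), ((Perm.sign σ : ℤ) : k) *
          ((∏ s, bil2 (b s) (fun ε => v (σ (e (Sum.inl (s, ε)))))) *
            η (fun r => v (σ (e (Sum.inr r))))) := by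
      change g v = _
      rw [hg v]
      exact alt_gen e (fun s => bil2 (b s)) η v
    have h6 : (2 : k) ^ j * (m.factorial : k) ≠ 0 :=
      mul_ne_zero (pow_ne_zero _ two_ne_zero) (Nat.cast_ne_zero.2 (Nat.factorial_ne_zero _))
    rw [Pi.smul_apply, h2, smul_eq_mul, ← mul_assoc, inv_mul_cancel₀ h6, one_mul]
    rfl
  have h1 : ((Fintype.card (Fin i)).factorial : k) • (fun v => f v) ∈
      (Submodule.span k (divisorProducts ρ χ n i j)).map K := Submodule.span_le.2 hsub hA
  have hne : ((Fintype.card (Fin i)).factorial : k) ≠ 0 :=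
    Nat.cast_ne_zero.2 (Nat.factorial_ne_zero _)
  have h2 : (fun v => f v) ∈ (Submodule.span k (divisorProducts ρ χ n i j)).map K := by
    have h3 := Submodule.smul_mem _ (((Fintype.card (Fin i)).factorial : k))⁻¹ h1
    rwa [smul_smul, inv_mul_cancel₀ hne, one_smul] at h3
  obtain ⟨f', hf', hff⟩ := h2
  have h3 : f' = f := hKinj hff
  rw [← h3]
  exact hf'

end

end Pool.Agent.Y128.GT
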