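import Pool.Agent.Y128.GT.Pull

/-!
# From alternating Tate classes on the powers to multilinear Tate forms over an extension
-/

set_option linter.unusedSectionVars false

namespace Pool.Agent.Y128.GT

open Module TensorProduct Equiv Pool.Agent.H204R3.CM Pool.Agent.H204R3.SP Pool.Agent.H204R3.GP
  Pool.Agent.W529.Ta Pool.Agent.W522.U

noncomputable section

section alt

variable {k : Type} [Field k] [CharZero k] {V : Type} [AddCommGroup V] [Module k V]

/-- An alternating form in two variables as a bilinear form. -/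
def altBil {W : Type} [AddCommGroup W] [Module k W] (B : W [⋀^Fin 2]→ₗ[k] k) :
    W →ₗ[k] W →ₗ[k] k :=
  have hu0 : ∀ a b c : W, Function.update ![a, b] 0 c = ![c, b] := by
    intro a b c
    funext i
    fin_cases i <;> rfl
  have hu1 : ∀ a b c : W, Function.update ![a, b] 1 c = ![a, c] := by
    intro a b c
    funext i
    fin_cases i <;> rfl
  LinearMap.mk₂ k (fun u w => B ![u, w])
      (fun a b w => by
        have h := B.map_update_add ![a, w] 0 a b
        rwa [hu0, hu0, hu0] at h)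
      (fun c a w => by
        have h := B.map_update_smul ![a, w] 0 c a
        rwa [hu0, hu0] at h)
      (fun u a b => by
        have h := B.map_update_add ![u, a] 1 a b
        rwa [hu1, hu1, hu1] at h)
      (fun c u a => by
        have h := B.map_update_smul ![u, a] 1 c a
        rwa [hu1, hu1] at h)

theorem altBil_apply {W : Type} [AddCommGroup W] [Module k W] (B : W [⋀^Fin 2]→ₗ[k] k)
    (u w : W) : altBil B u w = B ![u, w] := rfl

variable {Γ : Type} [Group Γ] (ρ : Representation k Γ V) (χ : Γ →* k)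

/-- The multilinear Tate forms are combinations of products of bilinear Tate forms. -/
theorem multi_of_gen (h : TateGeneratedInDegreeTwo ρ χ) (m : ℕ)
    (φ : MultilinearMap k (fun _ : Fin m × Fin 2 => V) k) (hφ : IsTate ρ χ m φ) :
    φ ∈ Submodule.span k (PT ρ χ m) := by
  classical
  obtain ⟨n, ⟨ε⟩⟩ : ∃ n, Nonempty (Fin m × Fin 2 ≃ Fin n) := ⟨_, ⟨Fintype.equivFin _⟩⟩
  let f : (Fin n → V) [⋀^Fin m × Fin 2]→ₗ[k] k := MultilinearMap.alternatization
    (φ.compLinearMap (fun l => LinearMap.proj (ε l)))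
  have hf : ∀ v, f v = ∑ σ : Perm (Fin m × Fin 2), ((Perm.sign σ : ℤ) : k) *
      φ (fun l => v (σ l) (ε l)) := by
    intro v
    change MultilinearMap.alternatization _ v = _
    rw [MultilinearMap.alternatization_apply]
    refine Finset.sum_congr rfl fun σ _ => ?_
    rw [Units.smul_def, zsmul_eq_mul]
    rfl
  have hfT : IsTateClass ρ χ m f := by
    obtain ⟨Δ, hΔ, hφ⟩ := hφ
    refine ⟨Δ, hΔ, fun s hs v => ?_⟩
    rw [hf, hf, Finset.mul_sum]
    refine Finset.sum_congr rfl fun σ _ => ?_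
    rw [hφ s hs (fun l => v (σ l) (ε l))]
    ring
  have h1 := h n m f hfT
  let E : ((Fin n → V) [⋀^Fin m × Fin 2]→ₗ[k] k) →ₗ[k]
      MultilinearMap k (fun _ : Fin m × Fin 2 => V) k :=
    { toFun := fun g => g.toMultilinearMap.compLinearMap
        (fun l => LinearMap.single k (fun _ => V) (ε l))
      map_add' := fun _ _ => rfl
      map_smul' := fun _ _ => rfl }
  have hE : E f = φ := by
    ext u
    change f (fun l => Pi.single (ε l) (u l)) = φ u
    rw [hf, Finset.sum_eq_single (1 : Perm (Fin m × Fin 2))]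
    · rw [Perm.sign_one]
      simp
    · intro σ _ hσ
      obtain ⟨l, hl⟩ : ∃ l, σ l ≠ l := by
        by_contra hcon
        push Not at hcon
        exact hσ (Equiv.ext hcon)
      have h2 : φ (fun l => (Pi.single (ε (σ l)) (u (σ l)) : Fin n → V) (ε l)) = 0 := by
        refine φ.map_coord_zero l ?_
        rw [Pi.single_eq_of_ne]
        exact fun h => hl (ε.injective h.symm)
      rw [h2, mul_zero]
    · intro h
      exact absurd (Finset.mem_univ _) h
  rw [← hE]
  have h2 := Submodule.mem_map_of_mem (f := E) h1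
  rw [Submodule.map_span] at h2
  refine (Submodule.span_le.2 ?_) h2
  rintro _ ⟨g, ⟨B, hB, hg⟩, rfl⟩
  have h3 : E g = ∑ σ : Perm (Fin m × Fin 2), ((Perm.sign σ : ℤ) : k) •
      mmG σ (fun l => (altBil (B l)).compl₁₂ (LinearMap.single k (fun _ => V) (ε (σ (l, 0))))
        (LinearMap.single k (fun _ => V) (ε (σ (l, 1))))) := by
    ext u
    rw [sum_apply]
    exact hg _
  rw [h3]
  refine Submodule.sum_mem _ fun σ _ => Submodule.smul_mem _ _ (Submodule.subset_span
    ⟨σ, _, fun l => ?_, rfl⟩)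
  obtain ⟨Δ, hΔ, h4⟩ := hB l
  refine ⟨Δ, hΔ, fun s hs u v => ?_⟩
  rw [LinearMap.compl₁₂_apply, LinearMap.compl₁₂_apply, altBil_apply, altBil_apply]
  have h5 := h4 s hs ![LinearMap.single k (fun _ => V) (ε (σ (l, 0))) u,
    LinearMap.single k (fun _ => V) (ε (σ (l, 1))) v]
  rw [pow_one] at h5
  rw [← h5]
  congr 1
  funext a
  fin_cases a
  · change Pi.single (ε (σ (l, 0))) (ρ s u) = fun i => ρ s ((Pi.single (ε (σ (l, 0))) u : Fin n → V) i)
    funext i
    by_cases hi : i = ε (σ (l, 0))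
    · subst hi
      rw [Pi.single_eq_same, Pi.single_eq_same]
    · rw [Pi.single_eq_of_ne hi, Pi.single_eq_of_ne hi, map_zero]
  · change Pi.single (ε (σ (l, 1))) (ρ s v) = fun i => ρ s ((Pi.single (ε (σ (l, 1))) v : Fin n → V) i)
    funext i
    by_cases hi : i = ε (σ (l, 1))
    · subst hi
      rw [Pi.single_eq_same, Pi.single_eq_same]
    · rw [Pi.single_eq_of_ne hi, Pi.single_eq_of_ne hi, map_zero]

end alt

section asc

variable {k Ω : Type} [Field k] [CharZero k] [Field Ω] [CharZero Ω] [Algebra k Ω]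
  {V : Type} [AddCommGroup V] [Module k V] {ν : Type} [Fintype ν] [DecidableEq ν]
  (b : Basis ν k V) {Γ : Type} [Group Γ] (ρ : Representation k Γ V) (χ : Γ →* k)

theorem bcb_tate {B : V →ₗ[k] V →ₗ[k] k} (hB : IsTate2 ρ χ B) :
    IsTate2 (bcr ρ Ω) (bcc χ Ω) (bcb Ω B) := by
  obtain ⟨Δ, hΔ, h⟩ := hB
  refine ⟨Δ, hΔ, fun s hs u v => ?_⟩
  exact bcb_inv (Ω := Ω) (ρ.comp Δ.subtype) (χ.comp Δ.subtype) B (fun s u v => h s.1 s.2 u v)
    ⟨s, hs⟩ u v

include b in
/-- Ascent to an extension. -/
theorem ascend {m : ℕ} (hall : ∀ φ : MultilinearMap k (fun _ : Fin m × Fin 2 => V) k,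
      IsTate ρ χ m φ → φ ∈ Submodule.span k (PT ρ χ m))
    (φ : MultilinearMap Ω (fun _ : Fin m × Fin 2 => Ω ⊗[k] V) Ω)
    (hφ : IsTate (bcr ρ Ω) (bcc χ Ω) m φ) :
    φ ∈ Submodule.span Ω (PT (bcr ρ Ω) (bcc χ Ω) m) := by
  classical
  let w := Basis.ofVectorSpace k Ω
  let F : Finset (Basis.ofVectorSpaceIndex k Ω) := Finset.univ.biUnion
    (fun I : Fin m × Fin 2 → ν => (w.repr (φ (fun l => b.baseChange Ω (I l)))).support)
  have h1 : φ = ∑ i ∈ F, w i • bcm (Ω := Ω) b (desc (w.coord i) φ) := by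
    refine Basis.ext_multilinear (fun _ => b.baseChange Ω) fun I => ?_
    rw [sum_apply]
    have h2 : ∀ i, (w i • bcm (Ω := Ω) b (desc (w.coord i) φ)) (fun l => b.baseChange Ω (I l)) =
        w.repr (φ (fun l => b.baseChange Ω (I l))) i • w i := by
      intro i
      rw [smul_apply, bcm_basis, desc_apply, smul_eq_mul, Algebra.smul_def, mul_comm,
        Basis.coord_apply]
      have h3 : (fun l => b.baseChange Ω (I l)) = fun l => (1 : Ω) ⊗ₜ[k] b (I l) := by
        funext l
        rw [Basis.baseChange_apply]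
      rw [h3]
    rw [Finset.sum_congr rfl fun i _ => h2 i]
    have h7 : (w.repr (φ (fun l => b.baseChange Ω (I l)))).support ⊆ F := by
      intro i hi
      simp only [F, Finset.mem_biUnion, Finset.mem_univ, true_and]
      exact ⟨I, hi⟩
    conv_lhs => rw [← w.linearCombination_repr (φ (fun l => b.baseChange Ω (I l))),
      Finsupp.linearCombination_apply, Finsupp.sum_of_support_subset _ h7 (fun i a => a • w i)
        (fun i _ => zero_smul _ _)]
  have h2 : ∀ i, IsTate ρ χ m (desc (w.coord i) φ) := by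
    intro i
    obtain ⟨Δ, hΔ, h⟩ := hφ
    refine ⟨Δ, hΔ, fun s hs v => ?_⟩
    rw [desc_apply, desc_apply]
    have h3 := h s hs (fun l => (1 : Ω) ⊗ₜ[k] v l)
    have h4 : ∀ l, bcr ρ Ω s ((1 : Ω) ⊗ₜ[k] v l) = (1 : Ω) ⊗ₜ[k] ρ s (v l) := fun l => rfl
    simp only [h4] at h3
    rw [h3, bcc_apply, ← map_pow, ← Algebra.smul_def, map_smul, smul_eq_mul]
  have h3 : ∀ ψ ∈ Submodule.span k (PT ρ χ m),
      bcm (Ω := Ω) b ψ ∈ Submodule.span Ω (PT (bcr ρ Ω) (bcc χ Ω) m) := by
    intro ψ hψ
    induction hψ using Submodule.span_induction with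
    | zero =>
      have h : bcm (Ω := Ω) b (0 : MultilinearMap k (fun _ : Fin m × Fin 2 => V) k) = 0 :=
        map_zero (bcmL (Ω := Ω) b)
      rw [h]
      exact Submodule.zero_mem _
    | add x y _ _ hx hy =>
      have h : bcm (Ω := Ω) b (x + y) = bcm b x + bcm b y := map_add (bcmL (Ω := Ω) b) x y
      rw [h]
      exact Submodule.add_mem _ hx hy
    | smul c x _ hx =>
      have h : bcm (Ω := Ω) b (c • x) = algebraMap k Ω c • bcm b x := by
        refine Basis.ext_multilinear (fun _ => b.baseChange Ω) fun J => ?_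
        rw [bcm_basis, smul_apply, smul_apply, bcm_basis, smul_eq_mul, smul_eq_mul, map_mul]
      rw [h]
      exact Submodule.smul_mem _ _ hx
    | mem F hF =>
      obtain ⟨σ, B, hB, rfl⟩ := hF
      refine Submodule.subset_span ⟨σ, fun l => bcb Ω (B l), fun l => bcb_tate ρ χ (hB l), ?_⟩
      refine Basis.ext_multilinear (fun _ => b.baseChange Ω) fun I => ?_
      rw [bcm_basis, mmG_apply, mmG_apply, map_prod]
      refine Finset.prod_congr rfl fun l _ => ?_
      rw [Basis.baseChange_apply, Basis.baseChange_apply, bcb_one]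
  rw [h1]
  exact Submodule.sum_mem _ fun i _ => Submodule.smul_mem _ _ (h3 _ (hall _ (h2 i)))

end asc

end

end Pool.Agent.Y128.GT
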