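import Pool.Agent.Y128.GT.Mix

/-!
# Stable spaces of forms which vanish on a Lagrangian subspace
-/

set_option linter.unusedSectionVars false

namespace Pool.Agent.Y128.GT

open Module Pool.Agent.H204R3.SP Pool.Agent.H204R3.GP Pool.Agent.W529.Ta
  Pool.Agent.TH131.GHC

noncomputable section

variable {K : Type} [Field K] [CharZero K] {X : Type} [AddCommGroup X] [Module K X]
  {Γ : Type} [Group Γ] {R : Representation K Γ X} {χ : Γ →* K}
  {ι Q : Type} [Fintype ι] [DecidableEq ι] [Fintype Q] [DecidableEq Q] (Fr : Frame R χ ι Q)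

namespace Frame

/-- Half of the basis vectors are positive. -/
theorem card_le (q : Q) : Fintype.card {r // Fr.cls r = q} ≤
    2 * Fintype.card {γ : {r // Fr.sg r = true} // Fr.cls γ.1 = q} := by
  classical
  have h1 : 2 * Fintype.card {γ : {r // Fr.sg r = true} // Fr.cls γ.1 = q} =
      Fintype.card (Bool × {γ : {r // Fr.sg r = true} // Fr.cls γ.1 = q}) := by
    rw [Fintype.card_prod, Fintype.card_bool]
  rw [h1]
  refine Fintype.card_le_of_injective (fun r => (Fr.sg r.1, if h : Fr.sg r.1 = true then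
    ⟨⟨r.1, h⟩, r.2⟩ else ⟨⟨Fr.inv r.1, by rw [Fr.sg_inv, Bool.eq_false_of_not_eq_true h]; rfl⟩,
      by rw [Fr.cls_inv]; exact r.2⟩)) ?_
  intro r s h
  have h2 := congrArg Prod.fst h
  have h3 := congrArg Prod.snd h
  simp only at h2 h3
  apply Subtype.ext
  by_cases hr : Fr.sg r.1 = true
  · have hs : Fr.sg s.1 = true := by rw [← h2]; exact hr
    rw [dif_pos hr, dif_pos hs] at h3
    exact congrArg (fun z => z.1.1) h3
  · have hs : ¬Fr.sg s.1 = true := by rw [← h2]; exact hr
    rw [dif_neg hr, dif_neg hs] at h3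
    have h4 := congrArg (fun z => Fr.inv z.1.1) h3
    simp only [Fr.inv_inv] at h4
    exact h4

/-- Functions in the ideal in coordinates. -/
theorem mkForm_IdlR {κ : Type} [Fintype κ] [DecidableEq κ] {F : (κ → ι) → K}
    (hF : F ∈ IdlR (κ := κ) Fr.cls Fr.inv (jj K Fr.sg)) : mkForm Fr.e F ∈ IJ R χ 1 κ := by
  classical
  unfold IdlR at hF
  induction hF using Submodule.span_induction with
  | zero =>
    have h : mkForm Fr.e (0 : (κ → ι) → K) = 0 :=
      Basis.ext_multilinear (fun _ => Fr.e) fun I => by rw [mkForm_basis]; rfl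
    rw [h]
    exact Submodule.zero_mem _
  | add F G _ _ hF hG =>
    have h : mkForm Fr.e (F + G) = mkForm Fr.e F + mkForm Fr.e G :=
      Basis.ext_multilinear (fun _ => Fr.e) fun I => by
        change _ = mkForm Fr.e F _ + mkForm Fr.e G _
        rw [mkForm_basis, mkForm_basis, mkForm_basis]
        rfl
    rw [h]
    exact Submodule.add_mem _ hF hG
  | smul c F _ hF =>
    have h : mkForm Fr.e (c • F) = c • mkForm Fr.e F :=
      Basis.ext_multilinear (fun _ => Fr.e) fun I => by
        change _ = c • mkForm Fr.e F _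
        rw [mkForm_basis, mkForm_basis]
        rfl
    rw [h]
    exact Submodule.smul_mem _ _ hF
  | mem F hF =>
    obtain ⟨a, b, q, G, hab, hG, rfl⟩ := hF
    by_cases hne : IsEmpty ι
    · have h : mkForm Fr.e (fun X => JQ Fr.cls Fr.inv (jj K Fr.sg) q (X a) (X b) * G X) = 0 :=
        Basis.ext_multilinear (fun _ => Fr.e) fun I => hne.elim (I a)
      rw [h]
      exact Submodule.zero_mem _
    rw [not_isEmpty_iff] at hne
    obtain ⟨r0⟩ := hne
    let ext : ({l : κ // l ≠ a ∧ l ≠ b} → ι) → κ → ι := fun I k =>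
      if h : k ≠ a ∧ k ≠ b then I ⟨k, h⟩ else r0
    have h1 : mkForm Fr.e (fun X => JQ Fr.cls Fr.inv (jj K Fr.sg) q (X a) (X b) * G X) =
        mulB hab (Fr.om q) (mkForm Fr.e fun I => G (ext I)) := by
      refine Basis.ext_multilinear (fun _ => Fr.e) fun I => ?_
      rw [mkForm_basis, mulB_apply, Fr.om_e]
      congr 1
      have h2 : res a b (fun l => Fr.e (I l)) = fun l => Fr.e (I l.1) := rfl
      rw [h2, mkForm_basis, ← hG I r0 r0]
      congr 1
      funext k
      change _ = if h : k ≠ a ∧ k ≠ b then I k else r0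
      by_cases hkb : k = b
      · subst hkb
        rw [Function.update_self, dif_neg (by simp)]
      · rw [Function.update_of_ne hkb]
        by_cases hka : k = a
        · subst hka
          rw [Function.update_self, dif_neg (by simp)]
        · rw [Function.update_of_ne hka, dif_pos (⟨hka, hkb⟩ : k ≠ a ∧ k ≠ b)]
    rw [h1]
    exact mulB_mem R χ hab (Fr.om_tate q) Submodule.mem_top

/-- Mixed forms which vanish on the positive basis vectors are products. -/
theorem sft {m : ℕ} {Φ : MultilinearMap K (fun _ : Fin m × Fin 2 => X) K} (hM : Φ ∈ Mx R χ m)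
    (hvan : ∀ (x : Fin m → X) (c : Fin m → ι), (∀ k, Fr.sg (c k) = true) →
      pe x Φ (fun k => Fr.e (c k)) = 0) (x : Fin m → X) : pe x Φ ∈ IJ R χ 1 (Fin m) := by
  classical
  let F : (Fin m → ι) → K := fun I => pe x Φ (fun k => Fr.e (I k))
  have h0 : pe x Φ = mkForm Fr.e F :=
    Basis.ext_multilinear (fun _ => Fr.e) fun I => by rw [mkForm_basis]
  rw [h0]
  refine Fr.mkForm_IdlR ?_
  have h1 : F = ∑ qw : Fin m → Q, fun I => if (∀ k, Fr.cls (I k) = qw k) then F I else 0 := by
    funext I
    rw [Finset.sum_apply, Finset.sum_eq_single (fun k => Fr.cls (I k))]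
    · rw [if_pos fun k => rfl]
    · intro b _ hb
      rw [if_neg]
      intro h
      exact hb (funext fun k => (h k).symm)
    · intro h
      exact absurd (Finset.mem_univ _) h
  rw [h1]
  refine Submodule.sum_mem _ fun qw _ => ?_
  refine antiSpan_le Fr.inv_inv Fr.jj_inv Fr.jj_ne Fr.cls_inv qw
    (fun q => Fintype.card {γ : {r // Fr.sg r = true} // Fr.cls γ.1 = q}) Fr.card_le ?_
  refine mem_anti_of_van Fr.cls (fun γ : {r // Fr.sg r = true} => Fr.cls γ.1) qw _ ?_ ?_
  · intro I hI
    by_contra hcon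
    exact hI (if_neg hcon)
  · intro c hc Y
    let G : ι → ι → K := fun x r => if h : Fr.sg x = true then
      (if Fr.cls r = Fr.cls x then Y ⟨x, h⟩ r else 0) else 0
    have hG : ∀ x r, G x r ≠ 0 → Fr.cls r = Fr.cls x := by
      intro x r h
      by_contra hcon
      apply h
      simp only [G]
      split_ifs <;> rfl
    obtain ⟨g, g', hg, hadj⟩ := Fr.exists_adj G hG
    have h2 : pe x Φ (fun k => g (Fr.e (c k).1)) = 0 := by
      rw [hM g g' hadj]
      exact hvan _ _ fun k => (c k).2
    simp only [hg] at h2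
    rw [MultilinearMap.map_sum] at h2
    refine (Finset.sum_congr rfl fun I _ => ?_).trans h2
    rw [MultilinearMap.map_smul_univ, smul_eq_mul]
    change (if (∀ k, Fr.cls (I k) = qw k) then F I else 0) * ∏ k, Y (c k) (I k) =
      (∏ k, G (c k).1 (I k)) * F I
    have h3 : ∀ k, G (c k).1 (I k) = if Fr.cls (I k) = qw k then Y (c k) (I k) else 0 := by
      intro k
      simp only [G]
      rw [dif_pos (c k).2]
      have h4 : Fr.cls (c k).1 = qw k := hc k
      rw [h4]
    by_cases hI : ∀ k, Fr.cls (I k) = qw k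
    · rw [if_pos hI, mul_comm]
      congr 1
      refine Finset.prod_congr rfl fun k _ => ?_
      rw [h3, if_pos (hI k)]
    · rw [if_neg hI, zero_mul]
      push Not at hI
      obtain ⟨k, hk⟩ := hI
      rw [Finset.prod_eq_zero (Finset.mem_univ k) (by rw [h3, if_neg hk]), zero_mul]

/-- Products vanish on the positive basis vectors. -/
theorem one_van {κ : Type} [Fintype κ] [DecidableEq κ]
    {φ : MultilinearMap K (fun _ : κ => X) K} (hφ : φ ∈ IJ R χ 1 κ) (c : κ → ι)
    (hc : ∀ k, Fr.sg (c k) = true) : φ (fun k => Fr.e (c k)) = 0 := by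
  change φ ∈ Submodule.span K _ at hφ
  induction hφ using Submodule.span_induction with
  | mem F hF =>
    obtain ⟨a, b, hab, B, c', hB, -, rfl⟩ := hF
    obtain ⟨d, hd⟩ := Fr.tate2 hB
    rw [mulB_apply, hd, JJ, if_neg, mul_zero, zero_mul]
    intro h
    have h1 := Fr.sg_inv (c a)
    rw [← h, hc, hc] at h1
    exact absurd h1 (by decide)
  | zero => rfl
  | add a b _ _ ha hb =>
    change a _ + b _ = 0
    rw [ha, hb, add_zero]
  | smul r a _ ha =>
    change r • a _ = 0
    rw [ha, smul_zero]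

/-- **The base lemma**: a space of forms onto which there is an equivariant projection and which
vanishes on the positive basis vectors consists of products. -/
theorem base {m : ℕ} (hPT : ∀ φ : MultilinearMap K (fun _ : Fin m × Fin 2 => X) K,
      IsTate R χ m φ → φ ∈ Submodule.span K (PT R χ m))
    (Δ : Subgroup Γ) (hΔ : Δ.FiniteIndex)
    (P : Module.End K (MultilinearMap K (fun _ : Fin m => X) K))
    (hP : ∀ s ∈ Δ, ∀ φ, P (TT (R s) φ) = TT (R s) (P φ))
    (hvan : ∀ φ, ∀ c : Fin m → ι, (∀ k, Fr.sg (c k) = true) → P φ (fun k => Fr.e (c k)) = 0)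
    (φ : MultilinearMap K (fun _ : Fin m => X) K) : P φ ∈ IJ R χ 1 (Fin m) := by
  classical
  have hT : IsTate R χ m (formOf Fr.ω m P) := by
    refine ⟨Δ, hΔ, fun s hs u => ?_⟩
    rw [formOf_apply, formOf_apply]
    have h2 : TT (R s) (theta Fr.ω m (fun l => R s (u (l, 1)))) =
        (χ s ^ m) • theta Fr.ω m (fun l => u (l, 1)) := by
      ext v
      rw [TT_apply, smul_apply, theta_apply, theta_apply, smul_eq_mul]
      rw [Finset.prod_congr rfl (fun l _ => Fr.weil s (u (l, 1)) (v l)), Finset.prod_mul_distrib,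
        Finset.prod_const, Finset.card_univ, Fintype.card_fin]
    have h3 := hP s hs (theta Fr.ω m (fun l => R s (u (l, 1))))
    rw [h2, map_smul] at h3
    have h4 := congrArg (fun ψ : MultilinearMap K (fun _ : Fin m => X) K =>
      ψ (fun l => u (l, 0))) h3
    exact h4.symm
  obtain ⟨Φ1, h1, Φ2, h2, h12⟩ := Submodule.mem_sup.1
    ((Submodule.span_le.2 PT_le) (hPT _ hT))
  have hpe : ∀ x y, pe x (formOf Fr.ω m P) y = P (theta Fr.ω m x) y := by
    intro x y
    rw [pe_apply, formOf_apply]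
    rfl
  have hvan2 : ∀ (x : Fin m → X) (c : Fin m → ι), (∀ k, Fr.sg (c k) = true) →
      pe x Φ2 (fun k => Fr.e (c k)) = 0 := by
    intro x c hc
    have h3 := hpe x (fun k => Fr.e (c k))
    rw [hvan _ c hc, ← h12, map_add] at h3
    change pe x Φ1 _ + pe x Φ2 _ = 0 at h3
    rwa [Fr.one_van (h1 x) c hc, zero_add] at h3
  have h3 : ∀ x, P (theta Fr.ω m x) ∈ IJ R χ 1 (Fin m) := by
    intro x
    have h4 : P (theta Fr.ω m x) = pe x (formOf Fr.ω m P) := by
      ext y
      rw [hpe]
    rw [h4, ← h12, map_add]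
    exact Submodule.add_mem _ (h1 x) (Fr.sft h2 hvan2 x)
  obtain ⟨g, hg⟩ := LinearMap.exists_rightInverse_of_surjective (IJ R χ 1 (Fin m)).mkQ
    (Submodule.range_mkQ _)
  have h4 : (g.comp (IJ R χ 1 (Fin m)).mkQ).comp P = 0 := by
    refine ext_theta Fr.e Fr.inv_inv Fr.jj_ne Fr.ω Fr.hω m _ _ fun w => ?_
    have h5 : (IJ R χ 1 (Fin m)).mkQ (P (theta Fr.ω m w)) = 0 :=
      (Submodule.Quotient.mk_eq_zero _).2 (h3 w)
    rw [LinearMap.comp_apply, LinearMap.comp_apply, h5, map_zero, LinearMap.zero_apply]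
  have h5 : g ((IJ R χ 1 (Fin m)).mkQ (P φ)) = 0 := congrArg (fun f => f φ) h4
  have h6 := congrArg (IJ R χ 1 (Fin m)).mkQ h5
  have h7 := congrArg (fun f => f ((IJ R χ 1 (Fin m)).mkQ (P φ))) hg
  rw [map_zero] at h6
  exact (Submodule.Quotient.mk_eq_zero _).1 (h7.symm.trans h6)

end Frame

end

end Pool.Agent.Y128.GT
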