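import Pool.Agent.Y128.GT.Ordn
import Pool.Agent.Y128.GT.Asc

/-!
# The Frobenius eigenvalues
-/

set_option linter.unusedSectionVars false

namespace Pool.Agent.Y128.GT

open Module TensorProduct Pool.Agent.H204R3.SP Pool.Agent.H204R3.GP
  Pool.Agent.W529.Ta Pool.Agent.W522.U

noncomputable section

/-- A symplectic eigenbasis. -/
theorem exists_eigbasis {K : Type} [Field K] [CharZero K] [IsAlgClosed K] {X : Type}
    [AddCommGroup X] [Module K X] [FiniteDimensional K X] {Γ : Type} [Group Γ]
    (R : Representation K Γ X) (χ : Γ →* K) (ω : X →ₗ[K] X →ₗ[K] K) (halt : ∀ u, ω u u = 0)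
    (hnd : ∀ u, (∀ w, ω u w = 0) → u = 0) (hω : ∀ g u v, ω (R g u) (R g v) = χ g * ω u v)
    (γ : Γ) (hγ : Module.End.IsSemisimple (R γ)) :
    ∃ (n : ℕ) (e : Basis (Fin n ⊕ Fin n) K X) (α : Fin n ⊕ Fin n → K),
      (∀ x, R γ (e x) = α x • e x) ∧ ∀ x, α x * α x.swap = χ γ := by
  obtain ⟨n, e0, lab, α, hlab, hlabs, he0, he1, hgen, hαα⟩ := exists_graded
    (r := fun _ : Unit => R) (χ := χ)
    (ω.compl₁₂ (LinearMap.proj ()) (LinearMap.proj ())) (fun u => halt _)
    (fun u hu => by
      funext i
      refine hnd _ fun w => ?_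
      exact hu (fun _ => w))
    (fun g u v => hω g _ _) id (fun _ => rfl) (fun i j hij => absurd (Subsingleton.elim j i) hij) γ
  refine ⟨n, e0.map (LinearEquiv.funUnique Unit K X), α, fun x => ?_, hαα⟩
  have h1 := hgen x
  rw [(Module.End.isFinitelySemisimple_iff_isSemisimple.mpr hγ).maxGenEigenspace_eq_eigenspace,
    Module.End.mem_eigenspace_iff] at h1
  rw [Basis.map_apply]
  exact h1

theorem charpoly_eigbasis {K : Type} [Field K] {X : Type} [AddCommGroup X] [Module K X]
    [FiniteDimensional K X] {ι : Type} [Fintype ι] [DecidableEq ι] (e : Basis ι K X)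
    (T : Module.End K X) (α : ι → K) (he : ∀ x, T (e x) = α x • e x) :
    T.charpoly = ∏ x, (Polynomial.X - Polynomial.C (α x)) := by
  rw [← LinearMap.charpoly_toMatrix T e]
  have h1 : LinearMap.toMatrix e e T = Matrix.diagonal α := by
    ext i j
    rw [LinearMap.toMatrix_apply, he, map_smul, Basis.repr_self, Finsupp.smul_apply,
      Finsupp.single_apply, Matrix.diagonal_apply, smul_eq_mul]
    split_ifs with h1 h2 h2
    · rw [mul_one, h1]
    · exact absurd h1.symm h2
    · exact absurd h2.symm h1
    · rw [mul_zero]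
  rw [h1, Matrix.charpoly_diagonal]

/-- Base change preserves semisimplicity. -/
theorem semisimple_bc {k : Type} [Field k] [CharZero k] (Ω : Type) [Field Ω] [Algebra k Ω]
    {V : Type} [AddCommGroup V] [Module k V] [FiniteDimensional k V] (T : Module.End k V)
    (hT : T.IsSemisimple) : Module.End.IsSemisimple (T.baseChange Ω) := by
  have h1 : (minpoly k T).Separable := PerfectField.separable_iff_squarefree.mpr
    hT.minpoly_squarefree
  refine Module.End.isSemisimple_of_squarefree_aeval_eq_zero
    (p := (minpoly k T).map (algebraMap k Ω)) h1.map.squarefree ?_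
  rw [Polynomial.aeval_map_algebraMap]
  have h2 : T.baseChange Ω = Module.End.baseChangeHom k Ω V T := rfl
  rw [h2, Polynomial.aeval_algHom_apply, minpoly.aeval, map_zero]

/-- A power of a diagonalizable operator. -/
theorem pow_eig {K : Type} [Field K] {X : Type} [AddCommGroup X] [Module K X]
    {ι : Type} [Fintype ι] [DecidableEq ι] (e : Basis ι K X)
    (T : Module.End K X) (α : ι → K) (he : ∀ x, T (e x) = α x • e x) (N : ℕ) (β : K) (v : X)
    (hv : v ∈ Module.End.maxGenEigenspace (T ^ N) β) :
    (T ^ N) v = β • v ∧ (v ≠ 0 → ∃ x, β = α x ^ N) := by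
  have h1 : ∀ x (N : ℕ), (T ^ N) (e x) = α x ^ N • e x := by
    intro x N
    induction N with
    | zero => rw [pow_zero, pow_zero, one_smul]; rfl
    | succ N ih => rw [pow_succ, Module.End.mul_apply, he, map_smul, ih, smul_smul, pow_succ,
        mul_comm]
  rw [Module.End.mem_maxGenEigenspace] at hv
  obtain ⟨m, hm⟩ := hv
  have h2 : ∀ (m : ℕ) (v : X) (x : ι), e.repr (((T ^ N - β • (1 : Module.End K X)) ^ m) v) x =
      (α x ^ N - β) ^ m * e.repr v x := by
    intro m
    induction m with
    | zero => intro v x; rw [pow_zero, pow_zero, one_mul]; rfl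
    | succ m ih =>
      intro v x
      rw [pow_succ, Module.End.mul_apply, ih, pow_succ, mul_assoc]
      congr 1
      conv_lhs => rw [← e.sum_repr v]
      rw [map_sum, map_sum, Finsupp.finsetSum_apply, Finset.sum_eq_single x]
      · rw [map_smul, LinearMap.sub_apply, h1, LinearMap.smul_apply, Module.End.one_apply,
          ← sub_smul, map_smul, map_smul, Basis.repr_self, Finsupp.smul_apply, Finsupp.smul_apply,
          Finsupp.single_eq_same, smul_eq_mul, smul_eq_mul, mul_one, mul_comm]
      · intro y _ hy
        rw [map_smul, LinearMap.sub_apply, h1, LinearMap.smul_apply, Module.End.one_apply,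
          ← sub_smul, map_smul, map_smul, Basis.repr_self, Finsupp.smul_apply, Finsupp.smul_apply,
          Finsupp.single_eq_of_ne (Ne.symm hy), smul_zero, smul_zero]
      · intro h
        exact absurd (Finset.mem_univ _) h
  have h3 : ∀ x, e.repr v x ≠ 0 → α x ^ N = β := by
    intro x hx
    have h4 := h2 m v x
    rw [hm, map_zero, Finsupp.zero_apply] at h4
    rcases mul_eq_zero.1 h4.symm with h5 | h5
    · by_contra h6
      exact pow_ne_zero m (sub_ne_zero.2 h6) h5
    · exact absurd h5 hx
  constructor
  · have h4 := h2 1 v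
    simp only [pow_one] at h4
    have h5 : (T ^ N - β • (1 : Module.End K X)) v = 0 := by
      apply e.repr.injective
      ext x
      rw [h4, map_zero, Finsupp.zero_apply]
      by_cases hx : e.repr v x = 0
      · rw [hx, mul_zero]
      · rw [h3 x hx, sub_self, zero_mul]
    rw [LinearMap.sub_apply, sub_eq_zero] at h5
    exact h5
  · intro hv0
    obtain ⟨x, hx⟩ : ∃ x, e.repr v x ≠ 0 := by
      by_contra hcon
      push Not at hcon
      apply hv0
      apply e.repr.injective
      ext x
      rw [hcon, map_zero, Finsupp.zero_apply]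
    exact ⟨x, (h3 x hx).symm⟩

end

end Pool.Agent.Y128.GT
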