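import Pool.Agent.Y128.GT.Reps
import Pool.Agent.W522.U.B6

/-!
# The frame of the sum of the representatives
-/

set_option linter.unusedSectionVars false

namespace Pool.Agent.Y128.GT

open Module Pool.Agent.H204R3.SP Pool.Agent.H204R3.GP Pool.Agent.W529.Ta Pool.Agent.W522.U

noncomputable section

variable {K : Type} [Field K] [CharZero K] {X : Type} [AddCommGroup X] [Module K X]
  {Γ : Type} [Group Γ] {R : Representation K Γ X} {χ : Γ →* K} {s : ℕ} (D : Reps R χ s)

namespace Reps

/-- The form on the sum of the representatives. -/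
def om : D.E →ₗ[K] D.E →ₗ[K] K := pf D.W id D.B

theorem om_apply (u v : D.E) : D.om u v = ∑ i, D.B i (u i : X) (v i : X) := by
  rw [om, pf_apply]
  refine Finset.sum_congr rfl fun i _ => ?_
  rw [Finset.sum_eq_single i]
  · unfold cf
    rw [id, if_pos rfl, if_neg (lt_irrefl i), if_neg (lt_irrefl i)]
  · intro j _ hj
    unfold cf
    rw [id, if_neg hj, LinearMap.zero_apply, LinearMap.zero_apply]
  · intro h
    exact absurd (Finset.mem_univ _) h

theorem om_alt (u : D.E) : D.om u u = 0 := by
  rw [om_apply]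
  exact Finset.sum_eq_zero fun i _ => D.alt i _ (u i).2

theorem om_sim (g : D.Δ) (u v : D.E) : D.om (D.rE g u) (D.rE g v) = D.cE g * D.om u v := by
  rw [om_apply, om_apply, Finset.mul_sum]
  refine Finset.sum_congr rfl fun i _ => ?_
  rw [rE_apply, rE_apply]
  exact D.sim i g.1 g.2 _ (u i).2 _ (v i).2

theorem om_nondeg [FiniteDimensional K X] (u : D.E) (hu : ∀ w, D.om u w = 0) : u = 0 := by
  refine pf_nondeg D.W id D.B (fun _ => rfl) ?_ ?_ u hu
  · intro i j hij
    have hij' : j = i := hij
    subst hij'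
    exact du_left (D.si j) (D.si j).2.1 D.fi (D.ne j) (D.sim j)
  · intro i j hij
    have hij' : j = i := hij
    subst hij'
    exact du_right (D.si j).2.1 (D.si j) D.fi (D.ne j) (D.sim j)

/-- **The frame** and an ordinary element. -/
theorem exists_frame [IsAlgClosed K] [FiniteDimensional K X] (g0 : D.Δ) (A : ValuationSubring K)
    (hsemi : ∀ (α : K) (v : X), v ∈ Module.End.maxGenEigenspace (R g0.1) α → R g0.1 v = α • v)
    (hval : ∀ (α : K) (v : X), v ≠ 0 → R g0.1 v = α • v →
      α ∈ A ∧ χ g0.1 * α⁻¹ ∈ A ∧ (α⁻¹ ∈ A ∨ (χ g0.1 * α⁻¹)⁻¹ ∈ A))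
    (hqA : χ g0.1 ∈ A) (hq : (χ g0.1)⁻¹ ∉ A) :
    ∃ (n : ℕ) (Fr : Frame D.rE D.cE (Fin n ⊕ Fin n) (Fin s)), Ord Fr g0 A := by
  classical
  obtain ⟨n, e0, lab, α, hlab, hlabs, he0, he1, hgen, hαα⟩ := exists_graded
    (r := fun i => resR R D.Δ (D.W i) (D.st i)) (χ := D.cE) D.om D.om_alt D.om_nondeg D.om_sim id
    (fun _ => rfl) (by
      intro i j hij u v
      rw [om_apply]
      refine Finset.sum_eq_zero fun l _ => ?_
      by_cases hl : l = i
      · subst hl
        have hij' : l ≠ j := fun h => hij h.symm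
        rw [Pi.single_eq_of_ne hij', ZeroMemClass.coe_zero, map_zero]
      · rw [Pi.single_eq_of_ne hl, ZeroMemClass.coe_zero, map_zero, LinearMap.zero_apply]) g0
  have hχ0 : χ g0.1 ≠ 0 := χne (χ := χ) g0.1
  -- eigenvectors
  have hgenX : ∀ x, ((e0 x (lab x) : D.W (lab x)) : X) ∈ Module.End.maxGenEigenspace (R g0.1) (α x) := by
    intro x
    have h1 := hgen x
    rw [Module.End.mem_maxGenEigenspace] at h1 ⊢
    obtain ⟨k, hk⟩ := h1
    refine ⟨k, ?_⟩
    have h2 : ∀ (k : ℕ) (u : D.W (lab x)),
        ((((resR R D.Δ (D.W (lab x)) (D.st (lab x)) g0 -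
          α x • (1 : Module.End K (D.W (lab x)))) ^ k) u : D.W (lab x)) : X) =
        ((R g0.1 - α x • (1 : Module.End K X)) ^ k) (u : X) := by
      intro k
      induction k with
      | zero => intro u; rfl
      | succ k ih =>
        intro u
        rw [pow_succ, pow_succ, Module.End.mul_apply, Module.End.mul_apply, ih]
        rfl
    rw [← h2, hk]
    rfl
  have hv0 : ∀ x, ((e0 x (lab x) : D.W (lab x)) : X) ≠ 0 := by
    intro x h
    have h1 : e0 x (lab x) = 0 := Subtype.ext h
    have h2 := hlab x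
    rw [h1, Pi.single_zero] at h2
    exact e0.ne_zero x h2
  have heig : ∀ x, R g0.1 ((e0 x (lab x) : D.W (lab x)) : X) =
      α x • ((e0 x (lab x) : D.W (lab x)) : X) := fun x => hsemi _ _ (hgenX x)
  have heigE : ∀ x, D.rE g0 (e0 x) = α x • e0 x := by
    intro x
    funext j
    apply Subtype.ext
    rw [rE_apply]
    change _ = α x • ((e0 x j : D.W j) : X)
    by_cases hj : j = lab x
    · subst hj
      exact heig x
    · have h1 : e0 x j = 0 := by
        rw [hlab x, Pi.single_eq_of_ne hj]
      rw [h1, ZeroMemClass.coe_zero, map_zero, smul_zero]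
  have hα0 : ∀ x, α x ≠ 0 := by
    intro x h
    have h1 := hαα x
    rw [h, zero_mul] at h1
    exact hχ0 h1.symm
  have hαs : ∀ x, α x.swap = χ g0.1 * (α x)⁻¹ := by
    intro x
    have h1 : α x * α x.swap = χ g0.1 := hαα x
    rw [← h1, mul_comm (α x), mul_assoc, mul_inv_cancel₀ (hα0 x), mul_one]
  let sg : Fin n ⊕ Fin n → Bool := fun x => decide ((α x)⁻¹ ∈ A)
  have hsgs : ∀ x, sg x.swap = !sg x := by
    intro x
    have h1 := (hval _ _ (hv0 x) (heig x)).2.2
    rw [← hαs] at h1
    simp only [sg]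
    by_cases h2 : (α x)⁻¹ ∈ A
    · have h3 : (α x.swap)⁻¹ ∉ A := by
        intro h3
        apply hq
        have h4 := A.mul_mem _ _ h2 h3
        rwa [← mul_inv, hαα x] at h4
      rw [decide_eq_true h2, decide_eq_false h3]
      rfl
    · rw [decide_eq_false h2, decide_eq_true (h1.resolve_left h2)]
      rfl
  -- the scaled basis
  let c : Fin n ⊕ Fin n → K := fun x => D.om (e0 x) (e0 x.swap)
  have hcs : ∀ x, c x.swap = -c x := by
    intro x
    simp only [c, Sum.swap_swap]
    exact alt_anti D.om_alt _ _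
  have hjj0 : ∀ x, jj K sg x ≠ 0 := by
    intro x
    unfold jj
    split_ifs <;> norm_num
  have hjjs : ∀ x, jj K sg x.swap = -jj K sg x := by
    intro x
    unfold jj
    rw [hsgs]
    cases sg x <;> simp
  let w : Fin n ⊕ Fin n → K := Sum.elim (fun _ => 1) (fun i => jj K sg (Sum.inl i) *
    (c (Sum.inl i))⁻¹)
  have hw0 : ∀ x, w x ≠ 0 := by
    rintro (i | i)
    · exact one_ne_zero
    · exact mul_ne_zero (hjj0 _) (inv_ne_zero (he1 _))
  let e := e0.unitsSMul (fun x => Units.mk0 (w x) (hw0 x))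
  have he : ∀ x, e x = w x • e0 x := fun x => Basis.unitsSMul_apply x
  have hww : ∀ x, w x * w x.swap * c x = jj K sg x := by
    rintro (i | i)
    · change 1 * (jj K sg (Sum.inl i) * (c (Sum.inl i))⁻¹) * c (Sum.inl i) = _
      rw [one_mul, mul_assoc, inv_mul_cancel₀ (he1 _), mul_one]
    · change (jj K sg (Sum.inl i) * (c (Sum.inl i))⁻¹) * 1 * c (Sum.inr i) = _
      have h1 := hcs (Sum.inl i)
      rw [Sum.swap_inl] at h1
      have h2 := hjjs (Sum.inl i)
      rw [Sum.swap_inl] at h2
      rw [h1, h2, mul_one, mul_neg, mul_assoc, inv_mul_cancel₀ (he1 _), mul_one]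
  have hrepr : ∀ (v : D.E) (y : Fin n ⊕ Fin n), v (lab y) = 0 → e.repr v y = 0 := by
    intro v y hvy
    have h1 : D.om (e y.swap) v = 0 := by
      rw [he, map_smul, LinearMap.smul_apply, om_apply, Finset.sum_eq_zero, smul_zero]
      intro i _
      by_cases hi : i = lab y.swap
      · rw [hi, hlabs]
        change D.B _ _ ((v (lab y) : D.W _) : X) = 0
        rw [hvy, ZeroMemClass.coe_zero, map_zero]
      · have h2 : e0 y.swap i = 0 := by
          rw [hlab, Pi.single_eq_of_ne hi]
        rw [h2, ZeroMemClass.coe_zero, map_zero, LinearMap.zero_apply]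
    rw [← e.sum_repr v, map_sum, Finset.sum_eq_single y] at h1
    · rw [map_smul, he, he, map_smul, map_smul, LinearMap.smul_apply, smul_eq_mul, smul_eq_mul,
        smul_eq_mul] at h1
      have h2 : D.om (e0 y.swap) (e0 y) ≠ 0 := by
        have h3 := he1 y.swap
        rwa [Sum.swap_swap] at h3
      rcases mul_eq_zero.1 h1 with h3 | h3
      · exact h3
      · exact absurd h3 (mul_ne_zero (hw0 _) (mul_ne_zero (hw0 _) h2))
    · intro b _ hb
      rw [map_smul, he, he, map_smul, map_smul, LinearMap.smul_apply, he0, smul_zero, smul_zero,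
        smul_zero]
      rw [Sum.swap_swap]
      exact hb
    · intro h
      exact absurd (Finset.mem_univ _) h
  refine ⟨n, { e := e, inv := Sum.swap, cls := lab, sg := sg, ω := D.om
               inv_inv := Sum.swap_swap, cls_inv := fun x => hlabs x, sg_inv := hsgs
               hω := ?_, weil := D.om_sim, block := ?_, schur := ?_ }, ?_⟩
  · intro x y
    rw [he, he, map_smul, map_smul, LinearMap.smul_apply, smul_eq_mul, smul_eq_mul, JJ]
    split_ifs with hxy
    · rw [hxy, ← hww x]
      ring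
    · rw [he0 x y hxy, mul_zero, mul_zero]
  · intro g x y hxy
    refine hrepr _ _ ?_
    apply Subtype.ext
    rw [rE_apply, he]
    have h2 : e0 x (lab y) = 0 := by
      rw [hlab, Pi.single_eq_of_ne hxy]
    change R g.1 (w x • ((e0 x (lab y) : D.W _) : X)) = 0
    rw [h2, ZeroMemClass.coe_zero, smul_zero, map_zero]
  · intro Δ' hΔ' P hP
    obtain ⟨c', hc'⟩ := D.schur Δ' hΔ' P hP
    refine ⟨c', fun x => ?_⟩
    rw [he, map_smul, hlab x, hc', smul_comm]
  · refine ⟨⟨fun x => if sg x = true then α x else (α x.swap)⁻¹, ?_, ?_⟩, hqA, hq⟩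
    · intro x
      have h1 := hval _ _ (hv0 x) (heig x)
      rw [← hαs] at h1
      change (if sg x = true then α x else (α x.swap)⁻¹) ∈ A ∧
        (if sg x = true then α x else (α x.swap)⁻¹)⁻¹ ∈ A ∧
        (if sg x = true then α x else (α x.swap)⁻¹) ≠ 0
      by_cases hx : sg x = true
      · rw [if_pos hx]
        exact ⟨h1.1, of_decide_eq_true hx, hα0 x⟩
      · rw [if_neg hx, inv_inv]
        have h2 : sg x.swap = true := by
          rw [hsgs]
          simpa using hx
        exact ⟨of_decide_eq_true h2, h1.2.1, inv_ne_zero (hα0 _)⟩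
    · intro x
      change D.rE g0 (e x) = ((if sg x = true then 1 else D.cE g0) *
        (if sg x = true then α x else (α x.swap)⁻¹)) • e x
      rw [he, map_smul, heigE, smul_comm]
      congr 1
      by_cases hx : sg x = true
      · rw [if_pos hx, if_pos hx, one_mul]
      · rw [if_neg hx, if_neg hx]
        change _ = χ g0.1 * _
        rw [hαs, mul_inv, inv_inv, ← mul_assoc, mul_inv_cancel₀ hχ0, one_mul]

end Reps

end

end Pool.Agent.Y128.GT
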