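import Pool.Agent.Y128.GT.Slope

/-!
# Stable spaces of forms of small level are in the powers of the ideal
-/

set_option linter.unusedSectionVars false

namespace Pool.Agent.Y128.GT

open Module Polynomial Pool.Agent.H204R3.SP Pool.Agent.H204R3.GP Pool.Agent.W529.Ta
  Pool.Agent.TH131.GHC

noncomputable section

variable {K : Type} [Field K] [CharZero K] {X : Type} [AddCommGroup X] [Module K X]
  {Γ : Type} [Group Γ] {R : Representation K Γ X} {χ : Γ →* K}
  {ι Q : Type} [Fintype ι] [DecidableEq ι] [Fintype Q] [DecidableEq Q]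

/-- The bilinear Tate forms are multiplied by `χ` under the whole group. -/
theorem Frame.tate2_all (Fr : Frame R χ ι Q) {B : X →ₗ[K] X →ₗ[K] K} (hB : IsTate2 R χ B) (s : Γ)
    (u v : X) : B (R s u) (R s v) = χ s * B u v := by
  classical
  obtain ⟨c, hc⟩ := Fr.tate2 hB
  have h1 : B = ∑ q, c q • Fr.om q := by
    refine Fr.e.ext fun x => Fr.e.ext fun y => ?_
    rw [LinearMap.sum_apply, LinearMap.sum_apply, hc, Finset.sum_eq_single (Fr.cls x)]
    · change _ = c (Fr.cls x) * Fr.om (Fr.cls x) (Fr.e x) (Fr.e y)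
      rw [Fr.om_e, JQ, if_pos rfl]
    · intro q _ hq
      change c q * Fr.om q (Fr.e x) (Fr.e y) = 0
      rw [Fr.om_e, JQ, if_neg (Ne.symm hq), mul_zero]
    · intro h
      exact absurd (Finset.mem_univ _) h
  rw [h1]
  simp only [LinearMap.sum_apply, LinearMap.smul_apply, smul_eq_mul, Finset.mul_sum]
  refine Finset.sum_congr rfl fun q _ => ?_
  rw [Frame.om, LinearMap.comp_apply, LinearMap.comp_apply, Fr.pr_comm, Fr.weil]
  ring

variable (R) in
/-- The space of forms is stable under the subgroup. -/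
def St (Δ : Subgroup Γ) {κ : Type} [Fintype κ] [DecidableEq κ]
    (U : Submodule K (MultilinearMap K (fun _ : κ => X) K)) : Prop :=
  ∀ s ∈ Δ, ∀ φ ∈ U, TT (R s) φ ∈ U

variable (R) in
/-- The stable spaces of forms have equivariant projections. -/
def HasProjF (Δ : Subgroup Γ) : Prop := ∀ (κ : Type) [Fintype κ] [DecidableEq κ]
  (U : Submodule K (MultilinearMap K (fun _ : κ => X) K)), St R Δ U →
    ∃ P : Module.End K (MultilinearMap K (fun _ : κ => X) K), (∀ φ, P φ ∈ U) ∧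
      (∀ φ ∈ U, P φ = φ) ∧ ∀ s ∈ Δ, ∀ φ, P (TT (R s) φ) = TT (R s) (P φ)

/-- The forms with all slopes between `j` and `card κ - j`. -/
def LS (Fr : Frame R χ ι Q) (j : ℕ) (κ : Type) [Fintype κ] [DecidableEq κ] :
    Submodule K (MultilinearMap K (fun _ : κ => X) K) where
  carrier := {u | ∀ I : κ → ι, ¬(j ≤ sl Fr I ∧ sl Fr I + j ≤ Fintype.card κ) →
    u (fun k => Fr.e (I k)) = 0}
  zero_mem' := fun _ _ => rfl
  add_mem' := by
    intro a b ha hb I hI
    change a _ + b _ = 0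
    rw [ha I hI, hb I hI, add_zero]
  smul_mem' := by
    intro c a ha I hI
    change c * a _ = 0
    rw [ha I hI, mul_zero]

theorem mem_LS {Fr : Frame R χ ι Q} {j : ℕ} {κ : Type} [Fintype κ] [DecidableEq κ]
    {u : MultilinearMap K (fun _ : κ => X) K} (hu : u ∈ LS Fr j κ) {I : κ → ι}
    (h : u (fun k => Fr.e (I k)) ≠ 0) : j ≤ sl Fr I ∧ sl Fr I + j ≤ Fintype.card κ := by
  by_contra hcon
  exact h (hu I hcon)

/-- The largest stable space of forms of small level. -/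
def VL (Fr : Frame R χ ι Q) (Δ : Subgroup Γ) (j : ℕ) (κ : Type) [Fintype κ] [DecidableEq κ] :
    Submodule K (MultilinearMap K (fun _ : κ => X) K) := sSup {U | St R Δ U ∧ U ≤ LS Fr j κ}

theorem St_VL (Fr : Frame R χ ι Q) (Δ : Subgroup Γ) (j : ℕ) (κ : Type) [Fintype κ]
    [DecidableEq κ] : St R Δ (VL Fr Δ j κ) := by
  intro s hs φ hφ
  have h : VL Fr Δ j κ ≤ (VL Fr Δ j κ).comap (TT (R s)) := by
    refine sSup_le ?_
    rintro U ⟨hU, hU'⟩ u hu
    have h1 : U ≤ VL Fr Δ j κ := le_sSup ⟨hU, hU'⟩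
    exact h1 (hU s hs u hu)
  exact h hφ

theorem VL_LS (Fr : Frame R χ ι Q) (Δ : Subgroup Γ) (j : ℕ) (κ : Type) [Fintype κ]
    [DecidableEq κ] : VL Fr Δ j κ ≤ LS Fr j κ := sSup_le fun _ hU => hU.2

theorem le_VL {Fr : Frame R χ ι Q} {Δ : Subgroup Γ} {j : ℕ} {κ : Type} [Fintype κ]
    [DecidableEq κ] {U : Submodule K (MultilinearMap K (fun _ : κ => X) K)} (h : St R Δ U)
    (h' : U ≤ LS Fr j κ) : U ≤ VL Fr Δ j κ := le_sSup ⟨h, h'⟩

variable (Fr : Frame R χ ι Q)

/-- Stable spaces of positive coniveau consist of products. -/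
theorem le_one (hPT : ∀ (m : ℕ) (φ : MultilinearMap K (fun _ : Fin m × Fin 2 => X) K),
      IsTate R χ m φ → φ ∈ Submodule.span K (PT R χ m))
    {Δ : Subgroup Γ} (hΔ : Δ.FiniteIndex) (hproj : HasProjF R Δ) {j : ℕ} {κ : Type} [Fintype κ]
    [DecidableEq κ] {U : Submodule K (MultilinearMap K (fun _ : κ => X) K)} (hU : St R Δ U)
    (hU' : U ≤ LS Fr (j + 1) κ) : U ≤ IJ R χ 1 κ := by
  classical
  obtain ⟨P, hP1, hP2, hP3⟩ := hproj κ U hU
  let f := Fintype.equivFin κ
  let L : MultilinearMap K (fun _ : κ => X) K →ₗ[K]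
      MultilinearMap K (fun _ : Fin (Fintype.card κ) => X) K :=
    { toFun := fun φ => φ.domDomCongr f
      map_add' := fun _ _ => rfl
      map_smul' := fun _ _ => rfl }
  let L' : MultilinearMap K (fun _ : Fin (Fintype.card κ) => X) K →ₗ[K]
      MultilinearMap K (fun _ : κ => X) K :=
    { toFun := fun φ => φ.domDomCongr f.symm
      map_add' := fun _ _ => rfl
      map_smul' := fun _ _ => rfl }
  have hL : ∀ φ, L' (L φ) = φ := by
    intro φ
    ext v
    change φ (fun i => v (f.symm (f i))) = φ v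
    congr 1
    funext i
    rw [Equiv.symm_apply_apply]
  intro u hu
  have h1 : L (P (L' (L u))) ∈ IJ R χ 1 (Fin (Fintype.card κ)) := by
    refine Fr.base (hPT _) Δ hΔ (L.comp (P.comp L')) (fun s hs φ => ?_) (fun φ c hc => ?_) (L u)
    · change L (P (L' (TT (R s) φ))) = TT (R s) (L (P (L' φ)))
      have h2 : L' (TT (R s) φ) = TT (R s) (L' φ) := rfl
      have h3 : TT (R s) (L (P (L' φ))) = L (TT (R s) (P (L' φ))) := rfl
      rw [h2, hP3 s hs, h3]
    · change P (L' φ) (fun i => Fr.e (c (f i))) = 0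
      refine hU' (hP1 _) (fun i => c (f i)) ?_
      rintro ⟨h2, -⟩
      have h3 : sl Fr (fun i => c (f i)) = 0 := by
        rw [sl, Finset.card_eq_zero, Finset.filter_eq_empty_iff]
        intro k _
        rw [hc (f k)]
        decide
      omega
  rw [hL, hP2 u hu] at h1
  exact reindex_one R χ f h1

theorem card_sub {κ : Type} [Fintype κ] [DecidableEq κ] {a b : κ} (hab : a ≠ b) :
    Fintype.card {l // l ≠ a ∧ l ≠ b} + 2 = Fintype.card κ := by
  have h3 : Fintype.card {l // l ≠ a ∧ l ≠ b} = ((Finset.univ.erase a).erase b).card := by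
    rw [Fintype.card_subtype]
    congr 1
    ext l
    simp [and_comm]
  have h4 : 0 < Fintype.card κ := Fintype.card_pos_iff.2 ⟨a⟩
  have h5 : 1 < Fintype.card κ := Fintype.one_lt_card_iff.2 ⟨a, b, hab⟩
  rw [h3, Finset.card_erase_of_mem (by simp [hab.symm]), Finset.card_erase_of_mem
    (Finset.mem_univ _), Finset.card_univ]
  omega

/-- **Stable spaces of forms of small level** are in the powers of the ideal. -/
theorem le_IJ (hPT : ∀ (m : ℕ) (φ : MultilinearMap K (fun _ : Fin m × Fin 2 => X) K),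
      IsTate R χ m φ → φ ∈ Submodule.span K (PT R χ m))
    {Δ : Subgroup Γ} (hΔ : Δ.FiniteIndex) (hproj : HasProjF R Δ) {γ : Γ} {A : ValuationSubring K}
    (hγ : Ord Fr γ A) (hγΔ : γ ∈ Δ) (j : ℕ) : ∀ (κ : Type) [Fintype κ] [DecidableEq κ]
    (U : Submodule K (MultilinearMap K (fun _ : κ => X) K)), St R Δ U → U ≤ LS Fr j κ →
      U ≤ IJ R χ j κ := by
  classical
  induction j with
  | zero => intro κ _ _ U _ _ u _; exact Submodule.mem_top
  | succ j ih =>
    intro κ _ _ U hU hU'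
    set M : Submodule K (MultilinearMap K (fun _ : κ => X) K) :=
      ⨆ (a : κ) (b : κ) (hab : a ≠ b) (B : X →ₗ[K] X →ₗ[K] K) (_ : IsTate2 R χ B),
        (VL Fr Δ j {l : κ // l ≠ a ∧ l ≠ b}).map (mulB hab B) with hM
    have hMle : M ≤ IJ R χ (j + 1) κ := by
      refine iSup_le fun a => iSup_le fun b => iSup_le fun hab => iSup_le fun B => iSup_le
        fun hB => ?_
      rintro _ ⟨c, hc, rfl⟩
      exact mulB_mem R χ hab hB (ih _ _ (St_VL Fr Δ j _) (VL_LS Fr Δ j _) hc)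
    have hmem : ∀ {a b : κ} (hab : a ≠ b) {B : X →ₗ[K] X →ₗ[K] K} (_ : IsTate2 R χ B),
        ∀ c ∈ VL Fr Δ j {l : κ // l ≠ a ∧ l ≠ b}, mulB hab B c ∈ M := by
      intro a b hab B hB c hc
      exact (le_iSup_of_le a (le_iSup_of_le b (le_iSup_of_le hab (le_iSup_of_le B
        (le_iSup_of_le hB le_rfl)))) : (VL Fr Δ j {l : κ // l ≠ a ∧ l ≠ b}).map (mulB hab B) ≤ M)
        (Submodule.mem_map_of_mem hc)
    have hχ : ∀ s : Γ, χ s ≠ 0 := by
      intro s h
      have h1 : χ (s * s⁻¹) = 1 := by rw [mul_inv_cancel, map_one]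
      rw [map_mul, h, zero_mul] at h1
      exact zero_ne_one h1
    have hTTm : ∀ {a b : κ} (hab : a ≠ b) {B : X →ₗ[K] X →ₗ[K] K} (_ : IsTate2 R χ B) (s : Γ)
        (c : MultilinearMap K (fun _ : {l : κ // l ≠ a ∧ l ≠ b} => X) K),
        TT (R s) (mulB hab B c) = χ s • mulB hab B (TT (R s) c) :=
      fun hab B hB s c => TT_mulB hab (fun u v => Fr.tate2_all hB s u v) c
    have hMSt : St R Δ M := by
      intro s hs φ hφ
      have h : M ≤ M.comap (TT (R s)) := by
        refine iSup_le fun a => iSup_le fun b => iSup_le fun hab => iSup_le fun B => iSup_le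
          fun hB => ?_
        rintro _ ⟨c, hc, rfl⟩
        rw [Submodule.mem_comap, hTTm hab hB]
        exact M.smul_mem _ (hmem hab hB _ (St_VL Fr Δ j _ s hs c hc))
      exact h hφ
    obtain ⟨PM, hPM1, hPM2, hPM3⟩ := hproj κ M hMSt
    suffices hkey : VL Fr Δ (j + 1) κ ≤ M from (le_VL hU hU').trans (hkey.trans hMle)
    by_contra hcon
    set C1 : Module.End K (MultilinearMap K (fun _ : κ => X) K) := 1 - PM with hC1
    have hC1s : ∀ s ∈ Δ, ∀ φ, C1 (TT (R s) φ) = TT (R s) (C1 φ) := by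
      intro s hs φ
      rw [hC1, LinearMap.sub_apply, LinearMap.sub_apply, map_sub, hPM3 s hs]
      rfl
    have hC1M : ∀ φ ∈ M, C1 φ = 0 := by
      intro φ hφ
      rw [hC1, LinearMap.sub_apply, hPM2 φ hφ]
      exact sub_self φ
    set VC := (VL Fr Δ (j + 1) κ).map C1 with hVC
    have hVCSt : St R Δ VC := by
      rintro s hs _ ⟨v, hv, rfl⟩
      rw [← hC1s s hs]
      exact Submodule.mem_map_of_mem (St_VL Fr Δ (j + 1) κ s hs v hv)
    obtain ⟨Λ, hΛ1, hΛ2⟩ := hγ.exists_lam κ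
    have hVCLS : VC ≤ LS Fr (j + 1) κ := by
      rintro _ ⟨v, hv, rfl⟩ I hI
      by_contra hne
      obtain ⟨J, hJ1, hJ2⟩ := supp_transfer Fr.e (c := 1) hΛ1 hΛ1 C1 (fun φ => by
        rw [one_smul, hC1s γ hγΔ]) v I hne
      have h1 := mem_LS (VL_LS Fr Δ (j + 1) κ hv) hJ1
      obtain ⟨u, hu1, hu2, hu3, hu⟩ := hΛ2 I
      obtain ⟨w, hw1, hw2, hw3, hw⟩ := hΛ2 J
      rw [hu, hw, one_mul] at hJ2
      have h2 := hγ.slope_eq ⟨hw1, hw2, hw3⟩ ⟨hu1, hu2, hu3⟩ hJ2
      rw [h2] at h1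
      exact hI h1
    obtain ⟨Qp, hQ1, hQ2, hQ3⟩ := hproj κ VC hVCSt
    obtain ⟨v, hv, hvM⟩ := SetLike.not_le_iff_exists.1 hcon
    have hv0 : C1 v ≠ 0 := by
      intro h
      apply hvM
      rw [hC1, LinearMap.sub_apply, sub_eq_zero] at h
      have h' : v = PM v := h
      rw [h']
      exact hPM1 v
    have hV1 := le_one Fr hPT hΔ hproj (St_VL Fr Δ (j + 1) κ) (VL_LS Fr Δ (j + 1) κ)
    obtain ⟨a, b, hab, B, hB, c, hc⟩ : ∃ (a b : κ) (hab : a ≠ b) (B : X →ₗ[K] X →ₗ[K] K)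
        (_ : IsTate2 R χ B) (c : MultilinearMap K (fun _ : {l : κ // l ≠ a ∧ l ≠ b} => X) K),
        Qp (C1 (mulB hab B c)) ≠ 0 := by
      by_contra hno
      push Not at hno
      have h1 : ∀ w ∈ IJ R χ 1 κ, Qp (C1 w) = 0 := by
        intro w hw
        change w ∈ Submodule.span K _ at hw
        induction hw using Submodule.span_induction with
        | mem F hF =>
          obtain ⟨a, b, hab, B, c', hB, -, rfl⟩ := hF
          exact hno a b hab B hB c'
        | zero => rw [map_zero, map_zero]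
        | add a b _ _ ha hb => rw [map_add, map_add, ha, hb, add_zero]
        | smul r a _ ha => rw [map_smul, map_smul, ha, smul_zero]
      apply hv0
      rw [← hQ2 (C1 v) (Submodule.mem_map_of_mem hv)]
      exact h1 v (hV1 hv)
    let f : MultilinearMap K (fun _ : {l : κ // l ≠ a ∧ l ≠ b} => X) K →ₗ[K]
        MultilinearMap K (fun _ : κ => X) K := Qp.comp (C1.comp (mulB hab B))
    have hf : ∀ c, f c = Qp (C1 (mulB hab B c)) := fun _ => rfl
    have hfs : ∀ s ∈ Δ, ∀ c, f (TT (R s) c) = (χ s)⁻¹ • TT (R s) (f c) := by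
      intro s hs c
      have h1 : mulB hab B (TT (R s) c) = (χ s)⁻¹ • TT (R s) (mulB hab B c) := by
        rw [hTTm hab hB, smul_smul, inv_mul_cancel₀ (hχ s), one_smul]
      rw [hf, h1, map_smul, map_smul, hC1s s hs, hQ3 s hs, hf]
    have hfVC : ∀ c, f c ∈ VC := fun c => hQ1 _
    have hker : St R Δ (LinearMap.ker f) := by
      intro s hs c hc
      rw [LinearMap.mem_ker] at hc ⊢
      rw [hfs s hs, hc, map_zero, smul_zero]
    obtain ⟨Pk, hPk1, hPk2, hPk3⟩ := hproj _ _ hker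
    have hCSt : St R Δ (LinearMap.ker Pk) := by
      intro s hs c hc
      rw [LinearMap.mem_ker] at hc ⊢
      rw [hPk3 s hs, hc, map_zero]
    have hinj : ∀ c ∈ LinearMap.ker Pk, f c = 0 → c = 0 := by
      intro c hc h0
      rw [← hPk2 c h0]
      exact hc
    have hCLS : LinearMap.ker Pk ≤ LS Fr j {l : κ // l ≠ a ∧ l ≠ b} := by
      intro c hc I hI
      by_contra hne
      obtain ⟨Λ', hΛ'1, hΛ'2⟩ := hγ.exists_lam {l : κ // l ≠ a ∧ l ≠ b}
      obtain ⟨w, hw, hw1, hw2⟩ := exists_comp Fr.e hΛ'1 (fun u hu => hCSt γ hγΔ u hu) hc (Λ' I)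
      have hw0 : w ≠ 0 := by
        rintro rfl
        apply hne
        rw [← hw1 I rfl]
        rfl
      have hfw : f w ≠ 0 := fun h => hw0 (hinj w hw h)
      obtain ⟨I1, hI1⟩ : ∃ I1 : κ → ι, f w (fun k => Fr.e (I1 k)) ≠ 0 := by
        by_contra hno
        push Not at hno
        exact hfw (Basis.ext_multilinear (fun _ => Fr.e) fun I => hno I)
      obtain ⟨J, hJ1, hJ2⟩ := supp_transfer Fr.e (c := (χ γ)⁻¹) hΛ'1 hΛ1 f (fun φ =>
        hfs γ hγΔ φ) w I1 hI1
      have hJ3 : Λ' J = Λ' I := by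
        by_contra h
        exact hJ1 (hw2 J h)
      have h1 := mem_LS (hVCLS (hfVC w)) hI1
      obtain ⟨u1, hu1, hu2, hu3, hu⟩ := hΛ2 I1
      obtain ⟨u2, hv1, hv2, hv3, hv⟩ := hΛ'2 I
      rw [hJ3, hu, hv] at hJ2
      have h2 : χ γ ^ (sl Fr I + 1) * u2 = χ γ ^ sl Fr I1 * u1 := by
        rw [pow_succ, mul_comm _ (χ γ), mul_assoc, hJ2, ← mul_assoc, mul_inv_cancel₀ (hχ γ),
          one_mul]
      have h3 := hγ.slope_eq ⟨hv1, hv2, hv3⟩ ⟨hu1, hu2, hu3⟩ h2
      have h4 := card_sub hab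
      apply hI
      omega
    have hC0 : ∀ c ∈ LinearMap.ker Pk, c = 0 := by
      intro c hc
      refine hinj c hc ?_
      rw [hf, hC1M _ (hmem hab hB c (le_VL hCSt hCLS hc)), map_zero]
    apply hc
    have h1 : c - Pk c ∈ LinearMap.ker Pk := by
      rw [LinearMap.mem_ker, map_sub, hPk2 _ (hPk1 c), sub_self]
    have h2 := hC0 _ h1
    rw [sub_eq_zero] at h2
    rw [← hf, h2]
    exact hPk1 c

end

end Pool.Agent.Y128.GT
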