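import Pool.Agent.Y128.GT.Alt
import Pool.Agent.W522.U.C9
import Pool.Agent.W529.Ta.Main

/-!
# Pull back and descent of products
-/

set_option linter.unusedSectionVars false

namespace Pool.Agent.Y128.GT

open Module TensorProduct Pool.Agent.H204R3.CM Pool.Agent.H204R3.SP Pool.Agent.H204R3.GP
  Pool.Agent.W529.Ta Pool.Agent.W522.U

noncomputable section

section pull

variable {K : Type} [Field K] {X X' : Type} [AddCommGroup X] [Module K X] [AddCommGroup X']
  [Module K X'] {Γ Γ' : Type} [Group Γ] [Group Γ'] (R : Representation K Γ X) (χ : Γ →* K)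
  (R' : Representation K Γ' X') (χ' : Γ' →* K)

/-- Pull back of products. -/
theorem IJ_comp (j : ℕ) : ∀ (κ : Type) [Fintype κ] [DecidableEq κ] (q : κ → X →ₗ[K] X'),
    (∀ a b (B : X' →ₗ[K] X' →ₗ[K] K), IsTate2 R' χ' B → IsTate2 R χ (B.compl₁₂ (q a) (q b))) →
    ∀ φ ∈ IJ R' χ' j κ, φ.compLinearMap q ∈ IJ R χ j κ := by
  induction j with
  | zero => intro κ _ _ q _ φ _; exact Submodule.mem_top
  | succ j ih =>
    intro κ _ _ q hq φ hφ
    change φ ∈ Submodule.span K _ at hφ
    induction hφ using Submodule.span_induction with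
    | zero =>
      have h : (0 : MultilinearMap K (fun _ : κ => X') K).compLinearMap q = 0 := rfl
      rw [h]
      exact Submodule.zero_mem _
    | add x y _ _ hx hy =>
      have h : (x + y).compLinearMap q = x.compLinearMap q + y.compLinearMap q := rfl
      rw [h]
      exact Submodule.add_mem _ hx hy
    | smul r x _ hx =>
      have h : (r • x).compLinearMap q = r • x.compLinearMap q := rfl
      rw [h]
      exact Submodule.smul_mem _ _ hx
    | mem F hF =>
      obtain ⟨a, b, hab, B, c, hB, hc, rfl⟩ := hF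
      have h : (mulB hab B c).compLinearMap q = mulB hab (B.compl₁₂ (q a) (q b))
          (c.compLinearMap (fun l => q l.1)) := rfl
      rw [h]
      exact mulB_mem R χ hab (hq a b B hB) (ih _ _ (fun a b B hB => hq _ _ B hB) c hc)

/-- A form is a combination of products if its components in a decomposition are. -/
theorem IJ_decomp {J : Type} [Fintype J] (s : J → X' →ₗ[K] X) (p : J → X →ₗ[K] X')
    (h1 : ∀ x, ∑ a, s a (p a x) = x)
    (hp : ∀ a b (B : X' →ₗ[K] X' →ₗ[K] K), IsTate2 R' χ' B →
      IsTate2 R χ (B.compl₁₂ (p a) (p b))) {j : ℕ} {κ : Type} [Fintype κ] [DecidableEq κ]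
    (φ : MultilinearMap K (fun _ : κ => X) K)
    (h : ∀ w : κ → J, φ.compLinearMap (fun l => s (w l)) ∈ IJ R' χ' j κ) : φ ∈ IJ R χ j κ := by
  classical
  have h2 : φ = ∑ w : κ → J, (φ.compLinearMap (fun l => s (w l))).compLinearMap
      (fun l => p (w l)) := by
    ext v
    rw [sum_apply]
    conv_lhs => rw [← funext fun l => h1 (v l)]
    rw [MultilinearMap.map_sum]
    rfl
  rw [h2]
  exact Submodule.sum_mem _ fun w _ => IJ_comp R χ R' χ' j κ _ (fun a b B hB => hp _ _ B hB) _ (h w)

end pull

section desc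

variable {k Ω : Type} [Field k] [CharZero k] [Field Ω] [CharZero Ω] [Algebra k Ω]
  {V : Type} [AddCommGroup V] [Module k V] {ν : Type} [Fintype ν] [DecidableEq ν]
  (b : Basis ν k V) {Γ : Type} [Group Γ] (ρ : Representation k Γ V) (χ : Γ →* k)

include b in
/-- A bilinear form is a finite combination of its components. -/
theorem exists_comps (w : Basis (Basis.ofVectorSpaceIndex k Ω) k Ω)
    (B : (Ω ⊗[k] V) →ₗ[Ω] (Ω ⊗[k] V) →ₗ[Ω] Ω) :
    ∃ F : Finset (Basis.ofVectorSpaceIndex k Ω), ∀ u v : V,
      B ((1 : Ω) ⊗ₜ[k] u) ((1 : Ω) ⊗ₜ[k] v) = ∑ i ∈ F, compG w B i u v • w i := by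
  classical
  let F : Finset (Basis.ofVectorSpaceIndex k Ω) :=
    Finset.univ.biUnion (fun i : ν => Finset.univ.biUnion (fun i' : ν =>
      (w.repr (B ((1 : Ω) ⊗ₜ[k] b i) ((1 : Ω) ⊗ₜ[k] b i'))).support))
  refine ⟨F, fun u v => ?_⟩
  have h7 : (w.repr (B ((1 : Ω) ⊗ₜ[k] u) ((1 : Ω) ⊗ₜ[k] v))).support ⊆ F := by
    intro i hi
    by_contra hiF
    rw [Finsupp.mem_support_iff] at hi
    apply hi
    have h8 : compG w B i = 0 := by
      refine b.ext fun a => b.ext fun a' => ?_
      rw [compG_apply, LinearMap.zero_apply, LinearMap.zero_apply]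
      by_contra h9
      apply hiF
      simp only [F, Finset.mem_biUnion, Finset.mem_univ, true_and]
      exact ⟨a, a', Finsupp.mem_support_iff.2 h9⟩
    rw [← compG_apply, h8]
    rfl
  conv_lhs => rw [← w.linearCombination_repr (B ((1 : Ω) ⊗ₜ[k] u) ((1 : Ω) ⊗ₜ[k] v)),
    Finsupp.linearCombination_apply, Finsupp.sum_of_support_subset _ h7 (fun i a => a • w i)
      (fun i _ => zero_smul _ _)]
  rfl

include b in
/-- **Descent of products.** -/
theorem IJ_desc (j : ℕ) : ∀ (κ : Type) [Fintype κ] [DecidableEq κ]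
    (φ : MultilinearMap Ω (fun _ : κ => Ω ⊗[k] V) Ω), φ ∈ IJ (bcr ρ Ω) (bcc χ Ω) j κ →
      ∀ π : Ω →ₗ[k] k, desc π φ ∈ IJ ρ χ j κ := by
  classical
  induction j with
  | zero => intro κ _ _ φ _ π; exact Submodule.mem_top
  | succ j ih =>
    intro κ _ _ φ hφ
    change φ ∈ Submodule.span Ω _ at hφ
    induction hφ using Submodule.span_induction with
    | zero =>
      intro π
      rw [map_zero]
      exact Submodule.zero_mem _
    | add x y _ _ hx hy =>
      intro π
      rw [map_add]
      exact Submodule.add_mem _ (hx π) (hy π)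
    | smul r x _ hx =>
      intro π
      exact hx (π.comp (LinearMap.mulLeft k r))
    | mem F hF =>
      intro π
      obtain ⟨a, b', hab, B, c, hB, hc, rfl⟩ := hF
      let w := Basis.ofVectorSpace k Ω
      obtain ⟨F, hF⟩ := exists_comps b w B
      have h : desc π (mulB hab B c) = ∑ i ∈ F, mulB hab (compG w B i)
          (desc (π.comp (LinearMap.mulLeft k (w i))) c) := by
        ext v
        rw [desc_apply, mulB_apply, sum_apply, hF, Finset.sum_mul, map_sum]
        refine Finset.sum_congr rfl fun i _ => ?_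
        rw [mulB_apply, desc_apply, smul_mul_assoc, map_smul, smul_eq_mul]
        rfl
      rw [h]
      exact Submodule.sum_mem _ fun i _ => mulB_mem ρ χ hab (compG_tate ρ χ w hB i) (ih _ c hc _)

end desc

end

end Pool.Agent.Y128.GT
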