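import Pool.Agent.Y128.GT.LieB
import Pool.Agent.Y128.GT.FrameOf
import Pool.Agent.Y128.GT.Eig
import Pool.Agent.Y128.GT.Pull
import Pool.Agent.Y128.GT.Ind

/-!
# The theorem over an algebraically closed field
-/

set_option linter.unusedSectionVars false

namespace Pool.Agent.Y128.GT

open Module TensorProduct Polynomial Pool.Agent.H204R3.SP Pool.Agent.H204R3.GP
  Pool.Agent.W529.Ta Pool.Agent.W522.U

noncomputable section

variable {K : Type} [Field K] [CharZero K] {V : Type} [AddCommGroup V] [Module K V]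
  {Γ : Type} [Group Γ] {R : Representation K Γ V} {χ : Γ →* K} {s : ℕ}

/-- The Tate forms on the sum of the representatives. -/
theorem Reps.tate_gen [FiniteDimensional K V] (hss : HasProj R) (D : Reps R χ s) (m : ℕ)
    (hPT : ∀ φ : MultilinearMap K (fun _ : Fin m × Fin 2 => V) K,
      IsTate R χ m φ → φ ∈ Submodule.span K (PT R χ m))
    (φ : MultilinearMap K (fun _ : Fin m × Fin 2 => D.E) K) (hφ : IsTate D.rE D.cE m φ) :
    φ ∈ Submodule.span K (PT D.rE D.cE m) := by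
  classical
  choose P hP1 hP2 hP3 using fun j => hss D.Δ D.fi (D.W j) (D.st j)
  have hP0 : ∀ i j, i ≠ j → ∀ u ∈ D.W i, P j u = 0 := by
    intro i j hij u hu
    by_contra hne
    exact hij (D.iso i j ⟨D.Δ, D.fi, P j, fun u _ => hP1 j u, ⟨u, hu, hne⟩, fun g hg u _ => by
      rw [one_smul]
      exact hP3 j g hg u⟩)
  let σ : D.E →ₗ[K] V := ∑ i, (D.W i).subtype.comp (LinearMap.proj i)
  let π : V →ₗ[K] D.E := LinearMap.pi fun j => (P j).codRestrict (D.W j) (hP1 j)
  have hσ : ∀ u : D.E, σ u = ∑ i, (u i : V) := by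
    intro u
    change (∑ i, (D.W i).subtype.comp (LinearMap.proj i)) u = _
    rw [LinearMap.sum_apply]
    rfl
  have hπσ : ∀ u : D.E, π (σ u) = u := by
    intro u
    funext j
    apply Subtype.ext
    change P j (σ u) = (u j : V)
    rw [hσ, map_sum, Finset.sum_eq_single j]
    · exact hP2 j _ (u j).2
    · intro i _ hi
      exact hP0 i j hi _ (u i).2
    · intro h
      exact absurd (Finset.mem_univ _) h
  have hσR : ∀ (g : D.Δ) (u : D.E), σ (D.rE g u) = R g.1 (σ u) := by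
    intro g u
    rw [hσ, hσ, map_sum]
    rfl
  have hπR : ∀ (g : D.Δ) (x : V), π (R g.1 x) = D.rE g (π x) := by
    intro g x
    funext j
    apply Subtype.ext
    change P j (R g.1 x) = R g.1 (P j x)
    exact hP3 j g.1 g.2 x
  have h1 : IsTate R χ m (φ.compLinearMap (fun _ => π)) := by
    obtain ⟨Δ', hΔ', h⟩ := hφ
    refine ⟨Δ'.map D.Δ.subtype, fi_map D.fi Δ' hΔ', ?_⟩
    rintro _ ⟨g, hg, rfl⟩ v
    change φ (fun k => π (R g.1 (v k))) = χ g.1 ^ m * φ (fun k => π (v k))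
    simp only [hπR]
    exact h g hg _
  have h2 := hPT _ h1
  have h3 : (Submodule.span K (PT R χ m)).map
      (MultilinearMap.compLinearMapₗ (fun _ : Fin m × Fin 2 => σ)) ≤
        Submodule.span K (PT D.rE D.cE m) := by
    rw [Submodule.map_span, Submodule.span_le]
    rintro _ ⟨_, ⟨τ, B, hB, rfl⟩, rfl⟩
    refine Submodule.subset_span ⟨τ, fun l => (B l).compl₁₂ σ σ, fun l => ?_, ?_⟩
    · obtain ⟨ΔB, hΔB, hB'⟩ := hB l
      refine ⟨ΔB.subgroupOf D.Δ, inferInstance, fun g hg u v => ?_⟩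
      rw [Subgroup.mem_subgroupOf] at hg
      change B l (σ (D.rE g u)) (σ (D.rE g v)) = χ g.1 * B l (σ u) (σ v)
      rw [hσR, hσR]
      exact hB' g.1 hg _ _
    · rfl
  have h4 : φ = MultilinearMap.compLinearMapₗ (fun _ : Fin m × Fin 2 => σ)
      (φ.compLinearMap (fun _ => π)) := by
    refine MultilinearMap.ext fun v => ?_
    change φ v = φ (fun k => π (σ (v k)))
    simp only [hπσ]
  rw [h4]
  exact h3 (Submodule.mem_map_of_mem h2)

/-- The decomposition of the identity. -/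
theorem Reps.decomp [FiniteDimensional K V] (hss : HasProj R) (D : Reps R χ s) :
    ∃ (n : ℕ) (s' : Fin n → D.E →ₗ[K] V) (p' : Fin n → V →ₗ[K] D.E) (Δ : Subgroup Γ),
      Δ.FiniteIndex ∧ (∀ x, ∑ a, s' a (p' a x) = x) ∧
      (∀ (g : D.Δ), g.1 ∈ Δ → ∀ a u, s' a (D.rE g u) = R g.1 (s' a u)) ∧
      (∀ (g : D.Δ), g.1 ∈ Δ → ∀ a x, p' a (R g.1 x) = D.rE g (p' a x)) := by
  classical
  obtain ⟨n, f, T, hfT⟩ := Submodule.mem_span_set'.1 (Pool.Agent.W522.U.decomp hss D.W D.si D.all)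
  choose i p ι Dl hD hp hι hT using fun l => (T l).2
  refine ⟨n, fun l => f l • (ι l).comp (LinearMap.proj (i l)),
    fun l => (LinearMap.single K (fun i => D.W i) (i l)).comp (p l), ⨅ l, Dl l,
    Subgroup.finiteIndex_iInf hD, fun x => ?_, fun g hg a u => ?_, fun g hg a x => ?_⟩
  · have h2 := congrArg (fun F : Module.End K V => F x) hfT
    simp only [LinearMap.sum_apply, LinearMap.smul_apply, Module.End.one_apply] at h2
    conv_rhs => rw [← h2]
    refine Finset.sum_congr rfl fun l _ => ?_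
    change f l • ι l ((Pi.single (i l) (p l x) : ∀ i, D.W i) (i l)) = f l • (T l).1 x
    rw [Pi.single_eq_same, hT]
    rfl
  · change f a • ι a (D.rE g u (i a)) = R g.1 (f a • ι a (u (i a)))
    rw [map_smul]
    congr 1
    exact hι a g.1 (Subgroup.mem_iInf.1 hg _) _ _ rfl
  · change (Pi.single (i a) (p a (R g.1 x)) : ∀ i, D.W i) =
      D.rE g (Pi.single (i a) (p a x))
    rw [D.rE_single]
    congr 1
    exact Subtype.ext (hp a g.1 (Subgroup.mem_iInf.1 hg _) x)

/-- Powers of operators. -/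
theorem pow_kill {W : Type} [AddCommGroup W] [Module K W] (T : Module.End K W) (S : Multiset K)
    (N : ℕ) (w : W) (h : aeval T (S.map fun β => (X - C β : K[X])).prod w = 0) :
    aeval (T ^ N) (S.map fun β => (X - C (β ^ N) : K[X])).prod w = 0 := by
  have h1 : (S.map fun β => (X - C β : K[X])).prod ∣
      (S.map fun β => (X - C (β ^ N) : K[X])).prod.comp (X ^ N) := by
    rw [Polynomial.multiset_prod_comp, Multiset.map_map]
    refine Multiset.prod_dvd_prod_of_dvd _ _ fun β _ => ?_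
    rw [Function.comp_apply, Polynomial.sub_comp, Polynomial.X_comp, Polynomial.C_comp,
      Polynomial.C_pow]
    exact sub_dvd_pow_sub_pow _ _ _
  have h2 : aeval (T ^ N) (S.map fun β => (X - C (β ^ N) : K[X])).prod =
      aeval T ((S.map fun β => (X - C (β ^ N) : K[X])).prod.comp (X ^ N)) := by
    rw [Polynomial.aeval_comp, map_pow, Polynomial.aeval_X]
  obtain ⟨Q, hQ⟩ := h1
  rw [h2, hQ, mul_comm, map_mul, Module.End.mul_apply, h, map_zero]

theorem TT_pow (T : Module.End K V) {κ : Type} [Fintype κ] [DecidableEq κ] (N : ℕ) :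
    TT (κ := κ) (T ^ N) = (TT T) ^ N := by
  induction N with
  | zero =>
    rw [pow_zero, pow_zero]
    ext φ v
    rfl
  | succ N ih =>
    rw [pow_succ' T, pow_succ, ← ih]
    ext φ v
    rw [Module.End.mul_apply, TT_apply, TT_apply, TT_apply]
    rfl

/-- Intertwining. -/
theorem aeval_inter {W W' : Type} [AddCommGroup W] [Module K W] [AddCommGroup W'] [Module K W']
    (T : Module.End K W) (T' : Module.End K W') (L : W →ₗ[K] W') (h : ∀ w, L (T w) = T' (L w))
    (P : K[X]) (w : W) : L (aeval T P w) = aeval T' P (L w) := by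
  induction P using Polynomial.induction_on' with
  | add p q hp hq => rw [map_add, map_add, LinearMap.add_apply, LinearMap.add_apply, map_add, hp, hq]
  | monomial n a =>
    rw [Polynomial.aeval_monomial, Polynomial.aeval_monomial, Module.End.mul_apply,
      Module.End.mul_apply, Module.algebraMap_end_apply, Module.algebraMap_end_apply, map_smul]
    congr 1
    induction n with
    | zero => rw [pow_zero, pow_zero]; rfl
    | succ n ih => rw [pow_succ', pow_succ', Module.End.mul_apply, Module.End.mul_apply, h, ih]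

theorem val_le (A : ValuationSubring K) {Q u : K} (hQ : Q ∈ A) (hQ' : Q⁻¹ ∉ A) (hu : u⁻¹ ∈ A)
    (hu0 : u ≠ 0) {j t : ℕ} (h : (Q ^ j)⁻¹ * (Q ^ t * u) ∈ A) : j ≤ t := by
  have hQ0 : Q ≠ 0 := by
    rintro rfl
    apply hQ'
    rw [inv_zero]
    exact A.zero_mem
  by_contra hcon
  push Not at hcon
  obtain ⟨d, rfl⟩ := Nat.exists_eq_add_of_lt hcon
  apply hQ'
  have h1 : Q⁻¹ = ((Q ^ (t + d + 1))⁻¹ * (Q ^ t * u)) * u⁻¹ * Q ^ d := by
    field_simp
    ring
  rw [h1]
  exact A.mul_mem _ _ (A.mul_mem _ _ h hu) (A.pow_mem hQ d)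

theorem val_le' (A : ValuationSubring K) {Q u : K} (hQ : Q ∈ A) (hQ' : Q⁻¹ ∉ A) (hu : u ∈ A)
    (hu0 : u ≠ 0) {c j t : ℕ} (h : Q ^ c * (Q ^ j * (Q ^ t * u))⁻¹ ∈ A) : t + j ≤ c := by
  have hQ0 : Q ≠ 0 := by
    rintro rfl
    apply hQ'
    rw [inv_zero]
    exact A.zero_mem
  by_contra hcon
  push Not at hcon
  obtain ⟨d, hd⟩ := Nat.exists_eq_add_of_lt hcon
  apply hQ'
  have h1 : Q⁻¹ = (Q ^ c * (Q ^ j * (Q ^ t * u))⁻¹) * u * Q ^ d := by
    have h2 : Q ^ j * (Q ^ t * u) = Q ^ (c + d + 1) * u := by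
      rw [← hd]
      ring
    rw [h2]
    field_simp
    ring
  rw [h1]
  exact A.mul_mem _ _ (A.mul_mem _ _ h hu) (A.pow_mem hQ d)

/-- **The theorem over an algebraically closed field.** -/
theorem closed_main [IsAlgClosed K] [FiniteDimensional K V] (hss : HasProj R)
    (hPT : ∀ (m : ℕ) (φ : MultilinearMap K (fun _ : Fin m × Fin 2 => V) K),
      IsTate R χ m φ → φ ∈ Submodule.span K (PT R χ m)) (hS : Sympl R χ)
    {n : ℕ} (e : Basis (Fin n ⊕ Fin n) K V) (α : Fin n ⊕ Fin n → K) (γ : Γ)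
    (he : ∀ x, R γ (e x) = α x • e x) (hαα : ∀ x, α x * α x.swap = χ γ)
    (A : ValuationSubring K) (hA : ∀ x, α x ∈ A ∧ ((α x)⁻¹ ∈ A ∨ (α x.swap)⁻¹ ∈ A))
    (hqA : χ γ ∈ A) (hq : (χ γ)⁻¹ ∉ A) (j : ℕ) (κ : Type) [Fintype κ] [DecidableEq κ]
    (U : Submodule K (MultilinearMap K (fun _ : κ => V) K))
    (hU : ∀ g, ∀ φ ∈ U, TT (R g) φ ∈ U) (S : Multiset K)
    (hSU : ∀ φ ∈ U, aeval (TT (κ := κ) (R γ)) (S.map fun β => (X - C β : K[X])).prod φ = 0)
    (hSA : ∀ β ∈ S, (χ γ ^ j)⁻¹ * β ∈ A ∧ χ γ ^ (Fintype.card κ) * (χ γ ^ j * β)⁻¹ ∈ A) :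
    U ≤ IJ R χ j κ := by
  classical
  obtain ⟨s, ⟨D⟩⟩ := exists_Reps hss hS
  obtain ⟨m, s', p', Δ1, hΔ1, hsp, hs', hp'⟩ := D.decomp hss
  have hDfi := D.fi
  obtain ⟨N, hN0, hN⟩ := exists_pow_mem (D.Δ ⊓ Δ1) inferInstance γ
  let g0 : D.Δ := ⟨γ ^ N, hN.1⟩
  have hq0 : χ γ ≠ 0 := by
    intro h0
    apply hq
    rw [h0, inv_zero]
    exact A.zero_mem
  have hα0 : ∀ x, α x ≠ 0 := by
    intro x h0
    apply hq0
    rw [← hαα x, h0, zero_mul]
  have hRN : R g0.1 = R γ ^ N := map_pow R γ N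
  have hχN : χ g0.1 = χ γ ^ N := map_pow χ γ N
  have hqA' : χ g0.1 ∈ A := by rw [hχN]; exact A.pow_mem hqA N
  have hq' : (χ g0.1)⁻¹ ∉ A := by
    intro h
    apply hq
    obtain ⟨N', rfl⟩ := Nat.exists_eq_succ_of_ne_zero hN0
    have h1 : (χ γ)⁻¹ = (χ g0.1)⁻¹ * χ γ ^ N' := by
      rw [hχN, Nat.succ_eq_add_one, pow_succ]
      field_simp
    rw [h1]
    exact A.mul_mem _ _ h (A.pow_mem hqA N')
  obtain ⟨n', Fr, hOrd⟩ := D.exists_frame g0 A
    (fun β v hv => by
      rw [hRN] at hv ⊢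
      exact (pow_eig e (R γ) α he N β v hv).1)
    (fun β v hv0 hv => by
      rw [hRN] at hv
      obtain ⟨x, hx⟩ := (pow_eig e (R γ) α he N β v (by
        rw [Module.End.mem_maxGenEigenspace]
        exact ⟨1, by
          rw [pow_one, LinearMap.sub_apply, LinearMap.smul_apply, Module.End.one_apply, hv,
            sub_self]⟩)).2 hv0
      have h1 : χ g0.1 * β⁻¹ = α x.swap ^ N := by
        rw [hχN, ← hαα x, hx, mul_pow]
        have := pow_ne_zero N (hα0 x)
        field_simp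
      refine ⟨?_, ?_, ?_⟩
      · rw [hx]
        exact A.pow_mem (hA x).1 N
      · rw [h1]
        exact A.pow_mem (hA x.swap).1 N
      · rcases (hA x).2 with h | h
        · left
          rw [hx, ← inv_pow]
          exact A.pow_mem h N
        · right
          rw [h1, ← inv_pow]
          exact A.pow_mem h N) hqA' hq'
  have hPTE := fun m φ hφ => D.tate_gen hss m (hPT m) φ hφ
  let Δ' : Subgroup D.Δ := Δ1.subgroupOf D.Δ
  have hΔ' : Δ'.FiniteIndex := inferInstance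
  have hg0 : g0 ∈ Δ' := by
    rw [Subgroup.mem_subgroupOf]
    exact hN.2
  have hproj := Fr.hasProjF D.hasProj hPTE hOrd Δ' hΔ'
  have key : ∀ (w : κ → Fin m), U.map (MultilinearMap.compLinearMapₗ (fun l => s' (w l))) ≤
      IJ D.rE D.cE j κ := by
    intro w
    refine le_IJ Fr hPTE hΔ' hproj hOrd hg0 j κ _ ?_ ?_
    · rintro g hg _ ⟨φ, hφ, rfl⟩
      refine ⟨TT (R g.1) φ, hU g.1 φ hφ, ?_⟩
      refine MultilinearMap.ext fun v => ?_
      change φ (fun l => R g.1 (s' (w l) (v l))) = φ (fun l => s' (w l) (D.rE g (v l)))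
      congr 1
      funext l
      rw [hs' g (Subgroup.mem_subgroupOf.1 hg)]
    · rintro _ ⟨φ, hφ, rfl⟩ I hI
      by_contra hne
      apply hI
      obtain ⟨Λ, hΛ, hΛu⟩ := hOrd.exists_lam κ
      have h1 : aeval (TT (κ := κ) (R g0.1)) (S.map fun β => (X - C (β ^ N) : K[X])).prod φ = 0 := by
        rw [hRN, TT_pow]
        exact pow_kill _ _ _ _ (hSU φ hφ)
      have h2 := aeval_inter (TT (κ := κ) (R g0.1)) (TT (D.rE g0))
        (MultilinearMap.compLinearMapₗ (fun l => s' (w l))) (fun ψ => by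
          refine MultilinearMap.ext fun v => ?_
          change ψ (fun l => R g0.1 (s' (w l) (v l))) = ψ (fun l => s' (w l) (D.rE g0 (v l)))
          congr 1
          funext l
          rw [hs' g0 hN.2]) (S.map fun β => (X - C (β ^ N) : K[X])).prod φ
      rw [h1, map_zero] at h2
      have h3 := aeval_diag Fr.e hΛ (S.map fun β => (X - C (β ^ N) : K[X])).prod
        (MultilinearMap.compLinearMapₗ (fun l => s' (w l)) φ) I
      rw [← h2] at h3
      have h4 := (mul_eq_zero.1 h3.symm).resolve_right hne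
      rw [Polynomial.eval_multiset_prod, Multiset.prod_eq_zero_iff, Multiset.map_map] at h4
      obtain ⟨β, hβ, h5⟩ := Multiset.mem_map.1 h4
      rw [Function.comp_apply, Polynomial.eval_sub, Polynomial.eval_X, Polynomial.eval_C,
        sub_eq_zero] at h5
      obtain ⟨u, hu, hu', hu0, h6⟩ := hΛu I
      have hcE : D.cE g0 = χ γ ^ N := hχN
      rw [hcE] at h6
      obtain ⟨h7, h8⟩ := hSA β hβ
      constructor
      · refine val_le A (Q := χ γ ^ N) (u := u) (by rw [← hχN]; exact hqA')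
          (by rw [← hχN]; exact hq') hu' hu0 ?_
        have h9 : ((χ γ ^ N) ^ j)⁻¹ * ((χ γ ^ N) ^ sl Fr I * u) = ((χ γ ^ j)⁻¹ * β) ^ N := by
          rw [← h6, h5, mul_pow, inv_pow]
          congr 2
          ring
        rw [h9]
        exact A.pow_mem h7 N
      · refine val_le' A (Q := χ γ ^ N) (u := u) (by rw [← hχN]; exact hqA')
          (by rw [← hχN]; exact hq') hu hu0 ?_
        have h9 : (χ γ ^ N) ^ Fintype.card κ * ((χ γ ^ N) ^ j * ((χ γ ^ N) ^ sl Fr I * u))⁻¹ =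
            (χ γ ^ (Fintype.card κ) * (χ γ ^ j * β)⁻¹) ^ N := by
          rw [← h6, h5, mul_pow, inv_pow]
          ring
        rw [h9]
        exact A.pow_mem h8 N
  intro φ hφ
  refine IJ_decomp R χ D.rE D.cE s' p' hsp ?_ φ fun w => key w ⟨φ, hφ, rfl⟩
  rintro a b B ⟨ΔB, hΔB, hB⟩
  have hfi := fi_map D.fi ΔB hΔB
  refine ⟨ΔB.map D.Δ.subtype ⊓ Δ1, inferInstance, ?_⟩
  rintro _ ⟨⟨g, hg, rfl⟩, hg2⟩ u v
  change B (p' a (R g.1 u)) (p' b (R g.1 v)) = χ g.1 * B (p' a u) (p' b v)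
  rw [hp' g hg2, hp' g hg2]
  exact hB g hg _ _

end

end Pool.Agent.Y128.GT
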