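import Mathlib
import Pool.Agent.H204R3.GP.Defs

/-!
# The generalized Tate conjecture for the powers of an abelian variety

`V` is the rational Tate module `V_ℓ(A)` of an abelian variety `A` over a number field, `ρ` the
action of the Galois group `Γ` on it and `χ` the cyclotomic character. The cohomology group
`H^i(A^n, ℚ_ℓ)` is the space of the alternating forms on `V ^ n` in `i` variables; the Galois group
acts on it by `f ↦ f ∘ ρ(s)⁻¹`, so the geometric Frobenius element acts by `f ↦ f ∘ ρ(γ)` if `γ` is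
the arithmetic Frobenius element.
-/

namespace Pool.Agent.Y128.GT

open Pool.Agent.H204R3.GP

variable {k V Γ : Type} [Field k] [AddCommGroup V] [Module k V] [Group Γ]

/-- The operator `f ↦ f ∘ T` on the forms on `V ^ n`. -/
def pull {n i : ℕ} (T : Module.End k V) :
    Module.End k ((Fin n → V) [⋀^Fin i]→ₗ[k] k) where
  toFun f := f.compLinearMap (LinearMap.pi fun a => T.comp (LinearMap.proj a))
  map_add' _ _ := rfl
  map_smul' _ _ := rfl

/-- The wedge products `B 0 ∧ ... ∧ B (ν - 1) ∧ η`, of degree `i`, of `ν` Tate classes `B s` of degree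
two on `A ^ n` (fixed, after a twist, by a subgroup of finite index of the Galois group) and of one
arbitrary class `η`. -/
def divisorProducts (ρ : Representation k Γ V) (χ : Γ →* k) (n i ν : ℕ) :
    Set ((Fin n → V) [⋀^Fin i]→ₗ[k] k) :=
  {g | ∃ (j : ℕ) (e : (Fin ν × Fin 2) ⊕ Fin j ≃ Fin i)
    (B : Fin ν → (Fin n → V) [⋀^Fin 2]→ₗ[k] k) (η : (Fin n → V) [⋀^Fin j]→ₗ[k] k),
    (∀ s, IsTateClass ρ χ 1 (B s)) ∧
    ∀ v : Fin i → Fin n → V, g v = ∑ σ : Equiv.Perm (Fin i), ((Equiv.Perm.sign σ : ℤ) : k) *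
      ((∏ s, B s ![v (σ (e (Sum.inl (s, 0)))), v (σ (e (Sum.inl (s, 1))))]) *
        η (fun r => v (σ (e (Sum.inr r)))))}

end Pool.Agent.Y128.GT
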