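import Mathlib
import Pool.Agent.Y128.GT.Defs
import Pool.Agent.W522.U.C1
import Pool.Agent.H204R3.SP.Descent

/-!
# Ordinary Frobenius elements, effective twists and the types I and II
-/

namespace Pool.Agent.Y128.GT

open Pool.Agent.H204R3.GP

/-- `γ` acts like the Frobenius element at a place of ordinary reduction with a residue field of
`p ^ a` elements: the cyclotomic character has the value `p ^ a` at `γ`, the action of `γ` on the
Tate module is semisimple (theorem of Weil), and its characteristic polynomial has integral
coefficients and its middle coefficient is prime to `p`. -/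
structure OrdinaryFrobenius {k V Γ : Type} [Field k] [AddCommGroup V] [Module k V]
    [FiniteDimensional k V] [Group Γ] (ρ : Representation k Γ V) (χ : Γ →* k) (p a : ℕ)
    (γ : Γ) : Prop where
  cyc : χ γ = (p : k) ^ a
  semisimple : Module.End.IsSemisimple (ρ γ)
  ordinary : ∃ P : Polynomial ℤ, P.map (Int.castRingHom k) = (ρ γ).charpoly ∧
    ¬ (p : ℤ) ∣ P.coeff (Module.finrank k V / 2)

/-- The twist `U(ν)` of a subspace `U`, stable under the Frobenius operator `T`, of the cohomology in
degree `i` is effective of weight `i - 2 ν`: for all eigenvalues `β` (in an algebraic closure) of `T`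
on `U` the numbers `β / q ^ ν` and `q ^ (i - ν) / β` are algebraic integers, `q = p ^ a`. -/
def EffectiveTwist {k W : Type} [Field k] [AddCommGroup W] [Module k W] (p a i ν : ℕ)
    (T : Module.End k W) (U : Submodule k W) (hU : ∀ u ∈ U, T u ∈ U) : Prop :=
  ∀ β : AlgebraicClosure k, Polynomial.aeval β (minpoly k (T.restrict hU)) = 0 →
    IsIntegral ℤ (β / (((p : AlgebraicClosure k) ^ a) ^ ν)) ∧
    IsIntegral ℤ (((p : AlgebraicClosure k) ^ a) ^ i / (((p : AlgebraicClosure k) ^ a) ^ ν * β))

/-- The condition on the types: after extension of scalars to an algebraic closure `Ω` of `k`, every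
subspace `U` of the Tate module which is stable under a subgroup of finite index of the Galois group,
and minimal with this property, carries a nonzero alternating form which is multiplied by the
cyclotomic character under a subgroup of finite index. -/
def SymplecticConstituents {k V Γ : Type} [Field k] [AddCommGroup V] [Module k V] [Group Γ]
    (ρ : Representation k Γ V) (χ : Γ →* k) : Prop :=
  ∀ U : Submodule (AlgebraicClosure k) (TensorProduct k (AlgebraicClosure k) V),
    Pool.Agent.W522.U.SI (Pool.Agent.H204R3.SP.bcr ρ (AlgebraicClosure k)) U →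
    ∃ (B : TensorProduct k (AlgebraicClosure k) V →ₗ[AlgebraicClosure k]
        TensorProduct k (AlgebraicClosure k) V →ₗ[AlgebraicClosure k] AlgebraicClosure k)
      (Δ : Subgroup Γ), Δ.FiniteIndex ∧ (∀ u ∈ U, B u u = 0) ∧ (∃ u ∈ U, ∃ v ∈ U, B u v ≠ 0) ∧
      ∀ g ∈ Δ, ∀ u ∈ U, ∀ v ∈ U, B (Pool.Agent.H204R3.SP.bcr ρ (AlgebraicClosure k) g u)
        (Pool.Agent.H204R3.SP.bcr ρ (AlgebraicClosure k) g v) =
          Pool.Agent.H204R3.SP.bcc χ (AlgebraicClosure k) g * B u v

end Pool.Agent.Y128.GT
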