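import Pool.Agent.Y128.GT.Pull
import Pool.Agent.Y128.GT.Defs2
import Pool.Agent.W522.U.C9
import Pool.Agent.TH776.FM.RepDefs
import Pool.Agent.TH776.FL.Defs

/-!
# Abelian varieties with trivial Rosati involution have symplectic constituents
-/

set_option linter.unusedSectionVars false

namespace Pool.Agent.Y128.GT

open Module TensorProduct Pool.Agent.H204R3.SP Pool.Agent.H204R3.GP
  Pool.Agent.W529.Ta Pool.Agent.W522.U Pool.Agent.TH776.FM Pool.Agent.TH776.FL

noncomputable section

variable {k V Γ : Type} [Field k] [CharZero k] [AddCommGroup V] [Module k V]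
  [FiniteDimensional k V] [Group Γ] {ρ : Representation k Γ V} {χ : Γ →* k}
  {ω : V →ₗ[k] V →ₗ[k] k}

/-- Extension of scalars of an alternating form. -/
theorem bcb_alt {Ω : Type} [Field Ω] [CharZero Ω] [Algebra k Ω] (halt : ∀ v, ω v v = 0)
    (u : Ω ⊗[k] V) : bcb Ω ω u u = 0 := by
  have h1 : ∀ u v : V, ω u v = -ω v u := by
    intro u v
    have h2 := halt (u + v)
    simp only [map_add, LinearMap.add_apply, halt, zero_add, add_zero] at h2
    linear_combination h2
  have h2 : ∀ u v : Ω ⊗[k] V, bcb Ω ω u v = -bcb Ω ω v u := by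
    intro u v
    induction u with
    | zero => simp only [map_zero, LinearMap.zero_apply, neg_zero]
    | add u u' hu hu' => simp only [map_add, LinearMap.add_apply, hu, hu', neg_add]
    | tmul a u =>
      induction v with
      | zero => simp only [map_zero, LinearMap.zero_apply, neg_zero]
      | add v v' hv hv' => simp only [map_add, LinearMap.add_apply, hv, hv', neg_add]
      | tmul c v =>
        rw [bcb_tmul, bcb_tmul, h1, neg_smul, mul_comm]
  have h3 := h2 u u
  have h4 : (2 : Ω) * bcb Ω ω u u = 0 := by linear_combination h3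
  exact (mul_eq_zero.1 h4).resolve_left two_ne_zero

/-- Symmetric bilinear Tate forms vanish. -/
theorem sym_zero (h : IsTateModule ρ χ ω) (hR : RosatiTrivial ρ ω) {B : V →ₗ[k] V →ₗ[k] k}
    (hB : IsTate2 ρ χ B) (hs : ∀ u v, B u v = B v u) (u v : V) : B u v = 0 := by
  obtain ⟨Δ, hΔ, hBΔ⟩ := hB
  have hinj : Function.Injective ω := by
    rw [← LinearMap.ker_eq_bot, Submodule.eq_bot_iff]
    intro u hu
    apply h.nondeg
    intro v
    have h1 : ω u v = 0 := by rw [LinearMap.mem_ker.1 hu]; rfl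
    have h2 := h.alt (u + v)
    simp only [map_add, LinearMap.add_apply, h.alt, zero_add, add_zero, h1] at h2
    exact h2
  have hbij : Function.Bijective ω :=
    ⟨hinj, (LinearMap.injective_iff_surjective_of_finrank_eq_finrank
      (Subspace.dual_finrank_eq (K := k) (V := V)).symm).1 hinj⟩
  let e : V ≃ₗ[k] (V →ₗ[k] k) := LinearEquiv.ofBijective ω hbij
  let P : Module.End k V := e.symm.toLinearMap.comp B
  have hP : ∀ u v, ω (P u) v = B u v := by
    intro u v
    have h1 : ω (P u) = B u := e.apply_symm_apply (B u)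
    rw [h1]
  have hcomm : ∀ s ∈ Δ, ∀ v, P (ρ s v) = ρ s (P v) := by
    intro s hs v
    apply hinj
    refine LinearMap.ext fun w => ?_
    obtain ⟨w, rfl⟩ : ∃ w', ρ s w' = w := ⟨ρ s⁻¹ w, Rinv' s w⟩
    rw [hP, h.similitude, hP, hBΔ s hs]
  have hself := hR P ⟨Δ, hΔ, hcomm⟩
  have h1 : B u v = - B v u := by
    rw [← hP u v, hself, ← hP v u]
    have h2 := h.alt (u + P v)
    simp only [map_add, LinearMap.add_apply, h.alt, zero_add, add_zero] at h2
    linear_combination h2
  rw [hs v u] at h1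
  have h2 : (2 : k) * B u v = 0 := by linear_combination h1
  exact (mul_eq_zero.1 h2).resolve_left two_ne_zero

/-- Symmetric bilinear Tate forms over an extension vanish. -/
theorem sym_zero_ext {Ω : Type} [Field Ω] [CharZero Ω] [Algebra k Ω] (h : IsTateModule ρ χ ω)
    (hR : RosatiTrivial ρ ω) {B : (Ω ⊗[k] V) →ₗ[Ω] (Ω ⊗[k] V) →ₗ[Ω] Ω}
    (hB : IsTate2 (bcr ρ Ω) (bcc χ Ω) B) (hs : ∀ u v, B u v = B v u) : B = 0 := by
  classical
  let b := Module.finBasis k V
  let w := Basis.ofVectorSpace k Ω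
  obtain ⟨F, hF⟩ := exists_comps b w B
  have h1 : ∀ u v : V, B ((1 : Ω) ⊗ₜ[k] u) ((1 : Ω) ⊗ₜ[k] v) = 0 := by
    intro u v
    rw [hF]
    refine Finset.sum_eq_zero fun i _ => ?_
    rw [sym_zero h hR (compG_tate ρ χ w hB i) (fun u v => ?_) u v, zero_smul]
    rw [compG_apply, compG_apply, hs]
  refine (b.baseChange Ω).ext fun i => (b.baseChange Ω).ext fun i' => ?_
  rw [Basis.baseChange_apply, Basis.baseChange_apply, h1]
  rfl

/-- If the Rosati involution is trivial, the constituents are symplectic. -/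
theorem symplectic_of_rosati (h : IsTateModule ρ χ ω) (hR : RosatiTrivial ρ ω) :
    SymplecticConstituents ρ χ := by
  classical
  intro U hU
  have hss := hasProj_bcr ρ (AlgebraicClosure k) h.semisimple
  obtain ⟨Δ, hΔ, hUΔ⟩ := hU.2.1
  obtain ⟨P, hP1, hP2, hP3⟩ := hss Δ hΔ U hUΔ
  let W := bcb (AlgebraicClosure k) ω
  have hW : ∀ s u v, W (bcr ρ _ s u) (bcr ρ _ s v) = bcc χ (AlgebraicClosure k) s * W u v :=
    bcb_inv ρ χ ω h.similitude
  have halt : ∀ u, W u u = 0 := bcb_alt h.alt
  have hanti : ∀ u v, W u v = - W v u := by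
    intro u v
    have h2 := halt (u + v)
    simp only [map_add, LinearMap.add_apply, halt, zero_add, add_zero] at h2
    linear_combination h2
  let B0 := W.comp P
  have hB0 : IsTate2 (bcr ρ (AlgebraicClosure k)) (bcc χ (AlgebraicClosure k)) (B0 + B0.flip) := by
    refine ⟨Δ, hΔ, fun s hs u v => ?_⟩
    change W (P (bcr ρ _ s u)) (bcr ρ _ s v) + W (P (bcr ρ _ s v)) (bcr ρ _ s u) =
      bcc χ _ s * (W (P u) v + W (P v) u)
    rw [hP3 s hs, hP3 s hs, hW, hW, mul_add]
  have h0 := sym_zero_ext h hR hB0 fun u v => by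
    change W (P u) v + W (P v) u = W (P v) u + W (P u) v
    rw [add_comm]
  have hself : ∀ u v, W (P u) v = W u (P v) := by
    intro u v
    have h1 : W (P u) v + W (P v) u = 0 := congrArg (fun F : (AlgebraicClosure k ⊗[k] V)
      →ₗ[AlgebraicClosure k] (AlgebraicClosure k ⊗[k] V) →ₗ[AlgebraicClosure k]
        AlgebraicClosure k => F u v) h0
    rw [hanti u (P v)]
    linear_combination h1
  refine ⟨W, Δ, hΔ, fun u _ => halt u, ?_, fun g _ u _ v _ => hW g u v⟩
  obtain ⟨u, hu, hu0⟩ := Submodule.exists_mem_ne_zero_of_ne_bot hU.1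
  have hnd := left_nondeg ω h.alt h.nondeg
  obtain ⟨v, hv⟩ : ∃ v, W u v ≠ 0 := by
    by_contra hcon
    push Not at hcon
    exact hu0 (bcb_nondeg_left ω h.nondeg hnd u hcon)
  refine ⟨u, hu, P v, hP1 v, ?_⟩
  rw [← hself, hP2 u hu]
  exact hv

end

end Pool.Agent.Y128.GT
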