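import Pool.Agent.Y128.GT.Cl
import Pool.Agent.Y128.GT.Ros
import Pool.Agent.Y128.GT.Alt
import Pool.Agent.Y128.GT.Asc

/-!
# The generalized Tate conjecture for the powers of an abelian variety
-/

set_option linter.unusedSectionVars false

namespace Pool.Agent.Y128.GT

open Module TensorProduct Polynomial Pool.Agent.H204R3.SP Pool.Agent.H204R3.GP
  Pool.Agent.W529.Ta Pool.Agent.W522.U Pool.Agent.TH776.FM Pool.Agent.TH776.FL

noncomputable section

section

variable {k V : Type} [Field k] [AddCommGroup V] [Module k V]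

theorem finite_alt [FiniteDimensional k V] (n i : ℕ) :
    FiniteDimensional k ((Fin n → V) [⋀^Fin i]→ₗ[k] k) :=
  Module.Finite.of_injective (AlternatingMap.toMultilinearMapLM (S := k))
    AlternatingMap.coe_multilinearMap_injective

/-- The components of a form on a power. -/
def Lw {n i : ℕ} (w : Fin i → Fin n) :
    ((Fin n → V) [⋀^Fin i]→ₗ[k] k) →ₗ[k] MultilinearMap k (fun _ : Fin i => V) k where
  toFun f := f.toMultilinearMap.compLinearMap (fun l => LinearMap.single k (fun _ => V) (w l))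
  map_add' _ _ := rfl
  map_smul' _ _ := rfl

theorem Lw_pull {n i : ℕ} (w : Fin i → Fin n) (T : Module.End k V)
    (f : (Fin n → V) [⋀^Fin i]→ₗ[k] k) :
    Lw (k := k) (V := V) w (pull T f) = TT T (Lw (k := k) (V := V) w f) := by
  ext v
  change f (fun l a => T ((Pi.single (w l) (v l) : Fin n → V) a)) =
    f (fun l => (Pi.single (w l) (T (v l)) : Fin n → V))
  congr 1
  funext l a
  by_cases h : a = w l
  · subst h
    rw [Pi.single_eq_same, Pi.single_eq_same]
  · rw [Pi.single_eq_of_ne h, Pi.single_eq_of_ne h, map_zero]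

end

section bcm

variable {k Ω : Type} [Field k] [CharZero k] [Field Ω] [CharZero Ω] [Algebra k Ω]
  {V : Type} [AddCommGroup V] [Module k V] {ν : Type} [Fintype ν] [DecidableEq ν]
  (b : Basis ν k V) {Γ : Type} [Group Γ] (ρ : Representation k Γ V) (χ : Γ →* k)
  {κ : Type} [Fintype κ] [DecidableEq κ]

theorem aeval_bcm (s : Γ) (P : k[X]) (φ : MultilinearMap k (fun _ : κ => V) k) :
    aeval (TT (κ := κ) (bcr ρ Ω s)) (P.map (algebraMap k Ω)) (bcm (Ω := Ω) b φ) =
      bcm b (aeval (TT (κ := κ) (ρ s)) P φ) := by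
  have hL : ∀ ψ : MultilinearMap k (fun _ : κ => V) k, bcm (Ω := Ω) b ψ = bcmL (Ω := Ω) b ψ :=
    fun _ => rfl
  induction P using Polynomial.induction_on' with
  | add p q hp hq =>
    rw [Polynomial.map_add, map_add, LinearMap.add_apply, hp, hq, map_add, LinearMap.add_apply,
      hL, hL, hL, map_add]
  | monomial n a =>
    rw [Polynomial.map_monomial, Polynomial.aeval_monomial, Polynomial.aeval_monomial,
      Module.End.mul_apply, Module.End.mul_apply, Module.algebraMap_end_apply,
      Module.algebraMap_end_apply, hL (a • _), map_smul]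
    have hsm : ∀ ψ : MultilinearMap Ω (fun _ : κ => Ω ⊗[k] V) Ω, algebraMap k Ω a • ψ = a • ψ := by
      intro ψ
      ext v
      change algebraMap k Ω a * ψ v = a • ψ v
      rw [Algebra.smul_def]
    rw [hsm]
    congr 1
    change _ = bcm (Ω := Ω) b _
    induction n with
    | zero => rw [pow_zero, pow_zero]; rfl
    | succ n ih =>
      rw [pow_succ', pow_succ', Module.End.mul_apply, Module.End.mul_apply, ih, bcm_TT]

end bcm

theorem EffectiveTwist.exists_poly {k W : Type} [Field k] [CharZero k] [AddCommGroup W] [Module k W]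
    [FiniteDimensional k W] {p a i ν : ℕ} {T : Module.End k W} {U : Submodule k W}
    {hU : ∀ u ∈ U, T u ∈ U} (hE : EffectiveTwist p a i ν T U hU) :
    ∃ Q : k[X], Q.Monic ∧ (∀ u ∈ U, aeval T Q u = 0) ∧
      ∀ β : AlgebraicClosure k, aeval β Q = 0 →
        IsIntegral ℤ (β / (((p : AlgebraicClosure k) ^ a) ^ ν)) ∧
        IsIntegral ℤ (((p : AlgebraicClosure k) ^ a) ^ i /
          (((p : AlgebraicClosure k) ^ a) ^ ν * β)) := by
  have hTi : IsIntegral k (T.restrict hU : Module.End k U) := Algebra.IsIntegral.isIntegral _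
  refine ⟨minpoly k (T.restrict hU), minpoly.monic hTi, fun f hf => ?_, hE⟩
  have h1 := aeval_inter (T.restrict hU) T U.subtype (fun _ => rfl)
    (minpoly k (T.restrict hU)) ⟨f, hf⟩
  have h2 : aeval (T.restrict hU) (minpoly k (T.restrict hU)) = 0 := minpoly.aeval k _
  rw [h2, LinearMap.zero_apply, map_zero] at h1
  exact h1.symm

variable {k V Γ : Type} [Field k] [CharZero k] [AddCommGroup V] [Module k V]
  [FiniteDimensional k V] [Group Γ] {ρ : Representation k Γ V} {χ : Γ →* k}
  {ω : V →ₗ[k] V →ₗ[k] k}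

/-- **The generalized Tate conjecture for powers.** -/
theorem main_gtc (h : IsTateModule ρ χ ω) (hT : TateGeneratedInDegreeTwo ρ χ)
    (hS : SymplecticConstituents ρ χ) (p a : ℕ) [hp : Fact p.Prime] (ha : 0 < a) (γ : Γ)
    (hγ : OrdinaryFrobenius ρ χ p a γ) (n i ν : ℕ)
    (U : Submodule k ((Fin n → V) [⋀^Fin i]→ₗ[k] k)) (hU : ∀ s, ∀ f ∈ U, pull (ρ s) f ∈ U)
    (hE : EffectiveTwist p a i ν (pull (ρ γ)) U (hU γ)) :
    U ≤ Submodule.span k (divisorProducts ρ χ n i ν) := by
  classical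
  let Kb := AlgebraicClosure k
  let b := Module.finBasis k V
  have hss : HasProj (bcr ρ Kb) := hasProj_bcr ρ Kb h.semisimple
  have hPT : ∀ (m : ℕ) (φ : MultilinearMap Kb (fun _ : Fin m × Fin 2 => Kb ⊗[k] V) Kb),
      IsTate (bcr ρ Kb) (bcc χ Kb) m φ → φ ∈ Submodule.span Kb (PT (bcr ρ Kb) (bcc χ Kb) m) :=
    fun m φ hφ => ascend b ρ χ (fun ψ hψ => multi_of_gen ρ χ hT m ψ hψ) φ hφ
  have hnd := left_nondeg ω h.alt h.nondeg
  obtain ⟨g, e, α, he, hαα⟩ := exists_eigbasis (bcr ρ Kb) (bcc χ Kb) (bcb Kb ω) (bcb_alt h.alt)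
    (bcb_nondeg_left ω h.nondeg hnd) (bcb_inv ρ χ ω h.similitude) γ
    (semisimple_bc Kb (ρ γ) hγ.semisimple)
  have hdim : finrank k V / 2 = g := by
    have h1 : finrank Kb (Kb ⊗[k] V) = finrank k V := Module.finrank_baseChange
    rw [Module.finrank_eq_card_basis e, Fintype.card_sum, Fintype.card_fin] at h1
    omega
  obtain ⟨P, hP, hPc⟩ := hγ.ordinary
  rw [hdim] at hPc
  have hPKb : P.map (Int.castRingHom Kb) = ∏ x, (X - C (α x)) := by
    rw [← charpoly_eigbasis e (bcr ρ Kb γ) α he]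
    change _ = ((ρ γ).baseChange Kb).charpoly
    rw [LinearMap.charpoly_baseChange, ← hP, Polynomial.map_map]
    congr 1
  have hχ : bcc χ Kb γ = (p : Kb) ^ a := by
    rw [bcc_apply, hγ.cyc, map_pow, map_natCast]
  obtain ⟨A, hA⟩ := exists_val p Kb
  have hp0 : (p : Kb) ≠ 0 := Nat.cast_ne_zero.2 hp.out.ne_zero
  have hpA : (p : Kb) ∈ A := natCast_mem A p
  have hdich := ord_dichotomy p ha α P hPKb (fun x => by rw [hαα, hχ]) hPc A hA
  have hqA : bcc χ Kb γ ∈ A := by
    rw [hχ]
    exact A.pow_mem hpA a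
  have hq : (bcc χ Kb γ)⁻¹ ∉ A := by
    intro h1
    apply hA
    obtain ⟨a', rfl⟩ := Nat.exists_eq_succ_of_ne_zero ha.ne'
    have h2 : (p : Kb)⁻¹ = (bcc χ Kb γ)⁻¹ * (p : Kb) ^ a' := by
      rw [hχ, Nat.succ_eq_add_one, pow_succ, mul_inv_rev, mul_assoc,
        inv_mul_cancel₀ (pow_ne_zero _ hp0), mul_one]
    rw [h2]
    exact A.mul_mem _ _ h1 (A.pow_mem hpA a')
  -- the eigenvalues on `U`
  have hfd := finite_alt (k := k) (V := V) n i
  obtain ⟨Q, hQm, hQU, hQβ⟩ := hE.exists_poly
  let S : Multiset Kb := (Q.map (algebraMap k Kb)).roots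
  have hSQ : Q.map (algebraMap k Kb) = (S.map fun β => (X - C β : Kb[X])).prod :=
    (IsAlgClosed.splits (Q.map (algebraMap k Kb))).eq_prod_roots_of_monic (hQm.map _)
  have key : ∀ w : Fin i → Fin n,
      Submodule.span Kb ((fun f => bcm (Ω := Kb) b (Lw (k := k) (V := V) w f)) '' (U : Set _)) ≤
        IJ (bcr ρ Kb) (bcc χ Kb) ν (Fin i) := by
    intro w
    refine closed_main hss hPT hS e α γ he hαα A hdich hqA hq ν (Fin i) _ ?_ S ?_ ?_
    · intro s φ hφ
      induction hφ using Submodule.span_induction with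
      | zero => rw [map_zero]; exact Submodule.zero_mem _
      | add x y _ _ hx hy => rw [map_add]; exact Submodule.add_mem _ hx hy
      | smul r x _ hx => rw [map_smul]; exact Submodule.smul_mem _ _ hx
      | mem F hF =>
        obtain ⟨f, hf, rfl⟩ := hF
        refine Submodule.subset_span ⟨pull (ρ s) f, hU s f hf, ?_⟩
        change bcm b (Lw (k := k) (V := V) w (pull (ρ s) f)) = TT (bcr ρ Kb s) (bcm b (Lw (k := k) (V := V) w f))
        rw [Lw_pull, bcm_TT]
    · intro φ hφ
      rw [← hSQ]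
      induction hφ using Submodule.span_induction with
      | zero => rw [map_zero]
      | add x y _ _ hx hy => rw [map_add, hx, hy, add_zero]
      | smul r x _ hx => rw [map_smul, hx, smul_zero]
      | mem F hF =>
        obtain ⟨f, hf, rfl⟩ := hF
        change aeval (TT (bcr ρ Kb γ)) (Q.map (algebraMap k Kb)) (bcm (Ω := Kb) b (Lw (k := k) (V := V) w f)) = 0
        rw [aeval_bcm, ← aeval_inter (pull (n := n) (i := i) (ρ γ)) (TT (ρ γ)) (Lw (k := k) (V := V) w)
          (Lw_pull w (ρ γ)), hQU f hf, map_zero]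
        exact (bcmL (Ω := Kb) b).map_zero
    · intro β hβ
      have h1 : aeval β Q = 0 := by
        have h2 := (Polynomial.mem_roots'.1 hβ).2
        rw [Polynomial.IsRoot.def, Polynomial.eval_map_algebraMap] at h2
        exact h2
      obtain ⟨h2, h3⟩ := hQβ β h1
      rw [hχ, Fintype.card_fin]
      constructor
      · have h4 := mem_of_integral A h2
        rwa [div_eq_mul_inv, mul_comm] at h4
      · have h4 := mem_of_integral A h3
        rwa [div_eq_mul_inv] at h4
  -- descent
  obtain ⟨π, hπ⟩ := (Algebra.linearMap k Kb).exists_leftInverse_of_injective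
    (LinearMap.ker_eq_bot.2 (FaithfulSMul.algebraMap_injective k Kb))
  have hπ1 : π 1 = 1 := by
    have h1 := LinearMap.congr_fun hπ (1 : k)
    rwa [LinearMap.comp_apply, Algebra.linearMap_apply, map_one, LinearMap.id_apply] at h1
  intro f hf
  refine alt_IJ χ ρ f ?_
  refine IJ_decomp (piRep (fun _ : Fin n => ρ)) χ ρ χ
    (fun a => LinearMap.single k (fun _ : Fin n => V) a)
    (fun a => LinearMap.proj a) (fun x => ?_) (fun a c B hB => ?_) f.toMultilinearMap
    (fun w => ?_)
  · funext a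
    rw [Finset.sum_apply]
    change ∑ c, (Pi.single c (x c) : Fin n → V) a = x a
    rw [Finset.sum_eq_single a]
    · rw [Pi.single_eq_same]
    · intro c _ hc
      rw [Pi.single_eq_of_ne (Ne.symm hc)]
    · intro hn
      exact absurd (Finset.mem_univ _) hn
  · obtain ⟨Δ, hΔ, hB⟩ := hB
    exact ⟨Δ, hΔ, fun s hs u v => hB s hs _ _⟩
  · have h1 := IJ_desc b ρ χ ν (Fin i) _ (key w (Submodule.subset_span ⟨f, hf, rfl⟩)) π
    have h2 : desc π (bcm (Ω := Kb) b (Lw (k := k) (V := V) w f)) = Lw (k := k) (V := V) w f := by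
      rw [desc_bcm, hπ1, one_smul]
    rw [h2] at h1
    exact h1

end

end Pool.Agent.Y128.GT
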