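import Pool.Agent.W529.Ta.Equi
import Pool.Agent.TH131.GHC.Words
import Pool.Agent.TH131.GHC.Lef

/-!
# Representations with a symplectic form whose constituents are symplectic and not isomorphic
-/

set_option linter.unusedSectionVars false

namespace Pool.Agent.Y128.GT

open Module Pool.Agent.H204R3.SP Pool.Agent.H204R3.GP Pool.Agent.W529.Ta
  Pool.Agent.TH131.GHC

noncomputable section

variable {K : Type} [Field K] [CharZero K] {X : Type} [AddCommGroup X] [Module K X]
  {Γ : Type} [Group Γ]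

/-- The sign of a basis vector. -/
def jj {ι : Type} (K : Type) [Field K] (sg : ι → Bool) (x : ι) : K := if sg x = true then 1 else -1

/-- A symplectic basis of `X` adapted to the decomposition of `X` into pairwise non-isomorphic
strongly irreducible subspaces (the classes) and to a Lagrangian subspace (the positive basis
vectors). -/
structure Frame (R : Representation K Γ X) (χ : Γ →* K) (ι Q : Type) [Fintype ι] [DecidableEq ι]
    [Fintype Q] [DecidableEq Q] where
  /-- the basis -/
  e : Basis ι K X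
  /-- the involution -/
  inv : ι → ι
  /-- the classes -/
  cls : ι → Q
  /-- the signs -/
  sg : ι → Bool
  /-- the form -/
  ω : X →ₗ[K] X →ₗ[K] K
  inv_inv : ∀ x, inv (inv x) = x
  cls_inv : ∀ x, cls (inv x) = cls x
  sg_inv : ∀ x, sg (inv x) = !sg x
  hω : ∀ x y, ω (e x) (e y) = JJ inv (jj K sg) x y
  weil : ∀ g u v, ω (R g u) (R g v) = χ g * ω u v
  block : ∀ g x y, cls y ≠ cls x → e.repr (R g (e x)) y = 0
  schur : ∀ Δ : Subgroup Γ, Δ.FiniteIndex → ∀ P : Module.End K X,
    (∀ s ∈ Δ, ∀ v, P (R s v) = R s (P v)) → ∃ c : Q → K, ∀ x, P (e x) = c (cls x) • e x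

variable {R : Representation K Γ X} {χ : Γ →* K} {ι Q : Type} [Fintype ι] [DecidableEq ι]
  [Fintype Q] [DecidableEq Q] (Fr : Frame R χ ι Q)

namespace Frame

theorem jj_ne (x : ι) : jj K Fr.sg x ≠ 0 := by
  unfold jj
  split_ifs <;> norm_num

theorem jj_inv (x : ι) : jj K Fr.sg (Fr.inv x) = -jj K Fr.sg x := by
  unfold jj
  rw [Fr.sg_inv]
  cases Fr.sg x <;> simp

theorem jj_one (x : ι) : jj K Fr.sg x = 1 ∨ jj K Fr.sg x = -1 := by
  unfold jj
  split_ifs
  · exact Or.inl rfl
  · exact Or.inr rfl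

theorem inv_ne (x : ι) : Fr.inv x ≠ x := by
  intro h
  have h1 := Fr.sg_inv x
  rw [h] at h1
  cases h2 : Fr.sg x <;> rw [h2] at h1 <;> exact absurd h1 (by decide)

/-- The form is antisymmetric. -/
theorem anti (u v : X) : Fr.ω u v = -Fr.ω v u := by
  have h : Fr.ω = -Fr.ω.flip := by
    refine Fr.e.ext fun x => Fr.e.ext fun y => ?_
    rw [LinearMap.neg_apply, LinearMap.neg_apply, LinearMap.flip_apply, Fr.hω, Fr.hω]
    exact JJ_anti Fr.inv_inv Fr.jj_inv x y
  have h1 := congrArg (fun f : X →ₗ[K] X →ₗ[K] K => f u v) h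
  exact h1

theorem repr_eq (u : X) (x : ι) : Fr.e.repr u x = jj K Fr.sg (Fr.inv x) * Fr.ω (Fr.e (Fr.inv x)) u := by
  conv_rhs => rw [← Fr.e.sum_repr u]
  rw [map_sum]
  simp only [map_smul, Fr.hω, smul_eq_mul, JJ, Fr.inv_inv]
  rw [Finset.sum_eq_single x]
  · rw [if_pos rfl]
    rcases Fr.jj_one (Fr.inv x) with h | h <;> rw [h] <;> ring
  · intro b _ hb
    rw [if_neg hb, mul_zero]
  · intro h
    exact absurd (Finset.mem_univ _) h

theorem nondeg_left (u : X) (hu : ∀ v, Fr.ω u v = 0) : u = 0 := by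
  apply Fr.e.repr.injective
  ext x
  rw [map_zero, Finsupp.zero_apply, repr_eq, Fr.anti, hu, neg_zero, mul_zero]

theorem nondeg_right (u : X) (hu : ∀ v, Fr.ω v u = 0) : u = 0 :=
  Fr.nondeg_left u fun v => by rw [Fr.anti, hu, neg_zero]

/-- The projection to the space with the number `q`. -/
def pr (q : Q) : Module.End K X := Fr.e.constr K fun x => if Fr.cls x = q then Fr.e x else 0

theorem pr_e (q : Q) (x : ι) : Fr.pr q (Fr.e x) = if Fr.cls x = q then Fr.e x else 0 := by
  rw [pr, Basis.constr_basis]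

theorem pr_repr (q : Q) (u : X) (x : ι) :
    Fr.e.repr (Fr.pr q u) x = if Fr.cls x = q then Fr.e.repr u x else 0 := by
  conv_lhs => rw [← Fr.e.sum_repr u]
  rw [map_sum, map_sum, Finsupp.finsetSum_apply, Finset.sum_eq_single x]
  · rw [map_smul, pr_e, map_smul, Finsupp.smul_apply]
    split_ifs with h
    · rw [Basis.repr_self, Finsupp.single_eq_same, smul_eq_mul, mul_one]
    · rw [map_zero, Finsupp.zero_apply, smul_zero]
  · intro b _ hb
    rw [map_smul, pr_e, map_smul, Finsupp.smul_apply]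
    split_ifs with h
    · rw [Basis.repr_self, Finsupp.single_eq_of_ne (Ne.symm hb), smul_zero]
    · rw [map_zero, Finsupp.zero_apply, smul_zero]
  · intro h
    exact absurd (Finset.mem_univ _) h

theorem pr_comm (q : Q) (g : Γ) (u : X) : Fr.pr q (R g u) = R g (Fr.pr q u) := by
  have h : Fr.pr q * R g = R g * Fr.pr q := by
    refine Fr.e.ext fun x => ?_
    rw [Module.End.mul_apply, Module.End.mul_apply, pr_e]
    apply Fr.e.repr.injective
    ext y
    rw [pr_repr]
    by_cases hx : Fr.cls x = q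
    · rw [if_pos hx]
      split_ifs with hy
      · rfl
      · rw [Fr.block g x y (by rw [hx]; exact hy)]
    · rw [if_neg hx, map_zero, map_zero, Finsupp.zero_apply]
      split_ifs with hy
      · exact Fr.block g x y (by rw [hy]; exact Ne.symm hx)
      · rfl
  exact congrArg (fun f : Module.End K X => f u) h

/-- The form on the space with the number `q`. -/
def om (q : Q) : X →ₗ[K] X →ₗ[K] K := Fr.ω.comp (Fr.pr q)

theorem om_e (q : Q) (x y : ι) :
    Fr.om q (Fr.e x) (Fr.e y) = JQ Fr.cls Fr.inv (jj K Fr.sg) q x y := by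
  rw [om, LinearMap.comp_apply, pr_e, JQ]
  split_ifs
  · exact Fr.hω x y
  · rw [map_zero, LinearMap.zero_apply]

theorem om_tate (q : Q) : IsTate2 R χ (Fr.om q) := by
  refine ⟨⊤, inferInstance, fun s _ u v => ?_⟩
  rw [om, LinearMap.comp_apply, LinearMap.comp_apply, pr_comm, Fr.weil]

/-- The bilinear Tate forms. -/
theorem tate2 {B : X →ₗ[K] X →ₗ[K] K} (hB : IsTate2 R χ B) :
    ∃ c : Q → K, ∀ x y, B (Fr.e x) (Fr.e y) = c (Fr.cls x) * JJ Fr.inv (jj K Fr.sg) x y := by
  classical
  obtain ⟨Δ, hΔ, hB⟩ := hB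
  -- the endomorphism `a` with `B u v = ω (a u) v`
  let a : Module.End K X := Fr.e.constr K fun x =>
    ∑ y, (jj K Fr.sg (Fr.inv y) * B (Fr.e x) (Fr.e y)) • Fr.e (Fr.inv y)
  have ha : ∀ u v, Fr.ω (a u) v = B u v := by
    intro u v
    have h : Fr.ω.comp a = B := by
      refine Fr.e.ext fun x => Fr.e.ext fun y => ?_
      rw [LinearMap.comp_apply, Basis.constr_basis, map_sum, LinearMap.sum_apply,
        Finset.sum_eq_single y]
      · rw [map_smul, LinearMap.smul_apply, Fr.hω, JJ, Fr.inv_inv, if_pos rfl, smul_eq_mul]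
        rcases Fr.jj_one (Fr.inv y) with h | h <;> rw [h] <;> ring
      · intro b _ hb
        rw [map_smul, LinearMap.smul_apply, Fr.hω, JJ, Fr.inv_inv, if_neg (Ne.symm hb), smul_zero]
      · intro h
        exact absurd (Finset.mem_univ _) h
    rw [← h]
    rfl
  obtain ⟨c, hc⟩ := Fr.schur Δ hΔ a fun s hs v => by
    refine sub_eq_zero.1 (Fr.nondeg_left _ fun w => ?_)
    have h1 : R s (R s⁻¹ w) = w := by
      rw [← Module.End.mul_apply, ← map_mul, mul_inv_cancel, map_one]
      rfl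
    rw [map_sub, LinearMap.sub_apply, ha, ← h1, hB s hs, Fr.weil, ha, sub_self]
  refine ⟨c, fun x y => ?_⟩
  rw [← ha, hc, map_smul, LinearMap.smul_apply, Fr.hω, smul_eq_mul]

end Frame

end

end Pool.Agent.Y128.GT
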