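import Pool.Agent.Y128.GT.Solv

/-!
# The Lie algebra of the stable spaces of forms: the grading element, nondegeneracy of the trace form
-/

set_option linter.unusedSectionVars false

namespace Pool.Agent.Y128.GT

open Module Pool.Agent.H204R3.SP Pool.Agent.H204R3.GP Pool.Agent.W529.Ta
  Pool.Agent.TH131.GHC

noncomputable section

attribute [local instance 100] LieRing.ofAssociativeRing

variable {K : Type} [Field K] [CharZero K] {X : Type} [AddCommGroup X] [Module K X]
  {Γ : Type} [Group Γ] {R : Representation K Γ X} {χ : Γ →* K}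
  {ι Q : Type} [Fintype ι] [DecidableEq ι] [Fintype Q] [DecidableEq Q] (Fr : Frame R χ ι Q)

/-- Products are killed by the endomorphisms which kill the factors. -/
theorem kills_mmG {m : ℕ} (σ : Equiv.Perm (Fin m × Fin 2)) (B : Fin m → (X →ₗ[K] X →ₗ[K] K))
    {x : Module.End K X} (hx : ∀ l u w, B l (x u) w + B l u (x w) = 0) : Kills x (mmG σ B) := by
  classical
  intro v
  rw [← Equiv.sum_comp σ, Fintype.sum_prod_type]
  refine Finset.sum_eq_zero fun l _ => ?_
  have e1 : ∀ (ε : Fin 2) (z : X), ∏ s ∈ Finset.univ.erase l,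
      B s (Function.update v (σ (l, ε)) z (σ (s, 0))) (Function.update v (σ (l, ε)) z (σ (s, 1))) =
      ∏ s ∈ Finset.univ.erase l, B s (v (σ (s, 0))) (v (σ (s, 1))) := by
    intro ε z
    refine Finset.prod_congr rfl fun s hs => ?_
    have hsl := Finset.ne_of_mem_erase hs
    rw [Function.update_of_ne (fun h => hsl (congrArg Prod.fst (σ.injective h))),
      Function.update_of_ne (fun h => hsl (congrArg Prod.fst (σ.injective h)))]
  rw [Fin.sum_univ_two, mmG_apply, mmG_apply, ← Finset.mul_prod_erase _ _ (Finset.mem_univ l),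
    ← Finset.mul_prod_erase _ _ (Finset.mem_univ l), e1, e1, Function.update_self,
    Function.update_self, Function.update_of_ne, Function.update_of_ne]
  · linear_combination (∏ s ∈ Finset.univ.erase l, B s (v (σ (s, 0))) (v (σ (s, 1)))) *
      hx l (v (σ (l, 0))) (v (σ (l, 1)))
  · intro h
    exact absurd (congrArg Prod.snd (σ.injective h)) (by decide : (0 : Fin 2) ≠ 1)
  · intro h
    exact absurd (congrArg Prod.snd (σ.injective h)) (by decide : (1 : Fin 2) ≠ 0)

theorem mem_lieT (hPT : ∀ (m : ℕ) (φ : MultilinearMap K (fun _ : Fin m × Fin 2 => X) K),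
      IsTate R χ m φ → φ ∈ Submodule.span K (PT R χ m)) {x : Module.End K X}
    (hx : x ∈ gg R χ) : x ∈ lieT R χ := by
  intro m φ hφ
  have h := hPT m φ hφ
  rw [kills_iff]
  induction h using Submodule.span_induction with
  | mem φ hφ' =>
    obtain ⟨σ, B, hB, rfl⟩ := hφ'
    exact (kills_iff _ _).1 (kills_mmG σ B fun l => hx _ (hB l))
  | zero => rw [map_zero]
  | add a b ha hb h1 h2 =>
    rw [map_add, h1 (isTate_of_PT R χ ha), h2 (isTate_of_PT R χ hb), add_zero]
  | smul c a ha h1 => rw [map_smul, h1 (isTate_of_PT R χ ha), smul_zero]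

theorem gg_of_lieT {x : Module.End K X} (hx : x ∈ lieT R χ) : x ∈ gg R χ :=
  fun _ hB u w => lieT_bil R χ hB hx u w

namespace Frame

/-- The grading element. -/
def D : Module.End K X := Fr.e.constr K fun x => jj K Fr.sg x • Fr.e x

theorem D_e (x : ι) : Fr.D (Fr.e x) = jj K Fr.sg x • Fr.e x := by
  rw [D, Basis.constr_basis]

theorem D_gg : Fr.D ∈ gg R χ := by
  intro B hB u w
  obtain ⟨c, hc⟩ := Fr.tate2 hB
  have h : B.comp Fr.D + B.compl₂ Fr.D = 0 := by
    refine Fr.e.ext fun x => Fr.e.ext fun y => ?_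
    rw [LinearMap.add_apply, LinearMap.add_apply, LinearMap.comp_apply, LinearMap.compl₂_apply,
      D_e, D_e, map_smul, map_smul, LinearMap.smul_apply, hc, smul_eq_mul, smul_eq_mul, JJ]
    split_ifs with hxy
    · rw [hxy, Fr.jj_inv]
      simp
    · simp
  exact congrArg (fun f : X →ₗ[K] X →ₗ[K] K => f u w) h

theorem halt (v : X) : Fr.ω v v = 0 := by
  have h := Fr.anti v v
  have h2 : (2 : K) * Fr.ω v v = 0 := by linear_combination h
  rcases mul_eq_zero.1 h2 with h3 | h3
  · exact absurd h3 two_ne_zero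
  · exact h3

theorem tate2_left {B : X →ₗ[K] X →ₗ[K] K} {c : Q → K}
    (hc : ∀ x y, B (Fr.e x) (Fr.e y) = c (Fr.cls x) * JJ Fr.inv (jj K Fr.sg) x y) (a : ι) (w : X) :
    B (Fr.e a) w = c (Fr.cls a) * Fr.ω (Fr.e a) w := by
  have h : B (Fr.e a) = c (Fr.cls a) • Fr.ω (Fr.e a) := by
    refine Fr.e.ext fun y => ?_
    rw [LinearMap.smul_apply, hc, Fr.hω, smul_eq_mul]
  rw [h, LinearMap.smul_apply, smul_eq_mul]

theorem tate2_right {B : X →ₗ[K] X →ₗ[K] K} {c : Q → K}
    (hc : ∀ x y, B (Fr.e x) (Fr.e y) = c (Fr.cls x) * JJ Fr.inv (jj K Fr.sg) x y) (a : ι) (w : X) :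
    B w (Fr.e a) = -(c (Fr.cls a) * Fr.ω (Fr.e a) w) := by
  have h : B.flip (Fr.e a) = -(c (Fr.cls a) • Fr.ω (Fr.e a)) := by
    refine Fr.e.ext fun y => ?_
    rw [LinearMap.neg_apply, LinearMap.smul_apply, LinearMap.flip_apply, hc, Fr.hω, smul_eq_mul]
    have h1 := JJ_anti Fr.inv_inv Fr.jj_inv y a
    rw [h1]
    unfold JJ
    split_ifs with h2
    · rw [h2, Fr.cls_inv]
      ring
    · ring
  have h1 : B w (Fr.e a) = B.flip (Fr.e a) w := rfl
  rw [h1, h, LinearMap.neg_apply, LinearMap.smul_apply, smul_eq_mul]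

theorem SS_gg {a b : ι} (hab : Fr.cls a = Fr.cls b) : SS Fr.ω (Fr.e a) (Fr.e b) ∈ gg R χ := by
  intro B hB u w
  obtain ⟨c, hc⟩ := Fr.tate2 hB
  rw [SS_apply, SS_apply, map_add, map_add, map_smul, map_smul, map_smul, map_smul,
    LinearMap.add_apply, LinearMap.smul_apply, LinearMap.smul_apply, Fr.tate2_left hc,
    Fr.tate2_left hc, Fr.tate2_right hc, Fr.tate2_right hc, hab]
  simp only [smul_eq_mul]
  ring

/-- The grading element preserves the stable spaces of forms. -/
theorem D_lieP (hPT : ∀ (m : ℕ) (φ : MultilinearMap K (fun _ : Fin m × Fin 2 => X) K),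
      IsTate R χ m φ → φ ∈ Submodule.span K (PT R χ m)) {γ : Γ} {A : ValuationSubring K}
    (hγ : Ord Fr γ A) : Fr.D ∈ lieP R χ := by
  classical
  refine ⟨mem_lieT hPT Fr.D_gg, fun m Δ hΔ U hU φ hφ => ?_⟩
  obtain ⟨N, hN0, -, hN⟩ := Subgroup.exists_pow_mem_of_index_ne_zero hΔ.index_ne_zero γ
  have hγN := hγ.pow hN0
  obtain ⟨Λ, hΛ1, hΛ2⟩ := hγN.exists_lam (Fin m)
  let s : (Fin m → ι) → K := fun I => ∑ k, jj K Fr.sg (I k)
  have hs1 : ∀ I, s I = m - 2 * (sl Fr I : K) := by
    intro I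
    have h1 : ∀ k, jj K Fr.sg (I k) = 1 - 2 * (if Fr.sg (I k) = false then (1 : K) else 0) := by
      intro k
      unfold jj
      cases Fr.sg (I k) <;> simp <;> norm_num
    simp only [s]
    rw [Finset.sum_congr rfl fun k _ => h1 k, Finset.sum_sub_distrib, ← Finset.mul_sum,
      Finset.sum_const, Finset.card_univ, Fintype.card_fin, Finset.sum_boole, nsmul_eq_mul, mul_one]
    rfl
  have hs : ∀ I J, Λ I = Λ J → s I = s J := by
    intro I J h
    obtain ⟨u, hu1, hu2, hu3, hu⟩ := hΛ2 I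
    obtain ⟨w, hw1, hw2, hw3, hw⟩ := hΛ2 J
    rw [hu, hw] at h
    rw [hs1, hs1, hγN.slope_eq ⟨hu1, hu2, hu3⟩ ⟨hw1, hw2, hw3⟩ h]
  obtain ⟨P, hP⟩ : ∃ P : Polynomial K, ∀ I, P.eval (Λ I) = s I := by
    refine ⟨Lagrange.interpolate (Finset.univ.image Λ) id
      (fun z => if h : ∃ I, Λ I = z then s h.choose else 0), fun I => ?_⟩
    have h1 := Lagrange.eval_interpolate_at_node (s := Finset.univ.image Λ) (v := id)
      (fun z : K => if h : ∃ I, Λ I = z then s h.choose else 0) (Function.injective_id.injOn)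
      (Finset.mem_image_of_mem Λ (Finset.mem_univ I))
    rw [id] at h1
    rw [h1]
    have h2 : ∃ J, Λ J = Λ I := ⟨I, rfl⟩
    rw [dif_pos h2]
    exact hs _ _ h2.choose_spec
  have h1 : dF Fr.D φ = Polynomial.aeval (TT (R (γ ^ N))) P φ := by
    refine Basis.ext_multilinear (fun _ => Fr.e) fun I => ?_
    rw [aeval_diag Fr.e hΛ1, hP, dF_apply]
    simp only [s, Finset.sum_mul]
    refine Finset.sum_congr rfl fun k _ => ?_
    rw [D_e, MultilinearMap.map_update_smul, smul_eq_mul]
    congr 2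
    exact Function.update_eq_self k (fun k => Fr.e (I k))
  rw [h1]
  exact aeval_mem (fun u hu => hU _ hN u hu) P φ hφ

include Fr in
/-- **The trace form of the Lie algebra is not degenerate.** -/
theorem tr_nondeg [IsAlgClosed K] (hss : HasProj R) {x : Module.End K X} (hx : x ∈ lieP R χ)
    (h : ∀ y ∈ lieP R χ, LinearMap.trace K X (x * y) = 0) : x = 0 := by
  classical
  have hfd : FiniteDimensional K X := Module.Finite.of_basis Fr.e
  have hfree : Module.Free K X := Module.Free.of_basis Fr.e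
  let r : LieSubalgebra K (Module.End K X) :=
    { carrier := {x | x ∈ lieP R χ ∧ ∀ y ∈ lieP R χ, LinearMap.trace K X (x * y) = 0}
      add_mem' := by
        rintro a b ⟨ha, ha'⟩ ⟨hb, hb'⟩
        refine ⟨Submodule.add_mem _ ha hb, fun y hy => ?_⟩
        rw [add_mul, map_add, ha' y hy, hb' y hy, add_zero]
      zero_mem' := ⟨Submodule.zero_mem _, fun y _ => by rw [zero_mul, map_zero]⟩
      smul_mem' := by
        rintro c a ⟨ha, ha'⟩
        refine ⟨Submodule.smul_mem _ c ha, fun y hy => ?_⟩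
        rw [smul_mul_assoc, map_smul, ha' y hy, smul_zero]
      lie_mem' := by
        rintro a b ⟨ha, ha'⟩ ⟨hb, hb'⟩
        rw [LieRing.of_associative_ring_bracket]
        refine ⟨lieP_bracket R χ ha hb, fun y hy => ?_⟩
        have h1 := ha' _ (lieP_bracket R χ hb hy)
        rw [mul_sub, map_sub] at h1
        rw [sub_mul, map_sub, mul_assoc, mul_assoc, LinearMap.trace_mul_comm K b (a * y),
          mul_assoc, h1] }
  have htr : LieModule.traceForm K r X = 0 := by
    refine LinearMap.ext fun a => LinearMap.ext fun b => ?_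
    rw [LieModule.traceForm_apply_apply, LinearMap.zero_apply, LinearMap.zero_apply]
    exact a.2.2 b b.2.1
  have hn : LieModule.IsNilpotent (LieAlgebra.derivedSeries K r 1) X :=
    LieModule.isNilpotent_derivedSeries_of_traceForm_eq_zero htr
  have hn' : LieRing.IsNilpotent (LieAlgebra.derivedSeries K r 1) := by
    rw [LieAlgebra.isNilpotent_iff_forall (R := K)]
    rintro ⟨a, ha⟩
    apply LieSubalgebra.isNilpotent_ad_of_isNilpotent_ad
      ((LieAlgebra.derivedSeries K r 1 : LieIdeal K r) : LieSubalgebra K r) (x := ⟨a, ha⟩)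
    apply LieAlgebra.isNilpotent_ad_of_isNilpotent
    exact (LieModule.isNilpotent_iff_forall' (R := K)).mp hn ⟨a, ha⟩
  have hsol : LieAlgebra.IsSolvable r := by
    obtain ⟨k, hk⟩ := LieAlgebra.IsSolvable.solvable K (LieAlgebra.derivedSeries K r 1)
    rw [LieIdeal.derivedSeries_eq_bot_iff] at hk
    refine LieAlgebra.IsSolvable.mk (R := K) (k := k + 1) ?_
    change LieAlgebra.derivedSeriesOfIdeal K r (k + 1) ⊤ = ⊥
    rw [LieAlgebra.derivedSeriesOfIdeal_add]
    exact hk
  refine Fr.solv hss r (fun y hy => gg_of_lieT (lieP_le R χ hy.1)) (fun s y hy => ?_) x ⟨hx, h⟩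
  refine ⟨lieP_conj R χ s hy.1, fun z hz => ?_⟩
  have h1 := lieP_conj R χ s⁻¹ hz
  rw [_root_.inv_inv] at h1
  have h2 := hy.2 _ h1
  rw [← h2]
  have h3 : R s * y * R s⁻¹ * z = R s * (y * (R s⁻¹ * z)) := by simp only [mul_assoc]
  have h4 : y * (R s⁻¹ * z * R s) = (y * (R s⁻¹ * z)) * R s := by simp only [mul_assoc]
  rw [h3, h4, LinearMap.trace_mul_comm]

end Frame

end

end Pool.Agent.Y128.GT
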