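import Pool.Agent.Y128.GT.LieA
import Pool.Agent.W529.Ta.Transvection

/-!
# The spaces of forms are semisimple
-/

set_option linter.unusedSectionVars false

namespace Pool.Agent.Y128.GT

open Module Pool.Agent.H204R3.SP Pool.Agent.H204R3.GP Pool.Agent.W529.Ta
  Pool.Agent.TH131.GHC

noncomputable section

variable {K : Type} [Field K] [CharZero K] {X : Type} [AddCommGroup X] [Module K X]
  {Γ : Type} [Group Γ] {R : Representation K Γ X} {χ : Γ →* K}
  {ι Q : Type} [Fintype ι] [DecidableEq ι] [Fintype Q] [DecidableEq Q]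

/-- A space of endomorphisms with nondegenerate trace form which is stable under conjugation has an
equivariant projection. -/
theorem exists_PI [FiniteDimensional K X] (p : Submodule K (Module.End K X))
    (hnd : ∀ x ∈ p, (∀ y ∈ p, LinearMap.trace K X (x * y) = 0) → x = 0)
    (hc : ∀ (s : Γ), ∀ x ∈ p, R s * x * R s⁻¹ ∈ p) :
    ∃ pj : Module.End K (Module.End K X), (∀ x, pj x ∈ p) ∧ (∀ x ∈ p, pj x = x) ∧
      ∀ (s : Γ) x, pj (R s * x * R s⁻¹) = R s * pj x * R s⁻¹ := by
  classical
  let B : LinearMap.BilinForm K (Module.End K X) :=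
    (LinearMap.mul K (Module.End K X)).compr₂ (LinearMap.trace K X)
  have hB : ∀ x y, B x y = LinearMap.trace K X (x * y) := fun _ _ => rfl
  have hrefl : B.IsRefl := by
    intro x y h
    rw [hB] at h ⊢
    rw [LinearMap.trace_mul_comm, h]
  have hdis : p ⊓ B.orthogonal p = ⊥ := by
    rw [eq_bot_iff]
    intro x hx
    obtain ⟨hx1, hx2⟩ := Submodule.mem_inf.1 hx
    rw [Submodule.mem_bot]
    refine hnd x hx1 fun y hy => ?_
    have h1 := (LinearMap.BilinForm.mem_orthogonal_iff.1 hx2) y hy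
    have h2 : B y x = 0 := h1
    rw [LinearMap.trace_mul_comm, ← hB, h2]
  have hcompl : IsCompl p (B.orthogonal p) := by
    refine LinearMap.BilinForm.isCompl_orthogonal_of_restrict_nondegenerate hrefl ?_
    refine LinearMap.BilinForm.nondegenerate_restrict_of_disjoint_orthogonal B hrefl ?_
    exact disjoint_iff.2 hdis
  let pj : Module.End K (Module.End K X) := p.subtype.comp (p.projectionOnto _ hcompl)
  have hpj : ∀ x, x - pj x ∈ B.orthogonal p := by
    intro x
    have h1 : p.projectionOnto _ hcompl (x - pj x) = 0 := by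
      rw [map_sub]
      change p.projectionOnto _ hcompl x -
        p.projectionOnto _ hcompl (p.projectionOnto _ hcompl x : Module.End K X) = 0
      rw [Submodule.projectionOnto_apply_left, sub_self]
    rwa [← LinearMap.mem_ker, Submodule.ker_projectionOnto] at h1
  have hpj0 : ∀ x ∈ B.orthogonal p, pj x = 0 := by
    intro x hx
    have h1 : p.projectionOnto _ hcompl x = 0 := by
      rw [← LinearMap.mem_ker, Submodule.ker_projectionOnto]
      exact hx
    change ((p.projectionOnto _ hcompl x : p) : Module.End K X) = 0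
    rw [h1]
    rfl
  have hpj1 : ∀ x ∈ p, pj x = x := by
    intro x hx
    change ((p.projectionOnto _ hcompl x : p) : Module.End K X) = x
    have h1 := Submodule.projectionOnto_apply_left hcompl ⟨x, hx⟩
    exact congrArg Subtype.val h1
  have hoc : ∀ (s : Γ), ∀ x ∈ B.orthogonal p, R s * x * R s⁻¹ ∈ B.orthogonal p := by
    intro s x hx
    rw [LinearMap.BilinForm.mem_orthogonal_iff] at hx ⊢
    intro y hy
    have h1 := hc s⁻¹ y hy
    rw [_root_.inv_inv] at h1
    have h2 : B (R s⁻¹ * y * R s) x = 0 := hx _ h1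
    change B y _ = 0
    rw [hB] at h2 ⊢
    rw [← h2]
    have h3 : y * (R s * x * R s⁻¹) = (y * (R s * x)) * R s⁻¹ := by simp only [mul_assoc]
    have h4 : R s⁻¹ * y * R s * x = R s⁻¹ * (y * (R s * x)) := by simp only [mul_assoc]
    rw [h3, h4, LinearMap.trace_mul_comm]
  have hmem : ∀ x, pj x ∈ p := fun x => SetLike.coe_mem (p.projectionOnto _ hcompl x)
  refine ⟨pj, hmem, hpj1, fun s x => ?_⟩
  have h1 : x = pj x + (x - pj x) := by abel
  have h2 : R s * x * R s⁻¹ = R s * pj x * R s⁻¹ + R s * (x - pj x) * R s⁻¹ := by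
    conv_lhs => rw [h1]
    rw [mul_add, add_mul]
  rw [h2, map_add, hpj1 _ (hc s _ (hmem x)), hpj0 _ (hoc s _ (hpj x)), add_zero]

variable (Fr : Frame R χ ι Q)

/-- The sum which measures the failure of an endomorphism to kill the form attached to `P`. -/
theorem sum_formOf (ω : X →ₗ[K] X →ₗ[K] K) (m : ℕ)
    (P : Module.End K (MultilinearMap K (fun _ : Fin m => X) K))
    {x : Module.End K X} (hX : ∀ u w, ω (x u) w + ω u (x w) = 0) (u : Fin m × Fin 2 → X) :
    ∑ k, formOf ω m P (Function.update u k (x (u k))) =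
      dF x (P (theta ω m (fun l => u (l, 1)))) (fun l => u (l, 0)) -
        P (dF x (theta ω m (fun l => u (l, 1)))) (fun l => u (l, 0)) := by
  classical
  rw [Fintype.sum_prod_type]
  have h0 : ∀ l, ∑ ε : Fin 2, formOf ω m P (Function.update u (l, ε) (x (u (l, ε)))) =
      P (theta ω m (fun l => u (l, 1))) (Function.update (fun l => u (l, 0)) l (x (u (l, 0)))) +
      P (theta ω m (Function.update (fun l => u (l, 1)) l (x (u (l, 1))))) (fun l => u (l, 0)) := by
    intro l
    rw [Fin.sum_univ_two, formOf_apply, formOf_apply]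
    have e1 : ∀ (ε δ : Fin 2) (z : X), (fun l' => Function.update u (l, ε) z (l', δ)) =
        if δ = ε then Function.update (fun l' => u (l', δ)) l z else fun l' => u (l', δ) := by
      intro ε δ z
      by_cases hδ : δ = ε
      · subst hδ
        rw [if_pos rfl]
        funext l'
        by_cases hl : l' = l
        · subst hl
          rw [Function.update_self, Function.update_self]
        · rw [Function.update_of_ne (fun h => hl (congrArg Prod.fst h)), Function.update_of_ne hl]
      · rw [if_neg hδ]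
        funext l'
        rw [Function.update_of_ne (fun h => hδ (congrArg Prod.snd h))]
    rw [e1, e1, e1, e1]
    simp
  rw [Finset.sum_congr rfl (fun l _ => h0 l), Finset.sum_add_distrib]
  have h1 : ∑ l, P (theta ω m (fun l => u (l, 1)))
      (Function.update (fun l => u (l, 0)) l (x (u (l, 0)))) =
      dF x (P (theta ω m (fun l => u (l, 1)))) (fun l => u (l, 0)) := (dF_apply _ _ _).symm
  have h2 : ∑ l, P (theta ω m (Function.update (fun l => u (l, 1)) l (x (u (l, 1)))))
      (fun l => u (l, 0)) = -(P (dF x (theta ω m (fun l => u (l, 1)))) (fun l => u (l, 0))) := by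
    rw [← sum_apply, ← map_sum, dF_theta ω m hX (fun l => u (l, 1)), map_neg,
      neg_apply]
  rw [h1, h2]
  ring

namespace Frame

/-- The form attached to an equivariant endomorphism is a Tate form. -/
theorem isTate_formOf {m : ℕ} (Δ : Subgroup Γ) (hΔ : Δ.FiniteIndex)
    (P : Module.End K (MultilinearMap K (fun _ : Fin m => X) K))
    (hP : ∀ s ∈ Δ, ∀ φ, P (TT (R s) φ) = TT (R s) (P φ)) :
    IsTate R χ m (formOf Fr.ω m P) := by
  refine ⟨Δ, hΔ, fun s hs u => ?_⟩
  rw [formOf_apply, formOf_apply]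
  have h2 : TT (R s) (theta Fr.ω m (fun l => R s (u (l, 1)))) =
      (χ s ^ m) • theta Fr.ω m (fun l => u (l, 1)) := by
    ext v
    rw [TT_apply, smul_apply, theta_apply, theta_apply, smul_eq_mul]
    rw [Finset.prod_congr rfl (fun l _ => Fr.weil s (u (l, 1)) (v l)), Finset.prod_mul_distrib,
      Finset.prod_const, Finset.card_univ, Fintype.card_fin]
  have h3 := hP s hs (theta Fr.ω m (fun l => R s (u (l, 1))))
  rw [h2, map_smul] at h3
  have h4 := congrArg (fun ψ : MultilinearMap K (fun _ : Fin m => X) K =>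
    ψ (fun l => u (l, 0))) h3
  exact h4.symm

include Fr in
/-- An equivariant endomorphism commutes with the Lie algebra. -/
theorem comm_gg (hPT : ∀ (m : ℕ) (φ : MultilinearMap K (fun _ : Fin m × Fin 2 => X) K),
      IsTate R χ m φ → φ ∈ Submodule.span K (PT R χ m)) {m : ℕ} (Δ : Subgroup Γ)
    (hΔ : Δ.FiniteIndex) (P : Module.End K (MultilinearMap K (fun _ : Fin m => X) K))
    (hP : ∀ s ∈ Δ, ∀ φ, P (TT (R s) φ) = TT (R s) (P φ)) {x : Module.End K X}
    (hx : x ∈ gg R χ) (φ : MultilinearMap K (fun _ : Fin m => X) K) :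
    P (dF x φ) = dF x (P φ) := by
  have h1 := mem_lieT hPT hx m _ (Fr.isTate_formOf Δ hΔ P hP)
  let dL : Module.End K (MultilinearMap K (fun _ : Fin m => X) K) :=
    { toFun := dF x
      map_add' := map_add _
      map_smul' := map_smul _ }
  have h2 : P * dL = dL * P := by
    refine ext_theta Fr.e Fr.inv_inv Fr.jj_ne Fr.ω Fr.hω m _ _ fun w => ?_
    ext v
    have h3 := sum_formOf Fr.ω m P (fun u w => hx _ Fr.omega_tate u w)
      (fun k => if k.2 = 0 then v k.1 else w k.1)
    rw [h1] at h3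
    simp only [if_true, one_ne_zero, if_false] at h3
    exact (sub_eq_zero.1 h3.symm).symm
  exact congrArg (fun f : Module.End K (MultilinearMap K (fun _ : Fin m => X) K) => f φ) h2

include Fr in
/-- The Lie algebra is an ideal. -/
theorem bracket_gg [IsAlgClosed K] (hss : HasProj R)
    (hPT : ∀ (m : ℕ) (φ : MultilinearMap K (fun _ : Fin m × Fin 2 => X) K),
      IsTate R χ m φ → φ ∈ Submodule.span K (PT R χ m)) {x z : Module.End K X}
    (hx : x ∈ lieP R χ) (hz : z ∈ gg R χ) : x * z - z * x ∈ lieP R χ := by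
  classical
  have hfd : FiniteDimensional K X := Module.Finite.of_basis Fr.e
  obtain ⟨pj, hpj1, hpj2, hpj3⟩ := exists_PI (R := R) (lieP R χ)
    (fun x hx h => Fr.tr_nondeg hss hx h) (fun s x hx => lieP_conj R χ s hx)
  -- bilinear forms and endomorphisms
  let al : MultilinearMap K (fun _ : Fin 2 => X) K →ₗ[K] Module.End K X :=
    { toFun := fun φ => Fr.e.constr K fun x =>
        ∑ y, (jj K Fr.sg (Fr.inv y) * φ ![Fr.e x, Fr.e y]) • Fr.e (Fr.inv y)
      map_add' := by
        intro a b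
        refine Fr.e.ext fun x => ?_
        rw [LinearMap.add_apply, Basis.constr_basis, Basis.constr_basis, Basis.constr_basis,
          ← Finset.sum_add_distrib]
        refine Finset.sum_congr rfl fun y _ => ?_
        rw [add_apply, mul_add, add_smul]
      map_smul' := by
        intro c a
        refine Fr.e.ext fun x => ?_
        rw [LinearMap.smul_apply, Basis.constr_basis, Basis.constr_basis, Finset.smul_sum]
        refine Finset.sum_congr rfl fun y _ => ?_
        rw [smul_apply, smul_smul, smul_eq_mul, RingHom.id_apply, mul_left_comm] }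
  let be : Module.End K X →ₗ[K] MultilinearMap K (fun _ : Fin 2 => X) K :=
    { toFun := fun a => bil2 (Fr.ω.comp a)
      map_add' := by
        intro a b
        ext v
        rw [add_apply, bil2_apply, bil2_apply, bil2_apply, LinearMap.comp_apply,
          LinearMap.comp_apply, LinearMap.comp_apply, LinearMap.add_apply, map_add,
          LinearMap.add_apply]
      map_smul' := by
        intro c a
        ext v
        rw [RingHom.id_apply, smul_apply, bil2_apply, bil2_apply,
          LinearMap.comp_apply, LinearMap.comp_apply, LinearMap.smul_apply, map_smul,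
          LinearMap.smul_apply] }
  have hbe : ∀ a v, be a v = Fr.ω (a (v 0)) (v 1) := fun _ _ => rfl
  have hu0 : ∀ a b c : X, Function.update ![a, b] 0 c = ![c, b] := by
    intro a b c
    funext i
    fin_cases i <;> rfl
  have hu1 : ∀ a b c : X, Function.update ![a, b] 1 c = ![a, c] := by
    intro a b c
    funext i
    fin_cases i <;> rfl
  have hal : ∀ φ u w, Fr.ω (al φ u) w = φ ![u, w] := by
    intro φ u w
    let Bφ : X →ₗ[K] X →ₗ[K] K := LinearMap.mk₂ K (fun u w => φ ![u, w])
      (fun a b w => by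
        have h := φ.map_update_add ![a, w] 0 a b
        rwa [hu0, hu0, hu0] at h)
      (fun c a w => by
        have h := φ.map_update_smul ![a, w] 0 c a
        rwa [hu0, hu0] at h)
      (fun u a b => by
        have h := φ.map_update_add ![u, a] 1 a b
        rwa [hu1, hu1, hu1] at h)
      (fun c u a => by
        have h := φ.map_update_smul ![u, a] 1 c a
        rwa [hu1, hu1] at h)
    have h : Fr.ω.comp (al φ) = Bφ := by
      refine Fr.e.ext fun x => Fr.e.ext fun y => ?_
      change Fr.ω ((Fr.e.constr K _) (Fr.e x)) (Fr.e y) = φ ![Fr.e x, Fr.e y]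
      rw [Basis.constr_basis, map_sum, LinearMap.sum_apply, Finset.sum_eq_single y]
      · rw [map_smul, LinearMap.smul_apply, Fr.hω, JJ, Fr.inv_inv, if_pos rfl, smul_eq_mul]
        rcases Fr.jj_one (Fr.inv y) with h | h <;> rw [h] <;> ring
      · intro b _ hb
        rw [map_smul, LinearMap.smul_apply, Fr.hω, JJ, Fr.inv_inv, if_neg (Ne.symm hb), smul_zero]
      · intro h
        exact absurd (Finset.mem_univ _) h
    exact congrArg (fun f : X →ₗ[K] X →ₗ[K] K => f u w) h
  have hba : ∀ φ, be (al φ) = φ := by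
    intro φ
    ext v
    rw [hbe, hal]
    congr 1
    funext i
    fin_cases i <;> rfl
  have hab : ∀ a, al (be a) = a := by
    intro a
    refine LinearMap.ext fun u => sub_eq_zero.1 (Fr.nondeg_left _ fun w => ?_)
    rw [map_sub, LinearMap.sub_apply, hal, hbe]
    exact sub_self _
  let P : Module.End K (MultilinearMap K (fun _ : Fin 2 => X) K) := be.comp (pj.comp al)
  have hPbe : ∀ a, P (be a) = be (pj a) := by
    intro a
    change be (pj (al (be a))) = _
    rw [hab]
  have hRi' : ∀ (s : Γ) (v : X), R s (R s⁻¹ v) = v := fun s v => by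
    rw [← Module.End.mul_apply, ← map_mul, mul_inv_cancel, map_one]; rfl
  have hTT : ∀ (s : Γ) a, TT (R s) (be a) = χ s • be (R s⁻¹ * a * R s) := by
    intro s a
    ext v
    rw [TT_apply, smul_apply, hbe, hbe, smul_eq_mul, ← Fr.weil]
    change _ = Fr.ω (R s (R s⁻¹ (a (R s (v 0))))) (R s (v 1))
    rw [hRi']
  have hP : ∀ s ∈ (⊤ : Subgroup Γ), ∀ φ, P (TT (R s) φ) = TT (R s) (P φ) := by
    intro s _ φ
    rw [← hba φ, hPbe, hTT, hTT, map_smul, hPbe]
    congr 2
    have h1 := hpj3 s⁻¹ (al φ)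
    rw [_root_.inv_inv] at h1
    exact h1
  have h1 := Fr.comm_gg hPT ⊤ inferInstance P hP hz (be x)
  rw [hPbe, hpj2 x hx] at h1
  have h2 : dF z (be x) = be (x * z - z * x) := by
    ext v
    rw [dF_apply, Fin.sum_univ_two, hbe, hbe, hbe, Function.update_self, Function.update_self,
      Function.update_of_ne (by decide), Function.update_of_ne (by decide), LinearMap.sub_apply,
      map_sub, LinearMap.sub_apply, Module.End.mul_apply, Module.End.mul_apply]
    linear_combination hz _ Fr.omega_tate (x (v 0)) (v 1)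
  rw [h2, hPbe] at h1
  have h3 := congrArg al h1
  rw [hab, hab] at h3
  rw [← h3]
  exact hpj1 _

/-- The Lie algebra is the Lie algebra of the product of the symplectic groups. -/
theorem SS_lieP [IsAlgClosed K] (hss : HasProj R)
    (hPT : ∀ (m : ℕ) (φ : MultilinearMap K (fun _ : Fin m × Fin 2 => X) K),
      IsTate R χ m φ → φ ∈ Submodule.span K (PT R χ m)) {γ : Γ} {A : ValuationSubring K}
    (hγ : Ord Fr γ A) {a b : ι} (hab : Fr.cls a = Fr.cls b) :
    SS Fr.ω (Fr.e a) (Fr.e b) ∈ lieP R χ := by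
  have hD := Fr.D_lieP hPT hγ
  -- equal signs
  have h1 : ∀ a b, Fr.cls a = Fr.cls b → Fr.sg a = Fr.sg b →
      SS Fr.ω (Fr.e a) (Fr.e b) ∈ lieP R χ := by
    intro a b hab hs
    have h1 := Fr.bracket_gg hss hPT hD (Fr.SS_gg hab)
    have hjj : jj K Fr.sg b = jj K Fr.sg a := by
      unfold jj
      rw [hs]
    have h2 : Fr.D * SS Fr.ω (Fr.e a) (Fr.e b) - SS Fr.ω (Fr.e a) (Fr.e b) * Fr.D =
        (2 * jj K Fr.sg a) • SS Fr.ω (Fr.e a) (Fr.e b) := by
      refine LinearMap.ext fun u => ?_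
      rw [LinearMap.sub_apply, Module.End.mul_apply, Module.End.mul_apply, LinearMap.smul_apply,
        SS_apply, SS_apply, map_add, map_smul, map_smul, D_e, D_e, hjj]
      have h3 := Fr.D_gg _ Fr.omega_tate (Fr.e a) u
      have h4 := Fr.D_gg _ Fr.omega_tate (Fr.e b) u
      rw [D_e, map_smul, LinearMap.smul_apply, smul_eq_mul] at h3 h4
      rw [hjj] at h4
      have h5 : Fr.ω (Fr.e a) (Fr.D u) = -(jj K Fr.sg a * Fr.ω (Fr.e a) u) := by
        linear_combination h3
      have h6 : Fr.ω (Fr.e b) (Fr.D u) = -(jj K Fr.sg a * Fr.ω (Fr.e b) u) := by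
        linear_combination h4
      rw [h5, h6]
      module
    rw [h2] at h1
    have h3 : (2 * jj K Fr.sg a : K) ≠ 0 := mul_ne_zero two_ne_zero (Fr.jj_ne a)
    have h4 := Submodule.smul_mem _ (2 * jj K Fr.sg a)⁻¹ h1
    rwa [smul_smul, inv_mul_cancel₀ h3, one_smul] at h4
  by_cases hs : Fr.sg a = Fr.sg b
  · exact h1 a b hab hs
  have hs' : Fr.sg (Fr.inv a) = Fr.sg b := by
    rw [Fr.sg_inv]
    cases h3 : Fr.sg a <;> cases h4 : Fr.sg b <;> rw [h3, h4] at hs <;> simp_all
  have h2 := lieP_bracket R χ (h1 a a rfl rfl) (h1 (Fr.inv a) b (by rw [Fr.cls_inv, hab]) hs')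
  rw [SS_bracket Fr.ω Fr.halt] at h2
  have hia : Fr.ω (Fr.e a) (Fr.e (Fr.inv a)) = jj K Fr.sg a := by
    rw [Fr.hω, JJ, if_pos rfl]
  rw [hia] at h2
  by_cases hb : b = Fr.inv a
  · subst hb
    rw [hia] at h2
    have h3 : (jj K Fr.sg a • SS Fr.ω (Fr.e a) (Fr.e (Fr.inv a)) +
        jj K Fr.sg a • SS Fr.ω (Fr.e a) (Fr.e (Fr.inv a)) +
        jj K Fr.sg a • SS Fr.ω (Fr.e a) (Fr.e (Fr.inv a)) +
        jj K Fr.sg a • SS Fr.ω (Fr.e a) (Fr.e (Fr.inv a))) =
        (4 * jj K Fr.sg a) • SS Fr.ω (Fr.e a) (Fr.e (Fr.inv a)) := by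
      module
    rw [h3] at h2
    have h4 : (4 * jj K Fr.sg a : K) ≠ 0 := mul_ne_zero (by norm_num) (Fr.jj_ne a)
    have h5 := Submodule.smul_mem _ (4 * jj K Fr.sg a)⁻¹ h2
    rwa [smul_smul, inv_mul_cancel₀ h4, one_smul] at h5
  · have h0 : Fr.ω (Fr.e a) (Fr.e b) = 0 := by rw [Fr.hω, JJ, if_neg hb]
    rw [h0, zero_smul, add_zero, add_zero] at h2
    have h3 : (jj K Fr.sg a • SS Fr.ω (Fr.e a) (Fr.e b) +
        jj K Fr.sg a • SS Fr.ω (Fr.e a) (Fr.e b)) =
        (2 * jj K Fr.sg a) • SS Fr.ω (Fr.e a) (Fr.e b) := by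
      module
    rw [h3] at h2
    have h4 : (2 * jj K Fr.sg a : K) ≠ 0 := mul_ne_zero two_ne_zero (Fr.jj_ne a)
    have h5 := Submodule.smul_mem _ (2 * jj K Fr.sg a)⁻¹ h2
    rwa [smul_smul, inv_mul_cancel₀ h4, one_smul] at h5

theorem DD_eq (y : ι) : DD Fr.e Fr.inv y =
    (-jj K Fr.sg y) • SS Fr.ω (Fr.e y) (Fr.e (Fr.inv y)) := by
  refine Fr.e.ext fun x => ?_
  rw [DD_basis, LinearMap.smul_apply, SS_apply, Fr.hω, Fr.hω]
  unfold dd JJ
  rw [Fr.inv_inv, Fr.jj_inv]
  by_cases h1 : x = y
  · subst h1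
    rw [if_pos rfl, if_neg (Fr.inv_ne x).symm, if_neg (Fr.inv_ne x).symm, if_pos rfl]
    rcases Fr.jj_one x with h | h <;> rw [h] <;> simp
  · by_cases h2 : x = Fr.inv y
    · subst h2
      rw [if_neg (Fr.inv_ne y), if_pos rfl, if_pos rfl, if_neg (Fr.inv_ne y)]
      rcases Fr.jj_one y with h | h <;> rw [h] <;> simp
    · rw [if_neg h1, if_neg h2, if_neg h2, if_neg h1]
      simp

include Fr in
/-- **Semisimplicity of the spaces of forms.** -/
theorem hasProjF [IsAlgClosed K] (hss : HasProj R)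
    (hPT : ∀ (m : ℕ) (φ : MultilinearMap K (fun _ : Fin m × Fin 2 => X) K),
      IsTate R χ m φ → φ ∈ Submodule.span K (PT R χ m)) {γ : Γ} {A : ValuationSubring K}
    (hγ : Ord Fr γ A) (Δ : Subgroup Γ) (hΔ : Δ.FiniteIndex) : HasProjF R Δ := by
  classical
  intro κ _ _ U hU
  let f := Fintype.equivFin κ
  let L : MultilinearMap K (fun _ : κ => X) K →ₗ[K]
      MultilinearMap K (fun _ : Fin (Fintype.card κ) => X) K :=
    { toFun := fun φ => φ.domDomCongr f
      map_add' := fun _ _ => rfl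
      map_smul' := fun _ _ => rfl }
  let L' : MultilinearMap K (fun _ : Fin (Fintype.card κ) => X) K →ₗ[K]
      MultilinearMap K (fun _ : κ => X) K :=
    { toFun := fun φ => φ.domDomCongr f.symm
      map_add' := fun _ _ => rfl
      map_smul' := fun _ _ => rfl }
  have hL : ∀ φ, L' (L φ) = φ := by
    intro φ
    ext v
    change φ (fun i => v (f.symm (f i))) = φ v
    congr 1
    funext i
    rw [Equiv.symm_apply_apply]
  have hLT : ∀ s φ, L (TT (R s) φ) = TT (R s) (L φ) := fun _ _ => rfl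
  have hLT' : ∀ s φ, L' (TT (R s) φ) = TT (R s) (L' φ) := fun _ _ => rfl
  obtain ⟨P, hP1, hP2, hP3⟩ := proj_group Fr.e (lieP R χ)
    (fun X hX Y hY => lieP_bracket R χ hX hY)
    (fun y => by
      rw [Fr.DD_eq]
      exact Submodule.smul_mem _ _ (Fr.SS_lieP hss hPT hγ (Fr.cls_inv y).symm))
    Fr.inv_inv Fr.inv_ne Fr.jj_inv Fr.jj_ne Fr.ω Fr.hω
    (fun X hX u w => lieT_sp R χ Fr.ω Fr.weil (lieP_le R χ hX) u w) R χ
    (fun s X hX => lieP_conj R χ s hX) hss
    (fun Δ hΔ P hP X hX v => lieT_comm Fr.e Fr.inv_inv Fr.jj_ne Fr.ω Fr.hω R χ Fr.weil Δ hΔ P hP X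
      (lieP_le R χ hX) v)
    Fr.weil Fr.jj_one Δ (U.map L)
    (by
      rintro s hs _ ⟨φ, hφ, rfl⟩
      exact ⟨TT (R s) φ, hU s hs φ hφ, hLT s φ⟩)
    (by
      rintro a b hab _ ⟨φ, hφ, rfl⟩
      refine hab.2 _ Δ hΔ (U.map L) ?_ _ ⟨φ, hφ, rfl⟩
      rintro s hs _ ⟨φ, hφ, rfl⟩
      exact ⟨TT (R s) φ, hU s hs φ hφ, hLT s φ⟩)
  refine ⟨L'.comp (P.comp L), fun φ => ?_, fun φ hφ => ?_, fun s hs φ => ?_⟩
  · obtain ⟨ψ, hψ, h⟩ := hP1 (L φ)
    change L' (P (L φ)) ∈ U
    rw [← h, hL]
    exact hψ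
  · change L' (P (L φ)) = φ
    rw [hP2 _ ⟨φ, hφ, rfl⟩, hL]
  · change L' (P (L (TT (R s) φ))) = TT (R s) (L' (P (L φ)))
    rw [hLT, hP3 s hs, hLT']

end Frame

end

end Pool.Agent.Y128.GT
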