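import Pool.Agent.Y128.GT.Ideal

/-!
# Forms in two groups of variables
-/

set_option linter.unusedSectionVars false

namespace Pool.Agent.Y128.GT

open Module Pool.Agent.H204R3.SP Pool.Agent.H204R3.GP Pool.Agent.W529.Ta
  Pool.Agent.TH131.GHC

noncomputable section

variable {K : Type} [Field K] [CharZero K] {X : Type} [AddCommGroup X] [Module K X]
  {Γ : Type} [Group Γ] {R : Representation K Γ X} {χ : Γ →* K}

section adj

variable (R χ) in
/-- `g'` is adjoint to `g` for all bilinear Tate forms. -/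
def Adj (g g' : Module.End K X) : Prop := ∀ B : X →ₗ[K] X →ₗ[K] K, IsTate2 R χ B →
  ∀ u v, B u (g v) = B (g' u) v ∧ B (g v) u = B v (g' u)

variable {ι Q : Type} [Fintype ι] [DecidableEq ι] [Fintype Q] [DecidableEq Q]
  (Fr : Frame R χ ι Q)

/-- Endomorphisms which preserve the classes have adjoints. -/
theorem Frame.exists_adj (G : ι → ι → K) (hG : ∀ x r, G x r ≠ 0 → Fr.cls r = Fr.cls x) :
    ∃ g g' : Module.End K X, (∀ x, g (Fr.e x) = ∑ r, G x r • Fr.e r) ∧ Adj R χ g g' := by
  classical
  let g : Module.End K X := Fr.e.constr K fun x => ∑ r, G x r • Fr.e r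
  let H : ι → ι → K := fun x s => G (Fr.inv s) (Fr.inv x) * jj K Fr.sg x * jj K Fr.sg s
  let g' : Module.End K X := Fr.e.constr K fun x => ∑ s, H x s • Fr.e s
  have hg : ∀ x, g (Fr.e x) = ∑ r, G x r • Fr.e r := fun x => Fr.e.constr_basis _ _ _
  have hg' : ∀ x, g' (Fr.e x) = ∑ s, H x s • Fr.e s := fun x => Fr.e.constr_basis _ _ _
  have hsq : ∀ x, jj K Fr.sg x * jj K Fr.sg x = 1 := by
    intro x
    rcases Fr.jj_one x with h | h <;> rw [h] <;> ring
  refine ⟨g, g', hg, fun B hB => ?_⟩
  obtain ⟨c, hc⟩ := Fr.tate2 hB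
  have h1 : ∀ x y, B (Fr.e x) (g (Fr.e y)) = c (Fr.cls x) * (G y (Fr.inv x) * jj K Fr.sg x) := by
    intro x y
    rw [hg, map_sum, Finset.sum_eq_single (Fr.inv x)]
    · rw [map_smul, hc, JJ, if_pos rfl, smul_eq_mul]
      ring
    · intro b _ hb
      rw [map_smul, hc, JJ, if_neg hb, mul_zero, smul_zero]
    · intro h
      exact absurd (Finset.mem_univ _) h
  have h2 : ∀ x y, B (g' (Fr.e x)) (Fr.e y) = c (Fr.cls y) * (G y (Fr.inv x) * jj K Fr.sg x) := by
    intro x y
    rw [hg', map_sum, LinearMap.sum_apply, Finset.sum_eq_single (Fr.inv y)]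
    · rw [map_smul, LinearMap.smul_apply, hc, JJ, Fr.inv_inv, if_pos rfl, smul_eq_mul, Fr.cls_inv]
      simp only [H, Fr.inv_inv]
      linear_combination (c (Fr.cls y) * G y (Fr.inv x) * jj K Fr.sg x) * hsq (Fr.inv y)
    · intro b _ hb
      rw [map_smul, LinearMap.smul_apply, hc, JJ, if_neg, mul_zero, smul_zero]
      intro h
      apply hb
      rw [h, Fr.inv_inv]
    · intro h
      exact absurd (Finset.mem_univ _) h
  have h3 : ∀ x y, B (g (Fr.e y)) (Fr.e x) = -(c (Fr.cls x) * (G y (Fr.inv x) * jj K Fr.sg x)) := by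
    intro x y
    rw [hg, map_sum, LinearMap.sum_apply, Finset.sum_eq_single (Fr.inv x)]
    · rw [map_smul, LinearMap.smul_apply, hc, JJ, Fr.inv_inv, if_pos rfl, smul_eq_mul, Fr.cls_inv,
        Fr.jj_inv]
      ring
    · intro b _ hb
      rw [map_smul, LinearMap.smul_apply, hc, JJ, if_neg, mul_zero, smul_zero]
      intro h
      apply hb
      rw [h, Fr.inv_inv]
    · intro h
      exact absurd (Finset.mem_univ _) h
  have h4 : ∀ x y, B (Fr.e y) (g' (Fr.e x)) = -(c (Fr.cls y) * (G y (Fr.inv x) * jj K Fr.sg x)) := by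
    intro x y
    rw [hg', map_sum, Finset.sum_eq_single (Fr.inv y)]
    · rw [map_smul, hc, JJ, if_pos rfl, smul_eq_mul]
      simp only [H, Fr.inv_inv, Fr.jj_inv]
      linear_combination (-c (Fr.cls y) * G y (Fr.inv x) * jj K Fr.sg x) * hsq y
    · intro b _ hb
      rw [map_smul, hc, JJ, if_neg hb, mul_zero, smul_zero]
    · intro h
      exact absurd (Finset.mem_univ _) h
  have h5 : ∀ x y, c (Fr.cls x) * (G y (Fr.inv x) * jj K Fr.sg x) =
      c (Fr.cls y) * (G y (Fr.inv x) * jj K Fr.sg x) := by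
    intro x y
    by_cases h : G y (Fr.inv x) = 0
    · rw [h, zero_mul, mul_zero, mul_zero]
    · rw [← hG _ _ h, Fr.cls_inv]
  have e1 : B.compl₂ g = B.comp g' := by
    refine Fr.e.ext fun x => Fr.e.ext fun y => ?_
    rw [LinearMap.compl₂_apply, LinearMap.comp_apply, h1, h2, h5]
  have e2 : B.comp g = B.compl₂ g' := by
    refine Fr.e.ext fun y => Fr.e.ext fun x => ?_
    rw [LinearMap.compl₂_apply, LinearMap.comp_apply, h3, h4, h5]
  intro u v
  exact ⟨congrArg (fun f : X →ₗ[K] X →ₗ[K] K => f u v) e1,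
    congrArg (fun f : X →ₗ[K] X →ₗ[K] K => f v u) e2⟩

end adj

section pe

variable {m : ℕ}

/-- Evaluation of a form in two groups of variables in the second group. -/
def pe (x : Fin m → X) : MultilinearMap K (fun _ : Fin m × Fin 2 => X) K →ₗ[K]
    MultilinearMap K (fun _ : Fin m => X) K where
  toFun φ := (MultilinearMap.currySum (N := fun _ : Fin m ⊕ Fin m => X)
    (φ.domDomCongr (twoCopies m).symm)) x
  map_add' _ _ := rfl
  map_smul' _ _ := rfl

/-- The two groups of variables. -/
def two (x y : Fin m → X) : Fin m × Fin 2 → X := fun i => if i.2 = 1 then x i.1 else y i.1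

theorem pe_apply (x y : Fin m → X) (φ : MultilinearMap K (fun _ : Fin m × Fin 2 => X) K) :
    pe x φ y = φ (two x y) := by
  change φ (fun i => Sum.elim x y ((twoCopies m).symm i)) = _
  congr 1
  funext i
  unfold two
  change Sum.elim x y (if i.2 = 1 then Sum.inl i.1 else Sum.inr i.1) = _
  split_ifs <;> rfl

theorem two_one (x y : Fin m → X) (i : Fin m × Fin 2) (h : i.2 = 1) : two x y i = x i.1 :=
  if_pos h

theorem two_zero (x y : Fin m → X) (i : Fin m × Fin 2) (h : i.2 = 0) : two x y i = y i.1 :=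
  if_neg (by rw [h]; decide)

variable (R χ m) in
/-- The forms which are products for all values of the second group of variables. -/
def Id2 : Submodule K (MultilinearMap K (fun _ : Fin m × Fin 2 => X) K) where
  carrier := {φ | ∀ x, pe x φ ∈ IJ R χ 1 (Fin m)}
  zero_mem' := fun x => by rw [map_zero]; exact Submodule.zero_mem _
  add_mem' := fun ha hb x => by rw [map_add]; exact Submodule.add_mem _ (ha x) (hb x)
  smul_mem' := fun c _ ha x => by rw [map_smul]; exact Submodule.smul_mem _ _ (ha x)

variable (R χ m) in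
/-- The mixed forms. -/
def Mx : Submodule K (MultilinearMap K (fun _ : Fin m × Fin 2 => X) K) where
  carrier := {φ | ∀ g g', Adj R χ g g' → ∀ x y : Fin m → X,
    pe x φ (fun k => g (y k)) = pe (fun k => g' (x k)) φ y}
  zero_mem' := fun g g' _ x y => by rw [map_zero, map_zero]; rfl
  add_mem' := by
    intro a b ha hb g g' h x y
    rw [map_add, map_add]
    change pe x a _ + pe x b _ = pe _ a y + pe _ b y
    rw [ha g g' h, hb g g' h]
  smul_mem' := by
    intro c a ha g g' h x y
    rw [map_smul, map_smul]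
    change c • pe x a _ = c • pe _ a y
    rw [ha g g' h]

/-- Products of bilinear Tate forms are in the ideal or mixed. -/
theorem PT_le : PT R χ m ⊆ (Id2 R χ m ⊔ Mx R χ m : Submodule K _) := by
  classical
  rintro φ ⟨σ, B, hB, rfl⟩
  by_cases h : ∃ l, (σ (l, 0)).2 = 0 ∧ (σ (l, 1)).2 = 0
  · obtain ⟨l, h0, h1⟩ := h
    refine Submodule.mem_sup_left fun x => ?_
    have hab : (σ (l, 0)).1 ≠ (σ (l, 1)).1 := by
      intro h
      have h2 : σ (l, 0) = σ (l, 1) := Prod.ext h (h0.trans h1.symm)
      exact absurd (congrArg Prod.snd (σ.injective h2)) (by decide : (0 : Fin 2) ≠ 1)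
    refine mem_one R χ hab (hB l) _ (fun y => ∏ l' ∈ Finset.univ.erase l,
      B l' (two x y (σ (l', 0))) (two x y (σ (l', 1)))) ?_ fun y => ?_
    · intro y u w
      refine Finset.prod_congr rfl fun l' hl' => ?_
      have hne : ∀ (i : Fin m × Fin 2), i.1 ≠ l → two x (Function.update (Function.update y
          (σ (l, 0)).1 u) (σ (l, 1)).1 w) (σ i) = two x y (σ i) := by
        intro i hi
        by_cases h2 : (σ i).2 = 1
        · rw [two_one _ _ _ h2, two_one _ _ _ h2]
        · have h3 : (σ i).2 = 0 := by omega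
          rw [two_zero _ _ _ h3, two_zero _ _ _ h3, Function.update_of_ne, Function.update_of_ne]
          · intro h4
            have h5 : σ i = σ (l, 0) := Prod.ext h4 (h3.trans h0.symm)
            exact hi (congrArg Prod.fst (σ.injective h5))
          · intro h4
            have h5 : σ i = σ (l, 1) := Prod.ext h4 (h3.trans h1.symm)
            exact hi (congrArg Prod.fst (σ.injective h5))
      have hl := Finset.ne_of_mem_erase hl'
      rw [hne (l', 0) hl, hne (l', 1) hl]
    · rw [pe_apply, mmG_apply, ← Finset.mul_prod_erase _ _ (Finset.mem_univ l),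
        two_zero _ _ _ h0, two_zero _ _ _ h1]
  · push Not at h
    refine Submodule.mem_sup_right ?_
    -- each pair has exactly one variable in each group
    have hcount : ∀ l, ((σ (l, 0)).2 = 0 ∧ (σ (l, 1)).2 = 1) ∨
        ((σ (l, 0)).2 = 1 ∧ (σ (l, 1)).2 = 0) := by
      let f : Fin m → ℕ := fun l => (if (σ (l, 0)).2 = 0 then 1 else 0) +
        (if (σ (l, 1)).2 = 0 then 1 else 0)
      have h1 : ∑ l, f l = m := by
        have h2 : ∑ i : Fin m × Fin 2, (if (σ i).2 = 0 then 1 else 0) =
            ∑ i : Fin m × Fin 2, (if i.2 = 0 then 1 else 0) :=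
          Equiv.sum_comp σ (fun i : Fin m × Fin 2 => if i.2 = 0 then 1 else 0)
        rw [Fintype.sum_prod_type, Fintype.sum_prod_type] at h2
        simp only [Fin.sum_univ_two] at h2
        calc ∑ l, f l = _ := h2
          _ = m := by simp
      have h2 : ∀ l, f l ≤ 1 := by
        intro l
        have h3 := h l
        simp only [f]
        split_ifs with h4 h5
        · exact absurd h5 (h3 h4)
        all_goals omega
      have h3 : ∀ l, f l = 1 := by
        by_contra hcon
        push Not at hcon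
        obtain ⟨l, hl⟩ := hcon
        have h4 : ∑ l, f l < ∑ _l : Fin m, 1 :=
          Finset.sum_lt_sum (fun l _ => h2 l) ⟨l, Finset.mem_univ l, lt_of_le_of_ne (h2 l) hl⟩
        rw [h1] at h4
        simp at h4
      intro l
      have h4 := h3 l
      simp only [f] at h4
      have h5 : (σ (l, 0)).2 = 0 ∨ (σ (l, 0)).2 = 1 := by omega
      have h6 : (σ (l, 1)).2 = 0 ∨ (σ (l, 1)).2 = 1 := by omega
      rcases h5 with h5 | h5 <;> rcases h6 with h6 | h6 <;> rw [h5, h6] at h4
      · exact absurd h4 (by decide)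
      · exact Or.inl ⟨h5, h6⟩
      · exact Or.inr ⟨h5, h6⟩
      · exact absurd h4 (by decide)
    intro g g' hgg x y
    rw [pe_apply, pe_apply, mmG_apply, mmG_apply]
    refine Finset.prod_congr rfl fun l _ => ?_
    rcases hcount l with ⟨h1, h2⟩ | ⟨h1, h2⟩
    · rw [two_zero _ _ _ h1, two_one _ _ _ h2, two_zero _ _ _ h1, two_one _ _ _ h2]
      exact (hgg _ (hB l) _ _).2
    · rw [two_one _ _ _ h1, two_zero _ _ _ h2, two_one _ _ _ h1, two_zero _ _ _ h2]
      exact (hgg _ (hB l) _ _).1

end pe

end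

end Pool.Agent.Y128.GT
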