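import Pool.Agent.Y128.GT.FrameOf

/-!
# Ordinary Frobenius elements
-/

set_option linter.unusedSectionVars false

namespace Pool.Agent.Y128.GT

open Module Polynomial Pool.Agent.H204R3.SP Pool.Agent.H204R3.GP Pool.Agent.W529.Ta
  Pool.Agent.W522.U

noncomputable section

/-- A valuation ring in which a prime number is not invertible. -/
theorem exists_val (p : ℕ) [hp : Fact p.Prime] (Ω : Type) [Field Ω] [CharZero Ω] :
    ∃ A : ValuationSubring Ω, ((p : Ω))⁻¹ ∉ A := by
  let S : Subring Ω := (Int.castRingHom Ω).range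
  let pS : S := ⟨(p : Ω), ⟨(p : ℤ), by simp⟩⟩
  have hI : Ideal.span {pS} ≠ ⊤ := by
    intro h
    have h1 : (1 : S) ∈ Ideal.span {pS} := by rw [h]; trivial
    rw [Ideal.mem_span_singleton] at h1
    obtain ⟨⟨_, ⟨c, rfl⟩⟩, hc⟩ := h1
    have h2 : (1 : Ω) = (p : Ω) * ((c : ℤ) : Ω) := congrArg Subtype.val hc
    have h3 : (1 : ℤ) = (p : ℤ) * c := by exact_mod_cast h2
    have h4 : (p : ℤ) ∣ 1 := ⟨c, h3⟩
    have h5 : p ∣ 1 := by exact_mod_cast h4
    exact hp.out.one_lt.ne' (Nat.dvd_one.1 h5)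
  obtain ⟨B, hB1, hB2⟩ := Ideal.image_subset_nonunits_valuationSubring _ hI
  refine ⟨B, fun h => ?_⟩
  have h1 : (p : Ω) ∈ B.nonunits := hB2 ⟨pS, Ideal.subset_span rfl, rfl⟩
  rw [ValuationSubring.mem_nonunits_iff] at h1
  rw [← ValuationSubring.valuation_le_one_iff, map_inv₀] at h
  have h0 : B.valuation (p : Ω) ≠ 0 := by
    rw [Valuation.ne_zero_iff]
    exact Nat.cast_ne_zero.2 hp.out.ne_zero
  have h2 : B.valuation (p : Ω) * (B.valuation (p : Ω))⁻¹ = 1 := mul_inv_cancel₀ h0
  have h3 : B.valuation (p : Ω) * (B.valuation (p : Ω))⁻¹ < 1 :=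
    mul_lt_one_of_lt_of_le h1 h
  rw [h2] at h3
  exact lt_irrefl _ h3

theorem mem_of_integral {Ω : Type} [Field Ω] (A : ValuationSubring Ω) {x : Ω}
    (hx : IsIntegral ℤ x) : x ∈ A := by
  have h1 : IsIntegral A x := hx.tower_top
  obtain ⟨y, hy⟩ := IsIntegrallyClosed.isIntegral_iff.1 h1
  rw [← hy]
  exact y.2

/-- Ordinary polynomials: one member of each pair of roots is a unit. -/
theorem ord_dichotomy (p : ℕ) [hp : Fact p.Prime] {a : ℕ} (ha : 0 < a) {Ω : Type} [Field Ω]
    [CharZero Ω] {n : ℕ} (α : Fin n ⊕ Fin n → Ω) (P : ℤ[X])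
    (hP : P.map (Int.castRingHom Ω) = ∏ x, (X - C (α x)))
    (hαα : ∀ x, α x * α x.swap = (p : Ω) ^ a) (hc : ¬ (p : ℤ) ∣ P.coeff n)
    (A : ValuationSubring Ω) (hA : ((p : Ω))⁻¹ ∉ A) (x : Fin n ⊕ Fin n) :
    α x ∈ A ∧ ((α x)⁻¹ ∈ A ∨ (α x.swap)⁻¹ ∈ A) := by
  classical
  have hmon : P.Monic := by
    refine Polynomial.monic_of_injective (RingHom.injective_int (Int.castRingHom Ω)) ?_
    rw [hP]
    exact monic_prod_of_monic _ _ fun x _ => monic_X_sub_C _
  have hint : ∀ x, α x ∈ A := by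
    intro x
    refine mem_of_integral A ⟨P, hmon, ?_⟩
    rw [← eval_map, algebraMap_int_eq, hP, eval_prod]
    exact Finset.prod_eq_zero (Finset.mem_univ x) (by simp)
  refine ⟨hint x, ?_⟩
  by_contra hcon
  push Not at hcon
  -- not both members of a pair are units
  have hpair : ∀ y, ¬ ((α y)⁻¹ ∈ A ∧ (α y.swap)⁻¹ ∈ A) := by
    rintro y ⟨h1, h2⟩
    apply hA
    have h3 := A.mul_mem _ _ h1 h2
    rw [← mul_inv, hαα] at h3
    obtain ⟨b, rfl⟩ : ∃ b, a = b + 1 := ⟨a - 1, by omega⟩
    have h4 := A.mul_mem _ _ (A.pow_mem (natCast_mem A p) b) h3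
    have h5 : (p : Ω) ^ b * ((p : Ω) ^ (b + 1))⁻¹ = (p : Ω)⁻¹ := by
      have : (p : Ω) ≠ 0 := Nat.cast_ne_zero.2 hp.out.ne_zero
      rw [pow_succ]
      field_simp
    rwa [h5] at h4
  let S : Finset (Fin n ⊕ Fin n) := Finset.univ.filter fun y => (α y)⁻¹ ∉ A
  have hS : n < S.card := by
    -- an injection
    obtain ⟨i, hi1, hi2⟩ : ∃ i : Fin n, (α (Sum.inl i))⁻¹ ∉ A ∧ (α (Sum.inr i))⁻¹ ∉ A := by
      rcases x with i | i
      · exact ⟨i, hcon⟩
      · exact ⟨i, hcon.2, hcon.1⟩
    let g : Option (Fin n) → Fin n ⊕ Fin n := fun o => o.elim (Sum.inl i) fun j =>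
      if j = i then Sum.inr i else if (α (Sum.inl j))⁻¹ ∉ A then Sum.inl j else Sum.inr j
    have hg : ∀ o, g o ∈ S := by
      rintro (_ | j)
      · exact Finset.mem_filter.2 ⟨Finset.mem_univ _, hi1⟩
      · refine Finset.mem_filter.2 ⟨Finset.mem_univ _, ?_⟩
        change (α (if j = i then Sum.inr i else if (α (Sum.inl j))⁻¹ ∉ A then Sum.inl j
          else Sum.inr j))⁻¹ ∉ A
        split_ifs with h1 h2
        · exact hi2
        · intro h3
          exact hpair (Sum.inl j) ⟨h2, h3⟩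
        · exact h2
    have hginj : Function.Injective g := by
      rintro (_ | j) (_ | l) h
      · rfl
      · exfalso
        change Sum.inl i = (if l = i then Sum.inr i else if (α (Sum.inl l))⁻¹ ∉ A then Sum.inl l
          else Sum.inr l) at h
        split_ifs at h with h1 h2
        exact h1 (Sum.inl_injective h).symm
      · exfalso
        change (if j = i then Sum.inr i else if (α (Sum.inl j))⁻¹ ∉ A then Sum.inl j
          else Sum.inr j) = Sum.inl i at h
        split_ifs at h with h1 h2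
        exact h1 (Sum.inl_injective h)
      · have key : ∀ j : Fin n, (g (some j)).elim id id = j := by
          intro j
          change (if j = i then Sum.inr i else if (α (Sum.inl j))⁻¹ ∉ A then Sum.inl j
            else Sum.inr j).elim id id = j
          split_ifs with h1 h2
          · exact h1.symm
          · rfl
          · rfl
        rw [← key j, ← key l, h]
    have h1 := Finset.card_le_card_of_injOn (s := Finset.univ) (t := S) g
      (fun o _ => hg o) (fun o _ o' _ h => hginj h)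
    rw [Finset.card_univ, Fintype.card_option, Fintype.card_fin] at h1
    omega
  -- reduction
  let a' : Fin n ⊕ Fin n → A := fun y => ⟨α y, hint y⟩
  have hPA : P.map (Int.castRingHom A) = ∏ y, (X - C (a' y)) := by
    apply Polynomial.map_injective (algebraMap A Ω) (IsFractionRing.injective A Ω)
    rw [Polynomial.map_map, Polynomial.map_prod]
    have h1 : (algebraMap A Ω).comp (Int.castRingHom A) = Int.castRingHom Ω :=
      RingHom.ext_int _ _
    rw [h1, hP]
    refine Finset.prod_congr rfl fun y _ => ?_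
    rw [Polynomial.map_sub, Polynomial.map_X, Polynomial.map_C]
    rfl
  have hres : ∀ y ∈ S, IsLocalRing.residue A (a' y) = 0 := by
    intro y hy
    rw [IsLocalRing.residue_eq_zero_iff, IsLocalRing.mem_maximalIdeal, mem_nonunits_iff]
    intro hu
    obtain ⟨u, hu⟩ := hu
    apply (Finset.mem_filter.1 hy).2
    have h1 : α y * ((u⁻¹ : Aˣ) : A) = 1 := by
      have h2 : (a' y) * ((u⁻¹ : Aˣ) : A) = 1 := by rw [← hu, Units.mul_inv]
      exact congrArg Subtype.val h2
    rw [← eq_inv_of_mul_eq_one_right h1]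
    exact SetLike.coe_mem _
  have hPk : (P.map (Int.castRingHom A)).map (IsLocalRing.residue A) =
      X ^ S.card * ∏ y ∈ Sᶜ, (X - C (IsLocalRing.residue A (a' y))) := by
    rw [hPA, Polynomial.map_prod, ← Finset.prod_mul_prod_compl S]
    congr 1
    · rw [← Finset.prod_const]
      refine Finset.prod_congr rfl fun y hy => ?_
      rw [Polynomial.map_sub, Polynomial.map_X, Polynomial.map_C, hres y hy, C_0, sub_zero]
    · refine Finset.prod_congr rfl fun y _ => ?_
      rw [Polynomial.map_sub, Polynomial.map_X, Polynomial.map_C]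
  have hcoef := congrArg (fun Q => Polynomial.coeff Q n) hPk
  simp only [Polynomial.coeff_map] at hcoef
  rw [Polynomial.coeff_X_pow_mul', if_neg (not_le.2 hS)] at hcoef
  -- p is not invertible
  have hpres : IsLocalRing.residue A ((p : ℕ) : A) = 0 := by
    rw [IsLocalRing.residue_eq_zero_iff, IsLocalRing.mem_maximalIdeal, mem_nonunits_iff]
    rintro ⟨u, hu⟩
    apply hA
    have h1 : (p : Ω) * ((u⁻¹ : Aˣ) : A) = 1 := by
      have h2 : ((p : ℕ) : A) * ((u⁻¹ : Aˣ) : A) = 1 := by rw [← hu, Units.mul_inv]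
      exact congrArg Subtype.val h2
    rw [← eq_inv_of_mul_eq_one_right h1]
    exact SetLike.coe_mem _
  have hcop : IsCoprime (p : ℤ) (P.coeff n) :=
    ((Nat.prime_iff_prime_int.1 hp.out).coprime_iff_not_dvd).2 hc
  obtain ⟨u, v, huv⟩ := hcop
  have h1 : (IsLocalRing.residue A).comp (Int.castRingHom A) (u * p + v * P.coeff n) = 0 := by
    rw [map_add, map_mul, map_mul]
    have h2 : (IsLocalRing.residue A).comp (Int.castRingHom A) (p : ℤ) = 0 := by
      rw [RingHom.comp_apply]
      simpa using hpres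
    have h3 : (IsLocalRing.residue A).comp (Int.castRingHom A) (P.coeff n) = 0 := hcoef
    rw [h2, h3, mul_zero, mul_zero, add_zero]
  rw [huv, map_one] at h1
  exact one_ne_zero h1

end

end Pool.Agent.Y128.GT
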