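import Pool.Agent.Y128.GT.LieB
import Pool.Agent.W522.U.C9

/-!
# The sum of the representatives of the strongly irreducible subspaces
-/

set_option linter.unusedSectionVars false

namespace Pool.Agent.Y128.GT

open Module Pool.Agent.H204R3.SP Pool.Agent.H204R3.GP Pool.Agent.W529.Ta Pool.Agent.W522.U

noncomputable section

variable {K : Type} [Field K] [CharZero K] {X : Type} [AddCommGroup X] [Module K X]
  {Γ : Type} [Group Γ]

/-- Representatives of the isomorphism classes of the strongly irreducible subspaces, which are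
supposed to be symplectic. -/
structure Reps (R : Representation K Γ X) (χ : Γ →* K) (s : ℕ) where
  /-- the subspaces -/
  W : Fin s → Submodule K X
  si : ∀ i, SI R (W i)
  iso : ∀ i j, Tw R (fun _ => 1) (W i) (W j) → i = j
  all : ∀ U, SI R U → ∃ i, Tw R (fun _ => 1) U (W i)
  /-- a subgroup under which they are stable -/
  Δ : Subgroup Γ
  fi : Δ.FiniteIndex
  st : ∀ i, ∀ g ∈ Δ, ∀ u ∈ W i, R g u ∈ W i
  /-- the forms -/
  B : Fin s → X →ₗ[K] X →ₗ[K] K
  alt : ∀ i, ∀ u ∈ W i, B i u u = 0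
  ne : ∀ i, ∃ u ∈ W i, ∃ v ∈ W i, B i u v ≠ 0
  sim : ∀ i, ∀ g ∈ Δ, ∀ u ∈ W i, ∀ v ∈ W i, B i (R g u) (R g v) = χ g * B i u v

/-- The strongly irreducible subspaces are symplectic. -/
def Sympl (R : Representation K Γ X) (χ : Γ →* K) : Prop :=
  ∀ U : Submodule K X, SI R U → ∃ (B : X →ₗ[K] X →ₗ[K] K) (Δ : Subgroup Γ), Δ.FiniteIndex ∧
    (∀ u ∈ U, B u u = 0) ∧ (∃ u ∈ U, ∃ v ∈ U, B u v ≠ 0) ∧
    ∀ g ∈ Δ, ∀ u ∈ U, ∀ v ∈ U, B (R g u) (R g v) = χ g * B u v

theorem exists_Reps [FiniteDimensional K X] {R : Representation K Γ X} {χ : Γ →* K}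
    (hss : HasProj R) (h : Sympl R χ) : ∃ s, Nonempty (Reps R χ s) := by
  classical
  obtain ⟨s, W, h1, h2, h3⟩ := exists_reps hss
  choose B D hD hB1 hB2 hB3 using fun i => h (W i) (h1 i)
  choose D' hD' hDs using fun i => (h1 i).2.1
  exact ⟨s, ⟨{
    W := W
    si := h1
    iso := h2
    all := h3
    Δ := ⨅ i, D i ⊓ D' i
    fi := Subgroup.finiteIndex_iInf (fun i => inferInstance)
    st := fun i g hg u hu => hDs i g ((Subgroup.mem_iInf.1 hg i).2) u hu
    B := B
    alt := hB1
    ne := hB2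
    sim := fun i g hg => hB3 i g ((Subgroup.mem_iInf.1 hg i).1) }⟩⟩

variable {R : Representation K Γ X} {χ : Γ →* K} {s : ℕ} (D : Reps R χ s)

namespace Reps

/-- The sum of the representatives. -/
abbrev E : Type := ∀ i, D.W i

/-- The representation on the sum of the representatives. -/
def rE : Representation K D.Δ D.E := piRep (fun i => resR R D.Δ (D.W i) (D.st i))

/-- The character. -/
def cE : D.Δ →* K := χ.comp D.Δ.subtype

theorem rE_apply (g : D.Δ) (u : D.E) (i : Fin s) : ((D.rE g u i : D.W i) : X) = R g.1 (u i) := rfl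

theorem rE_single [FiniteDimensional K X] (g : D.Δ) (i : Fin s) (u : D.W i) :
    D.rE g (Pi.single i u) = Pi.single i (resR R D.Δ (D.W i) (D.st i) g u) :=
  piRep_single (r := fun i => resR R D.Δ (D.W i) (D.st i)) g i u

/-- The lemma of Schur. -/
theorem schur [IsAlgClosed K] [FiniteDimensional K X] (Δ' : Subgroup D.Δ) (hΔ' : Δ'.FiniteIndex)
    (P : Module.End K D.E) (hP : ∀ g ∈ Δ', ∀ v, P (D.rE g v) = D.rE g (P v)) :
    ∃ c : Fin s → K, ∀ i (u : D.W i), P (Pi.single i u) = c i • Pi.single i u := by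
  classical
  have hΔ'' := fi_map D.fi Δ' hΔ'
  choose p hp using fun i => exists_pr (K := K) (D.W i)
  -- the components
  let T : Fin s → Fin s → (X →ₗ[K] X) := fun i j =>
    (D.W j).subtype.comp ((LinearMap.proj j).comp (P.comp
      ((LinearMap.single K (fun i => D.W i) i).comp (p i))))
  have hT : ∀ i j (u : D.W i), T i j u = (P (Pi.single i u) j : X) := by
    intro i j u
    change ((P (Pi.single i (p i u)) j : D.W j) : X) = _
    rw [hp]
  have hTeq : ∀ i j, ∀ g ∈ Δ'.map D.Δ.subtype, ∀ u ∈ D.W i, T i j (R g u) = R g (T i j u) := by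
    rintro i j _ ⟨g, hg, rfl⟩ u hu
    have h1 := hT i j ⟨u, hu⟩
    have h2 := hT i j ⟨R g.1 u, D.st i g.1 g.2 u hu⟩
    change T i j u = _ at h1
    change T i j (R g.1 u) = _ at h2
    change T i j (R g.1 u) = R g.1 (T i j u)
    rw [h1, h2]
    have h3 := hP g hg (Pi.single i ⟨u, hu⟩)
    rw [rE_single] at h3
    have h4 := congrArg (fun w : D.E => (w j : X)) h3
    exact h4
  have hoff : ∀ i j, i ≠ j → ∀ u : D.W i, P (Pi.single i u) j = 0 := by
    intro i j hij u
    by_contra hne
    apply hij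
    refine D.iso i j ⟨_, hΔ'', T i j, fun u _ => SetLike.coe_mem _, ⟨u, u.2, ?_⟩, ?_⟩
    · rw [hT]
      exact fun h => hne (Subtype.ext h)
    · intro g hg u hu
      rw [one_smul]
      exact hTeq i j g hg u hu
  have hdiag : ∀ i, ∃ c : K, ∀ u : D.W i, P (Pi.single i u) i = c • u := by
    intro i
    have hnt : Nontrivial (D.W i) := by
      obtain ⟨u, hu, hu0⟩ := Submodule.exists_mem_ne_zero_of_ne_bot (D.si i).1
      exact ⟨⟨u, hu⟩, 0, fun h => hu0 (congrArg Subtype.val h)⟩
    let f : Module.End K (D.W i) := (LinearMap.proj i).comp (P.comp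
      (LinearMap.single K (fun i => D.W i) i))
    obtain ⟨c, hc⟩ := Module.End.exists_eigenvalue f
    obtain ⟨v, hv⟩ := hc.exists_hasEigenvector
    refine ⟨c, ?_⟩
    by_contra hcon
    push Not at hcon
    obtain ⟨u, hu⟩ := hcon
    have h1 := tw_inj (R := R) (ψ := fun _ => 1) (T := T i i - c • LinearMap.id) (D.si i) hΔ''
      ⟨u, u.2, by
        rw [LinearMap.sub_apply, hT, LinearMap.smul_apply, LinearMap.id_apply]
        intro h
        apply hu
        apply Subtype.ext
        rw [sub_eq_zero] at h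
        rw [h]
        rfl⟩
      (by
        intro g hg u hu
        rw [one_smul, LinearMap.sub_apply, LinearMap.sub_apply, map_sub, hTeq i i g hg u hu,
          LinearMap.smul_apply, LinearMap.smul_apply, LinearMap.id_apply, LinearMap.id_apply,
          map_smul]) (v : X) v.2 (by
        rw [LinearMap.sub_apply, hT, LinearMap.smul_apply, LinearMap.id_apply]
        have h2 : f v = c • v := hv.apply_eq_smul
        have h3 : P (Pi.single i v) i = c • v := h2
        rw [h3]
        exact sub_self _)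
    exact hv.2 (Subtype.ext h1)
  choose c hc using hdiag
  refine ⟨c, fun i u => ?_⟩
  funext j
  by_cases hij : i = j
  · subst hij
    rw [hc, Pi.smul_apply, Pi.single_eq_same]
  · rw [hoff i j hij, Pi.smul_apply, Pi.single_eq_of_ne (Ne.symm hij), smul_zero]

theorem hasProj [FiniteDimensional K X] : HasProj D.rE := by
  classical
  refine hasProj_pi fun i Δ' hΔ' U hU => ?_
  have hΔ'' := fi_map D.fi Δ' hΔ'
  have h1 : Pot R (U.map (D.W i).subtype) := by
    refine ⟨_, hΔ'', ?_⟩
    rintro _ ⟨g, hg, rfl⟩ _ ⟨u, hu, rfl⟩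
    exact ⟨_, hU g hg u hu, rfl⟩
  rcases (D.si i).2.2 _ (Submodule.map_subtype_le _ _) h1 with h2 | h2
  · left
    rw [eq_bot_iff]
    intro x hx
    have h3 : (x : X) ∈ U.map (D.W i).subtype := ⟨x, hx, rfl⟩
    rw [h2, Submodule.mem_bot] at h3
    rw [Submodule.mem_bot]
    exact Subtype.ext h3
  · right
    rw [eq_top_iff]
    intro x _
    have h3 : (x : X) ∈ U.map (D.W i).subtype := by
      rw [h2]
      exact x.2
    obtain ⟨y, hy, hyx⟩ := h3
    rwa [← (show y = x from Subtype.ext hyx)]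

end Reps

end

end Pool.Agent.Y128.GT
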