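import Pool.Agent.Y128.GT.Base

/-!
# Slopes of forms
-/

set_option linter.unusedSectionVars false

namespace Pool.Agent.Y128.GT

open Module Polynomial Pool.Agent.H204R3.SP Pool.Agent.H204R3.GP Pool.Agent.W529.Ta
  Pool.Agent.TH131.GHC

noncomputable section

variable {K : Type} [Field K] [CharZero K] {X : Type} [AddCommGroup X] [Module K X]
  {Γ : Type} [Group Γ] {R : Representation K Γ X} {χ : Γ →* K}
  {ι Q : Type} [Fintype ι] [DecidableEq ι] [Fintype Q] [DecidableEq Q]

section diag

variable {κ : Type} [Fintype κ] [DecidableEq κ] (e : Basis ι K X)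

/-- A polynomial in a diagonal operator. -/
theorem aeval_diag {T : Module.End K (MultilinearMap K (fun _ : κ => X) K)} {Λ : (κ → ι) → K}
    (hT : ∀ φ I, T φ (fun k => e (I k)) = Λ I * φ (fun k => e (I k))) (P : K[X])
    (φ : MultilinearMap K (fun _ : κ => X) K) (I : κ → ι) :
    (aeval T P φ) (fun k => e (I k)) = P.eval (Λ I) * φ (fun k => e (I k)) := by
  induction P using Polynomial.induction_on' with
  | add p p' hp hp' =>
    rw [map_add, LinearMap.add_apply, Polynomial.eval_add, add_mul, ← hp, ← hp']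
    rfl
  | monomial n a =>
    rw [Polynomial.aeval_monomial, Polynomial.eval_monomial, Module.End.mul_apply]
    have h1 : ∀ n : ℕ, ((T ^ n) φ) (fun k => e (I k)) = Λ I ^ n * φ (fun k => e (I k)) := by
      intro n
      induction n with
      | zero => rw [pow_zero, pow_zero, one_mul]; rfl
      | succ n ih => rw [pow_succ', Module.End.mul_apply, hT, ih, pow_succ', mul_assoc]
    change a * ((T ^ n) φ) (fun k => e (I k)) = _
    rw [h1, mul_assoc]

theorem aeval_mem {W : Type*} [AddCommGroup W] [Module K W] {T : Module.End K W}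
    {U : Submodule K W} (hU : ∀ u ∈ U, T u ∈ U) (P : K[X]) : ∀ u ∈ U, aeval T P u ∈ U := by
  intro u hu
  induction P using Polynomial.induction_on' with
  | add p p' hp hp' =>
    rw [map_add, LinearMap.add_apply]
    exact U.add_mem hp hp'
  | monomial n a =>
    rw [Polynomial.aeval_monomial, Module.End.mul_apply]
    refine U.smul_mem a ?_
    induction n with
    | zero => exact hu
    | succ n ih =>
      rw [pow_succ', Module.End.mul_apply]
      exact hU _ ih

/-- A polynomial which is one at a point and zero at the other points of a finite set. -/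
theorem exists_poly (s : Finset K) (β : K) : ∃ P : K[X], P.eval β = 1 ∧
    ∀ z ∈ s, z ≠ β → P.eval z = 0 := by
  classical
  refine ⟨Lagrange.interpolate (insert β s) id (fun w => if w = β then 1 else 0), ?_, ?_⟩
  · have h1 := Lagrange.eval_interpolate_at_node (s := insert β s) (v := id)
      (fun w : K => if w = β then (1 : K) else 0) (Function.injective_id.injOn)
      (Finset.mem_insert_self β s)
    rwa [if_pos rfl, id] at h1
  · intro z hz hne
    have h1 := Lagrange.eval_interpolate_at_node (s := insert β s) (v := id)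
      (fun w : K => if w = β then (1 : K) else 0) (Function.injective_id.injOn)
      (Finset.mem_insert_of_mem (a := z) hz)
    rwa [if_neg hne, id] at h1

/-- The components of the vectors of a stable space are in the space. -/
theorem exists_comp {T : Module.End K (MultilinearMap K (fun _ : κ => X) K)} {Λ : (κ → ι) → K}
    (hT : ∀ φ I, T φ (fun k => e (I k)) = Λ I * φ (fun k => e (I k)))
    {U : Submodule K (MultilinearMap K (fun _ : κ => X) K)} (hU : ∀ u ∈ U, T u ∈ U)
    {u : MultilinearMap K (fun _ : κ => X) K} (hu : u ∈ U) (β : K) :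
    ∃ w ∈ U, (∀ I, Λ I = β → w (fun k => e (I k)) = u (fun k => e (I k))) ∧
      ∀ I, Λ I ≠ β → w (fun k => e (I k)) = 0 := by
  classical
  obtain ⟨P, hP1, hP2⟩ := exists_poly (Finset.univ.image Λ) β
  refine ⟨aeval T P u, aeval_mem hU P u hu, fun I h => ?_, fun I h => ?_⟩
  · rw [aeval_diag e hT, h, hP1, one_mul]
  · rw [aeval_diag e hT, hP2 _ (Finset.mem_image_of_mem Λ (Finset.mem_univ I)) h, zero_mul]

/-- Transfer of the eigenvalues which occur. -/
theorem supp_transfer {κ' : Type} [Fintype κ'] [DecidableEq κ']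
    {T : Module.End K (MultilinearMap K (fun _ : κ => X) K)} {Λ : (κ → ι) → K}
    (hT : ∀ φ I, T φ (fun k => e (I k)) = Λ I * φ (fun k => e (I k)))
    {T' : Module.End K (MultilinearMap K (fun _ : κ' => X) K)} {Λ' : (κ' → ι) → K}
    (hT' : ∀ φ I, T' φ (fun k => e (I k)) = Λ' I * φ (fun k => e (I k))) {c : K}
    (f : MultilinearMap K (fun _ : κ => X) K →ₗ[K] MultilinearMap K (fun _ : κ' => X) K)
    (hf : ∀ φ, f (T φ) = c • T' (f φ)) (φ : MultilinearMap K (fun _ : κ => X) K) (I : κ' → ι)
    (hI : f φ (fun k => e (I k)) ≠ 0) : ∃ J, φ (fun k => e (J k)) ≠ 0 ∧ Λ J = c * Λ' I := by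
  classical
  obtain ⟨P, hP1, hP2⟩ := exists_poly (Finset.univ.image Λ) (c * Λ' I)
  have h1 : ∀ (p : K[X]) φ, f (aeval T p φ) = aeval (c • T') p (f φ) := by
    intro p φ
    induction p using Polynomial.induction_on' with
    | add p p' hp hp' =>
      rw [map_add, LinearMap.add_apply, map_add, map_add, LinearMap.add_apply, hp, hp']
    | monomial n a =>
      rw [Polynomial.aeval_monomial, Polynomial.aeval_monomial, Module.End.mul_apply,
        Module.End.mul_apply]
      change f (a • (T ^ n) φ) = a • ((c • T') ^ n) (f φ)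
      rw [map_smul]
      congr 1
      induction n generalizing φ with
      | zero => rfl
      | succ n ih =>
        rw [pow_succ, pow_succ, Module.End.mul_apply, Module.End.mul_apply, ih, hf]
        rfl
  have hT2 : ∀ φ I, (c • T') φ (fun k => e (I k)) = (c * Λ' I) * φ (fun k => e (I k)) := by
    intro φ I
    change c * T' φ _ = _
    rw [hT', mul_assoc]
  by_contra hcon
  push Not at hcon
  have h2 : aeval T P φ = 0 := by
    refine Basis.ext_multilinear (fun _ => e) fun J => ?_
    rw [aeval_diag e hT]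
    by_cases h : φ (fun k => e (J k)) = 0
    · rw [h, mul_zero]; rfl
    · rw [hP2 _ (Finset.mem_image_of_mem Λ (Finset.mem_univ J)) (hcon J h), zero_mul]; rfl
  have h3 := h1 P φ
  rw [h2, map_zero] at h3
  have h4 := aeval_diag e hT2 P (f φ) I
  rw [← h3, hP1, one_mul] at h4
  exact hI h4.symm

end diag

variable (Fr : Frame R χ ι Q)

/-- The element `γ` is ordinary for the valuation ring `A`: its eigenvalues on the positive basis
vectors are units, and on the negative ones units times `χ γ`, which is not a unit. -/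
structure Ord (γ : Γ) (A : ValuationSubring K) : Prop where
  eig : ∃ u : ι → K, (∀ x, u x ∈ A ∧ (u x)⁻¹ ∈ A ∧ u x ≠ 0) ∧
    ∀ x, R γ (Fr.e x) = ((if Fr.sg x = true then 1 else χ γ) * u x) • Fr.e x
  mem : χ γ ∈ A
  inv : (χ γ)⁻¹ ∉ A

/-- The number of negative basis vectors. -/
def sl {κ : Type} [Fintype κ] (I : κ → ι) : ℕ := (Finset.univ.filter fun k => Fr.sg (I k) = false).card

variable {Fr}

theorem Ord.q_ne {γ : Γ} {A : ValuationSubring K} (h : Ord Fr γ A) : χ γ ≠ 0 := by
  intro h0
  apply h.inv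
  rw [h0, inv_zero]
  exact A.zero_mem

theorem Ord.pow {γ : Γ} {A : ValuationSubring K} (h : Ord Fr γ A) {N : ℕ} (hN : 0 < N) :
    Ord Fr (γ ^ N) A := by
  obtain ⟨u, hu, he⟩ := h.eig
  refine ⟨⟨fun x => u x ^ N, fun x => ⟨A.pow_mem (hu x).1 N, ?_, pow_ne_zero _ (hu x).2.2⟩,
    fun x => ?_⟩, ?_, ?_⟩
  · rw [← inv_pow]
    exact A.pow_mem (hu x).2.1 N
  · have h1 : ∀ M : ℕ, R (γ ^ M) (Fr.e x) =
        ((if Fr.sg x = true then 1 else χ (γ ^ M)) * u x ^ M) • Fr.e x := by
      intro M
      induction M with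
      | zero =>
        rw [pow_zero, map_one, map_one, pow_zero, mul_one]
        simp
      | succ M ih =>
        rw [pow_succ, map_mul, Module.End.mul_apply, he, map_smul, ih, smul_smul, map_mul]
        congr 1
        split_ifs <;> ring
    exact h1 N
  · rw [map_pow]
    exact A.pow_mem h.mem N
  · intro h1
    apply h.inv
    obtain ⟨M, rfl⟩ : ∃ M, N = M + 1 := ⟨N - 1, by omega⟩
    rw [map_pow] at h1
    have h2 := A.mul_mem _ _ (A.pow_mem h.mem M) h1
    have h3 : χ γ ^ M * (χ γ ^ (M + 1))⁻¹ = (χ γ)⁻¹ := by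
      have := h.q_ne
      rw [pow_succ]
      field_simp
    rwa [h3] at h2

variable {γ : Γ} {A : ValuationSubring K}

/-- The eigenvalue of a product of basis vectors. -/
theorem Ord.exists_lam (h : Ord Fr γ A) (κ : Type) [Fintype κ] [DecidableEq κ] :
    ∃ Λ : (κ → ι) → K, (∀ (φ : MultilinearMap K (fun _ : κ => X) K) (I : κ → ι),
      TT (R γ) φ (fun k => Fr.e (I k)) = Λ I * φ (fun k => Fr.e (I k))) ∧
      ∀ I, ∃ u : K, u ∈ A ∧ u⁻¹ ∈ A ∧ u ≠ 0 ∧ Λ I = χ γ ^ sl Fr I * u := by
  classical
  obtain ⟨u, hu, he⟩ := h.eig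
  refine ⟨fun I => ∏ k, ((if Fr.sg (I k) = true then 1 else χ γ) * u (I k)), fun φ I => ?_,
    fun I => ⟨∏ k, u (I k), ?_, ?_, ?_, ?_⟩⟩
  · rw [TT_apply]
    simp only [he]
    rw [MultilinearMap.map_smul_univ, smul_eq_mul]
  · exact prod_mem fun k _ => (hu (I k)).1
  · rw [← Finset.prod_inv_distrib]
    exact prod_mem fun k _ => (hu (I k)).2.1
  · exact Finset.prod_ne_zero_iff.2 fun k _ => (hu (I k)).2.2
  · change ∏ k, ((if Fr.sg (I k) = true then 1 else χ γ) * u (I k)) = _
    rw [Finset.prod_mul_distrib]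
    congr 1
    have h1 : ∀ k, (if Fr.sg (I k) = true then (1 : K) else χ γ) =
        if Fr.sg (I k) = false then χ γ else 1 := by
      intro k
      cases Fr.sg (I k) <;> simp
    rw [Finset.prod_congr rfl fun k _ => h1 k, Finset.prod_ite, Finset.prod_const,
      Finset.prod_const_one, mul_one]
    rfl

/-- Comparison of slopes. -/
theorem Ord.slope_eq (h : Ord Fr γ A) {a b : ℕ} {u v : K} (hu : u ∈ A ∧ u⁻¹ ∈ A ∧ u ≠ 0)
    (hv : v ∈ A ∧ v⁻¹ ∈ A ∧ v ≠ 0) (h1 : χ γ ^ a * u = χ γ ^ b * v) : a = b := by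
  have key : ∀ {a b : ℕ} {u v : K}, (u ∈ A ∧ u⁻¹ ∈ A ∧ u ≠ 0) → (v ∈ A ∧ v⁻¹ ∈ A ∧ v ≠ 0) →
      χ γ ^ a * u = χ γ ^ b * v → a ≤ b := by
    intro a b u v hu hv h1
    by_contra hcon
    push Not at hcon
    obtain ⟨d, rfl⟩ : ∃ d, a = b + (d + 1) := ⟨a - b - 1, by omega⟩
    apply h.inv
    have hq := h.q_ne
    have h2 : (χ γ)⁻¹ = χ γ ^ d * (u * v⁻¹) := by
      rw [pow_add] at h1
      have h3 : χ γ ^ (d + 1) * u = v := by
        have h4 : χ γ ^ b ≠ 0 := pow_ne_zero _ hq
        exact mul_left_cancel₀ h4 (by rw [← mul_assoc, h1])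
      have hv0 := hv.2.2
      rw [← h3]
      have hu0 := hu.2.2
      rw [pow_succ]
      field_simp
    rw [h2]
    exact A.mul_mem _ _ (A.pow_mem h.mem d) (A.mul_mem _ _ hu.1 hv.2.1)
  exact le_antisymm (key hu hv h1) (key hv hu h1.symm)

end

end Pool.Agent.Y128.GT
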