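import Pool.Agent.Y128.GT.Ind
import Pool.Agent.W529.Ta.Clifford

/-!
# Solvable Lie algebras of endomorphisms which are normalised by the group
-/

set_option linter.unusedSectionVars false

namespace Pool.Agent.Y128.GT

open Module Pool.Agent.H204R3.SP Pool.Agent.H204R3.GP Pool.Agent.W529.Ta
  Pool.Agent.TH131.GHC

noncomputable section

attribute [local instance 100] LieRing.ofAssociativeRing

variable {K : Type} [Field K] [CharZero K] {X : Type} [AddCommGroup X] [Module K X]
  {Γ : Type} [Group Γ] {R : Representation K Γ X} {χ : Γ →* K}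
  {ι Q : Type} [Fintype ι] [DecidableEq ι] [Fintype Q] [DecidableEq Q] (Fr : Frame R χ ι Q)

variable (R χ) in
/-- The endomorphisms which kill the bilinear Tate forms. -/
def gg : Submodule K (Module.End K X) where
  carrier := {x | ∀ B : X →ₗ[K] X →ₗ[K] K, IsTate2 R χ B → ∀ u w, B (x u) w + B u (x w) = 0}
  zero_mem' := fun B _ u w => by
    rw [LinearMap.zero_apply, LinearMap.zero_apply, map_zero, map_zero, LinearMap.zero_apply,
      add_zero]
  add_mem' := by
    intro x y hx hy B hB u w
    rw [LinearMap.add_apply, LinearMap.add_apply, map_add, map_add, LinearMap.add_apply]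
    linear_combination hx B hB u w + hy B hB u w
  smul_mem' := by
    intro c x hx B hB u w
    rw [LinearMap.smul_apply, LinearMap.smul_apply, map_smul, map_smul, LinearMap.smul_apply,
      smul_eq_mul, smul_eq_mul]
    linear_combination c * hx B hB u w

namespace Frame

/-- A stable subspace which meets the space with the number `q` contains it. -/
theorem irr (hss : HasProj R) {Δ : Subgroup Γ} (hΔ : Δ.FiniteIndex) {Y : Submodule K X}
    (hY : ∀ s ∈ Δ, ∀ v ∈ Y, R s v ∈ Y) {q : Q} {v : X} (hv : v ∈ Y) (hv0 : v ≠ 0)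
    (hvq : Fr.pr q v = v) (u : X) : Fr.pr q u ∈ Y := by
  obtain ⟨P, hP1, hP2, hP3⟩ := hss Δ hΔ Y hY
  obtain ⟨c, hc⟩ := Fr.schur Δ hΔ P hP3
  have h1 : ∀ u, P (Fr.pr q u) = c q • Fr.pr q u := by
    have h : P.comp (Fr.pr q) = c q • Fr.pr q := by
      refine Fr.e.ext fun x => ?_
      rw [LinearMap.comp_apply, LinearMap.smul_apply, pr_e]
      split_ifs with hx
      · rw [hc, hx]
      · rw [map_zero, smul_zero]
    exact fun u => congrArg (fun f : Module.End K X => f u) h
  have h2 : c q = 1 := by
    have h3 := h1 v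
    rw [hvq, hP2 v hv] at h3
    have h4 : (1 - c q) • v = 0 := by rw [sub_smul, one_smul, ← h3, sub_self]
    rcases smul_eq_zero.1 h4 with h5 | h5
    · exact (sub_eq_zero.1 h5).symm
    · exact absurd h5 hv0
  have h3 := h1 u
  rw [h2, one_smul] at h3
  rw [← h3]
  exact hP1 _

theorem sum_pr (u : X) : ∑ q, Fr.pr q u = u := by
  have h : ∑ q, Fr.pr q = 1 := by
    refine Fr.e.ext fun x => ?_
    rw [LinearMap.sum_apply]
    simp only [pr_e]
    rw [Finset.sum_ite_eq, if_pos (Finset.mem_univ _)]
    rfl
  have h1 := congrArg (fun f : Module.End K X => f u) h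
  simp only [LinearMap.sum_apply] at h1
  exact h1

theorem pr_pr (q : Q) (u : X) : Fr.pr q (Fr.pr q u) = Fr.pr q u := by
  apply Fr.e.repr.injective
  ext x
  rw [pr_repr, pr_repr]
  split_ifs <;> rfl

theorem omega_tate : IsTate2 R χ Fr.ω := ⟨⊤, inferInstance, fun s _ u v => Fr.weil s u v⟩

theorem pr_adj (q : Q) (u v : X) : Fr.ω (Fr.pr q u) v = Fr.ω u (Fr.pr q v) := by
  have h : Fr.ω.comp (Fr.pr q) = Fr.ω.compl₂ (Fr.pr q) := by
    refine Fr.e.ext fun x => Fr.e.ext fun y => ?_
    rw [LinearMap.comp_apply, LinearMap.compl₂_apply, pr_e, pr_e]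
    by_cases hxy : y = Fr.inv x
    · rw [hxy, Fr.cls_inv]
      split_ifs
      · rfl
      · rw [map_zero, map_zero, LinearMap.zero_apply]
    · have h0 : Fr.ω (Fr.e x) (Fr.e y) = 0 := by rw [Fr.hω, JJ, if_neg hxy]
      split_ifs
      · rfl
      · rw [map_zero, h0]
      · rw [map_zero, h0, LinearMap.zero_apply]
      · rw [map_zero, map_zero, LinearMap.zero_apply]
  exact congrArg (fun f : X →ₗ[K] X →ₗ[K] K => f u v) h

theorem gg_pr {x : Module.End K X} (hx : x ∈ gg R χ) (q : Q) (u : X) :
    x (Fr.pr q u) = Fr.pr q (x u) := by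
  refine sub_eq_zero.1 (Fr.nondeg_left _ fun w => ?_)
  have h1 := hx _ Fr.omega_tate (Fr.pr q u) w
  have h2 := hx _ (Fr.om_tate q) u w
  rw [om, LinearMap.comp_apply, LinearMap.comp_apply] at h2
  rw [map_sub, LinearMap.sub_apply]
  linear_combination h1 - h2

/-- A common eigenvector of a solvable Lie algebra. -/
theorem exists_eig [IsAlgClosed K] (r : LieSubalgebra K (Module.End K X))
    [LieAlgebra.IsSolvable r] (hg : ∀ x ∈ r, x ∈ gg R χ) (x0 : ι) :
    ∃ v : X, v ≠ 0 ∧ Fr.pr (Fr.cls x0) v = v ∧ ∀ x ∈ r, ∃ c : K, x v = c • v := by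
  classical
  have hfd : FiniteDimensional K X := Module.Finite.of_basis Fr.e
  let W : LieSubmodule K r X :=
    { carrier := {v | Fr.pr (Fr.cls x0) v = v}
      add_mem' := by
        intro a b ha hb
        change Fr.pr _ (a + b) = a + b
        rw [map_add]
        change Fr.pr _ a = a at ha
        change Fr.pr _ b = b at hb
        rw [ha, hb]
      zero_mem' := map_zero _
      smul_mem' := by
        intro c a ha
        change Fr.pr _ (c • a) = c • a
        change Fr.pr _ a = a at ha
        rw [map_smul, ha]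
      lie_mem := by
        intro x v hv
        change Fr.pr _ v = v at hv
        change Fr.pr _ ((x : Module.End K X) v) = (x : Module.End K X) v
        rw [← Fr.gg_pr (hg x x.2), hv] }
  have hW0 : Fr.e x0 ∈ W := by
    change Fr.pr _ _ = _
    rw [Fr.pr_e, if_pos rfl]
  have hnt : Nontrivial W := ⟨⟨⟨Fr.e x0, hW0⟩, 0, fun h =>
    Fr.e.ne_zero x0 (congrArg (fun w : W => (w : X)) h)⟩⟩
  obtain ⟨μ, hμ⟩ := LieModule.exists_nontrivial_weightSpace_of_isSolvable K r W
  obtain ⟨⟨w, hw⟩, hw0⟩ := exists_ne (0 : LieModule.weightSpace W μ)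
  rw [LieModule.mem_weightSpace] at hw
  refine ⟨(w : X), ?_, w.2, fun x hx => ⟨μ ⟨x, hx⟩, ?_⟩⟩
  · intro h
    apply hw0
    apply Subtype.ext
    exact Subtype.ext h
  · exact congrArg (fun w : W => (w : X)) (hw ⟨x, hx⟩)

include Fr in
/-- **Solvable Lie algebras normalised by the group are zero.** -/
theorem solv [IsAlgClosed K] (hss : HasProj R) (r : LieSubalgebra K (Module.End K X))
    [LieAlgebra.IsSolvable r] (hg : ∀ x ∈ r, x ∈ gg R χ)
    (hc : ∀ (s : Γ), ∀ x ∈ r, R s * x * R s⁻¹ ∈ r) : ∀ x ∈ r, x = 0 := by
  classical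
  have hfd : FiniteDimensional K X := Module.Finite.of_basis Fr.e
  have hRi : ∀ (s : Γ) (v : X), R s⁻¹ (R s v) = v := fun s v => by
    rw [← Module.End.mul_apply, ← map_mul, inv_mul_cancel, map_one]; rfl
  have hRi' : ∀ (s : Γ) (v : X), R s (R s⁻¹ v) = v := fun s v => by
    rw [← Module.End.mul_apply, ← map_mul, mul_inv_cancel, map_one]; rfl
  have hc' : ∀ (s : Γ), ∀ x ∈ r, R s⁻¹ * x * R s ∈ r := by
    intro s x hx
    have h := hc s⁻¹ x hx
    rwa [_root_.inv_inv] at h
  have hcv : ∀ (s : Γ) (x : Module.End K X) (v : X), x (R s v) = R s ((R s⁻¹ * x * R s) v) := by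
    intro s x v
    rw [Module.End.mul_apply, Module.End.mul_apply, hRi']
  -- a vector killed under stable conditions
  have hall : ∀ (T : Module.End K X), (∀ q u, T (Fr.pr q u) = 0) → T = 0 := by
    intro T hT
    refine LinearMap.ext fun u => ?_
    rw [← Fr.sum_pr u, map_sum, Finset.sum_eq_zero fun q _ => hT q u, LinearMap.zero_apply]
  have hq : ∀ q, (∃ x0, Fr.cls x0 = q) ∨ ∀ u, Fr.pr q u = 0 := by
    intro q
    by_cases h : ∃ x0, Fr.cls x0 = q
    · exact Or.inl h
    · refine Or.inr fun u => ?_
      push Not at h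
      have h1 : Fr.pr q = 0 := Fr.e.ext fun x => by
        rw [pr_e, if_neg (h x), LinearMap.zero_apply]
      rw [h1, LinearMap.zero_apply]
  -- the Lie algebra is commutative
  have hcomm : ∀ x ∈ r, ∀ y ∈ r, x * y = y * x := by
    intro x hx y hy
    refine sub_eq_zero.1 (hall _ fun q u => ?_)
    rcases hq q with ⟨x0, rfl⟩ | h0
    · obtain ⟨v, hv0, hvq, hv⟩ := Fr.exists_eig r hg x0
      let Y : Submodule K X :=
        { carrier := {v | ∀ x ∈ r, ∀ y ∈ r, (x * y - y * x) v = 0}
          add_mem' := by
            intro a b ha hb x hx y hy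
            rw [map_add, ha x hx y hy, hb x hx y hy, add_zero]
          zero_mem' := fun x _ y _ => map_zero _
          smul_mem' := by
            intro c a ha x hx y hy
            rw [map_smul, ha x hx y hy, smul_zero] }
      have hvY : v ∈ Y := by
        intro x hx y hy
        obtain ⟨a, ha⟩ := hv x hx
        obtain ⟨b, hb⟩ := hv y hy
        rw [LinearMap.sub_apply, Module.End.mul_apply, Module.End.mul_apply, ha, hb, map_smul,
          map_smul, ha, hb, smul_smul, smul_smul, mul_comm, sub_self]
      have hY : ∀ s ∈ (⊤ : Subgroup Γ), ∀ v ∈ Y, R s v ∈ Y := by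
        intro s _ v hv x hx y hy
        have h1 := hv _ (hc' s x hx) _ (hc' s y hy)
        have h2 : (x * y - y * x) (R s v) = R s (((R s⁻¹ * x * R s) * (R s⁻¹ * y * R s) -
            (R s⁻¹ * y * R s) * (R s⁻¹ * x * R s)) v) := by
          simp only [LinearMap.sub_apply, Module.End.mul_apply, map_sub, hRi']
        rw [h2, h1, map_zero]
      exact Fr.irr hss inferInstance hY hvY hv0 hvq u x hx y hy
    · rw [h0, map_zero]
  intro x hx
  refine hall _ fun q u => ?_
  rcases hq q with ⟨x0, rfl⟩ | h0
  · obtain ⟨v, hv0, hvq, hv⟩ := Fr.exists_eig r hg x0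
    choose! c hcv' using hv
    let f : r → Module.End K X := fun x => x
    let lam : r → K := fun x => c x
    let E : (r → K) → Submodule K X := fun l => ⨅ x, (f x).maxGenEigenspace (l x)
    have hind : iSupIndep E := Module.End.independent_iInf_maxGenEigenspace_of_forall_mapsTo f
      (fun i j φ => Module.End.mapsTo_maxGenEigenspace_of_comm (hcomm _ j.2 _ i.2) φ)
    have hfin : {l | E l ≠ ⊥}.Finite := WellFoundedGT.finite_ne_bot_of_iSupIndep hind
    let act : Γ → (r → K) → (r → K) := fun s l x => l ⟨R s⁻¹ * x * R s, hc' s x x.2⟩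
    have hact : ∀ s t l, act (s * t) l = act s (act t l) := by
      intro s t l
      funext x
      change l _ = l _
      congr 1
      apply Subtype.ext
      change R (s * t)⁻¹ * (x : Module.End K X) * R (s * t) =
        R t⁻¹ * (R s⁻¹ * (x : Module.End K X) * R s) * R t
      rw [mul_inv_rev, map_mul, map_mul]
      simp only [mul_assoc]
    have hact1 : ∀ l, act 1 l = l := by
      intro l
      funext x
      change l _ = l _
      congr 1
      apply Subtype.ext
      change R (1 : Γ)⁻¹ * (x : Module.End K X) * R 1 = x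
      rw [inv_one, map_one, one_mul, mul_one]
    have hEmap : ∀ s l v, v ∈ E l → R s v ∈ E (act s l) := by
      intro s l v hv
      rw [Submodule.mem_iInf] at hv ⊢
      intro x
      have h1 := hv ⟨R s⁻¹ * x * R s, hc' s x x.2⟩
      rw [Module.End.mem_maxGenEigenspace] at h1 ⊢
      obtain ⟨k, hk⟩ := h1
      refine ⟨k, ?_⟩
      have h2 : ∀ (k : ℕ) (v : X), ((f x - act s l x • (1 : Module.End K X)) ^ k) (R s v) =
          R s (((f ⟨R s⁻¹ * x * R s, hc' s x x.2⟩ -
            l ⟨R s⁻¹ * x * R s, hc' s x x.2⟩ • (1 : Module.End K X)) ^ k) v) := by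
        intro k
        induction k with
        | zero => intro v; rfl
        | succ k ih =>
          intro v
          rw [pow_succ, pow_succ, Module.End.mul_apply, Module.End.mul_apply, ← ih]
          congr 1
          rw [LinearMap.sub_apply, LinearMap.sub_apply, map_sub]
          congr 1
          · exact hcv s _ v
          · rw [LinearMap.smul_apply, LinearMap.smul_apply, map_smul]
            rfl
      rw [h2, hk, map_zero]
    have hvE : v ∈ E lam := by
      rw [Submodule.mem_iInf]
      intro x
      rw [Module.End.mem_maxGenEigenspace]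
      refine ⟨1, ?_⟩
      rw [pow_one, LinearMap.sub_apply]
      change (x : Module.End K X) v - c x • v = 0
      rw [hcv' _ x.2, sub_self]
    have hRinj : ∀ (s : Γ) (v : X), v ≠ 0 → R s v ≠ 0 := by
      intro s v hv h
      apply hv
      rw [← hRi s v, h, map_zero]
    let Δ' : Subgroup Γ :=
      { carrier := {s | act s lam = lam}
        mul_mem' := by
          intro s t hs ht
          change act (s * t) lam = lam
          rw [hact]
          change act s lam = lam at hs
          change act t lam = lam at ht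
          rw [ht, hs]
        one_mem' := hact1 lam
        inv_mem' := by
          intro s hs
          change act s lam = lam at hs
          change act s⁻¹ lam = lam
          calc act s⁻¹ lam = act s⁻¹ (act s lam) := by rw [hs]
            _ = act (s⁻¹ * s) lam := (hact s⁻¹ s lam).symm
            _ = lam := by rw [inv_mul_cancel, hact1] }
    have hΔ' : Δ'.FiniteIndex := by
      have _ : Finite {l | E l ≠ ⊥} := hfin
      have hne : ∀ s : Γ, E (act s lam) ≠ ⊥ := by
        intro s h
        have h1 := hEmap s lam v hvE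
        rw [h, Submodule.mem_bot] at h1
        exact hRinj s v hv0 h1
      let F : Γ ⧸ Δ' → {l | E l ≠ ⊥} := Quotient.lift (fun s => ⟨act s lam, hne s⟩) (by
        intro s t hst
        have h1 : s⁻¹ * t ∈ Δ' := QuotientGroup.leftRel_apply.1 hst
        have h2 : act (s⁻¹ * t) lam = lam := h1
        apply Subtype.ext
        change act s lam = act t lam
        have h3 : act t lam = act s (act (s⁻¹ * t) lam) := by
          refine Eq.trans ?_ (hact s (s⁻¹ * t) lam)
          rw [mul_inv_cancel_left]
        rw [h3, h2])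
      have hF : Function.Injective F := by
        intro a b
        refine Quotient.inductionOn₂ a b ?_
        intro s t hst
        have h1 : act s lam = act t lam := congrArg Subtype.val hst
        refine Quotient.sound (QuotientGroup.leftRel_apply.2 ?_)
        change act (s⁻¹ * t) lam = lam
        calc act (s⁻¹ * t) lam = act s⁻¹ (act t lam) := hact s⁻¹ t lam
          _ = act s⁻¹ (act s lam) := by rw [h1]
          _ = act (s⁻¹ * s) lam := (hact s⁻¹ s lam).symm
          _ = lam := by rw [inv_mul_cancel, hact1]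
      have _ : Finite (Γ ⧸ Δ') := Finite.of_injective F hF
      exact Subgroup.finiteIndex_of_finite_quotient
    have hEst : ∀ s ∈ Δ', ∀ v ∈ E lam, R s v ∈ E lam := by
      intro s hs v hv
      have h1 : act s lam = lam := hs
      have h2 := hEmap s lam v hv
      rwa [h1] at h2
    have hWE := Fr.irr hss hΔ' hEst hvE hv0 hvq
    -- the weight is zero
    have hc0 : ∀ x ∈ r, c x = 0 := by
      intro x hx
      obtain ⟨w, hw⟩ : ∃ w, Fr.ω v w ≠ 0 := by
        by_contra h
        push Not at h
        exact hv0 (Fr.nondeg_left v h)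
      have hw' : Fr.ω v (Fr.pr (Fr.cls x0) w) ≠ 0 := by
        rw [← Fr.pr_adj, hvq]
        exact hw
      have h1 := hWE w
      rw [Submodule.mem_iInf] at h1
      have h2 := h1 ⟨x, hx⟩
      rw [Module.End.mem_maxGenEigenspace] at h2
      obtain ⟨k, hk⟩ := h2
      have h3 : ∀ (k : ℕ) (u : X), Fr.ω v (((x - c x • (1 : Module.End K X)) ^ k) u) =
          (-2 * c x) ^ k * Fr.ω v u := by
        intro k
        induction k with
        | zero => intro u; rw [pow_zero, pow_zero, one_mul]; rfl
        | succ k ih =>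
          intro u
          rw [pow_succ, Module.End.mul_apply, ih, LinearMap.sub_apply, LinearMap.smul_apply,
            map_sub, map_smul, smul_eq_mul]
          have h4 := (hg x hx) _ Fr.omega_tate v u
          rw [hcv' x hx, map_smul, LinearMap.smul_apply, smul_eq_mul] at h4
          have h5 : Fr.ω v ((1 : Module.End K X) u) = Fr.ω v u := rfl
          rw [h5, pow_succ]
          linear_combination ((-2 * c x) ^ k) * h4
      have h4 := h3 k (Fr.pr (Fr.cls x0) w)
      have h5 : ((x - c x • (1 : Module.End K X)) ^ k) (Fr.pr (Fr.cls x0) w) = 0 := hk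
      rw [h5, map_zero] at h4
      rcases mul_eq_zero.1 h4.symm with h6 | h6
      · have h8 : -2 * c x = 0 := by
          by_contra hne
          exact pow_ne_zero k hne h6
        rcases mul_eq_zero.1 h8 with h9 | h9
        · exact absurd h9 (by norm_num)
        · exact h9
      · exact absurd h6 hw'
    let Y : Submodule K X :=
      { carrier := {v | ∀ x ∈ r, x v = 0}
        add_mem' := by
          intro a b ha hb x hx
          rw [map_add, ha x hx, hb x hx, add_zero]
        zero_mem' := fun x _ => map_zero _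
        smul_mem' := by
          intro c a ha x hx
          rw [map_smul, ha x hx, smul_zero] }
    have hvY : v ∈ Y := by
      intro x hx
      rw [hcv' x hx, hc0 x hx, zero_smul]
    have hY : ∀ s ∈ (⊤ : Subgroup Γ), ∀ v ∈ Y, R s v ∈ Y := by
      intro s _ v hv x hx
      rw [hcv, hv _ (hc' s x hx), map_zero]
    exact Fr.irr hss inferInstance hY hvY hv0 hvq u x hx
  · rw [h0, map_zero]

end Frame

end

end Pool.Agent.Y128.GT
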